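import Pool.Agent.LibGF7.Defs

set_option autoImplicit false

/-! ROW GF7 A1 (SHORT/MEDIUM, easy; pure MvPolynomial). The unfolding polynomials.
PLAN. unfP_*: Fin.cases on j / Fin.cons lemmas (jy j = Fin.castLE _ j: fin_cases j <;> rfl; ju a = a.succ.succ.succ.succ: rfl / simp [Fin.cons_succ]).
fb_*: Finsupp.prod_add_index', Finsupp.prod_single_index. fb_hom: `unfP Φ j` is homogeneous of degree `wt r j` (every j is jy _ or ju _), then
MvPolynomial.IsHomogeneous.pow, IsHomogeneous.prod, Finsupp.weight_apply. -/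

namespace Pool.Agent.LibGF7

variable {K : Type} [CommRing K] {r : ℕ}

theorem unfP_jy (Φ : Fin 4 → P K r) (j : Fin 4) : unfP Φ (jy j) = Φ j := by
  fin_cases j <;> rfl

theorem unfP_ju (Φ : Fin 4 → P K r) (a : Fin r) : unfP Φ (ju a) = MvPolynomial.X (iu a) := by
  rfl

theorem fb_zero (Φ : Fin 4 → P K r) : fb Φ 0 = 1 := by
  simp [fb]

theorem fb_add (Φ : Fin 4 → P K r) (β γ : Fin (r + 4) →₀ ℕ) : fb Φ (β + γ) = fb Φ β * fb Φ γ := by
  unfold fb
  exact Finsupp.prod_add_index' (fun _ => pow_zero _) (fun _ _ _ => pow_add _ _ _)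

theorem fb_jy (Φ : Fin 4 → P K r) (j : Fin 4) : fb Φ (Finsupp.single (jy j) 1) = Φ j := by
  have h : fb Φ (Finsupp.single (jy j) 1) = unfP Φ (jy j) ^ 1 :=
    Finsupp.prod_single_index (h := fun j n => unfP Φ j ^ n) (pow_zero _)
  rw [h, pow_one, unfP_jy]

theorem fb_ju (Φ : Fin 4 → P K r) (a : Fin r) : fb Φ (Finsupp.single (ju a) 1) = MvPolynomial.X (iu a) := by
  have h : fb Φ (Finsupp.single (ju a) 1) = unfP Φ (ju a) ^ 1 :=
    Finsupp.prod_single_index (h := fun j n => unfP Φ j ^ n) (pow_zero _)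
  rw [h, pow_one, unfP_ju]

private theorem A1_unfP_hom (Φ : Fin 4 → P K r) (hΦ : ∀ j, (Φ j).IsHomogeneous 2) (j : Fin (r + 4)) :
    (unfP Φ j).IsHomogeneous (wt r j) := by
  by_cases h : (j : ℕ) < 4
  · have hj : j = jy ⟨(j : ℕ), h⟩ := by
      apply Fin.ext
      simp [jy]
    have hw : wt r j = 2 := by simp [wt, h]
    rw [hw, hj, unfP_jy]
    exact hΦ _
  · have hj : j = ju ⟨(j : ℕ) - 4, by have := j.isLt; omega⟩ := by
      apply Fin.ext
      simp only [ju, Fin.val_succ]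
      omega
    have hw : wt r j = 1 := by simp [wt, h]
    rw [hw, hj, unfP_ju]
    exact MvPolynomial.isHomogeneous_X _ _

theorem fb_hom (Φ : Fin 4 → P K r) (hΦ : ∀ j, (Φ j).IsHomogeneous 2) (β : Fin (r + 4) →₀ ℕ) :
    (fb Φ β).IsHomogeneous (Finsupp.weight (wt r) β) := by
  have h := MvPolynomial.IsHomogeneous.prod β.support (fun j => unfP Φ j ^ β j)
    (fun j => wt r j * β j) (fun j _ => (A1_unfP_hom Φ hΦ j).pow (β j))
  have hw : Finsupp.weight (wt r) β = ∑ j ∈ β.support, wt r j * β j := by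
    rw [Finsupp.weight_apply, Finsupp.sum]
    refine Finset.sum_congr rfl fun j _ => ?_
    rw [smul_eq_mul, mul_comm]
  rw [hw]
  exact h

end Pool.Agent.LibGF7
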