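import Pool.Agent.LibGF7.A1

set_option autoImplicit false

/-! ROW GF7 A1b (MEDIUM, easy; pure MvPolynomial; cites A1). Closure properties of `SR`.
PLAN. SR_x: write `b` as the sum of its monomials (MvPolynomial.support_sum_monomial_coeff), every exponent of the support has degree `d`.
SR_u, SR_Y: Submodule.span_induction; for gX use SR_x with b = monomial α 1 * X (iu a) resp. monomial α 1 * Φ j₀ (homogeneous); for gY, gU:
X (iu a) * fb Φ β = fb Φ (β + single (ju a) 1), Φ j₀ * fb Φ β = fb Φ (β + single (jy j₀) 1) (fb_add, fb_ju, fb_jy of A1; Finsupp.weight is additive).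
SR_hom: span_induction with fb_hom; pderiv of a homogeneous polynomial of degree 2 is homogeneous of degree 1 (MvPolynomial.IsHomogeneous.pderiv).
SR_cg: span_induction, the images of the generators are the generators (MvPolynomial.map_monomial, MvPolynomial.pderiv_map, map of fb; `cg K'` is additive, and
cg K' (c • v) = algebraMap c • cg K' v). -/

namespace Pool.Agent.LibGF7

variable {K : Type} [CommRing K] {r : ℕ}

theorem SR_x (Φ : Fin 4 → P K r) {d : ℕ} (b : P K r) (hb : b.IsHomogeneous d) (i : Fin 3) :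
    (fun j => b * MvPolynomial.pderiv (ix i) (Φ j)) ∈ SR Φ (d + 1) := by
  have h : (fun j => b * MvPolynomial.pderiv (ix i) (Φ j)) = ∑ e ∈ b.support, b.coeff e • gX Φ i e := by
    funext j
    rw [Finset.sum_apply]
    simp only [Pi.smul_apply, gX]
    conv_lhs => rw [← MvPolynomial.support_sum_monomial_coeff b]
    rw [Finset.sum_mul]
    refine Finset.sum_congr rfl (fun e _ => ?_)
    rw [← smul_mul_assoc, MvPolynomial.smul_monomial, smul_eq_mul, mul_one]
  rw [h]
  refine Submodule.sum_mem _ (fun e he => Submodule.smul_mem _ _ (Submodule.subset_span (Or.inl (Or.inl ⟨i, e, ?_, rfl⟩))))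
  have h1 : e.degree = d := by
    by_contra hne
    exact (MvPolynomial.mem_support_iff.mp he) (hb.coeff_eq_zero hne)
  rw [h1]

private theorem A1b_mul (Φ : Fin 4 → P K r) (g : P K r) {m n : ℕ}
    (hX : ∀ (i : Fin 3) (α : Fin (r + 3) →₀ ℕ), Finsupp.degree α + 1 = m → (fun j => g * gX Φ i α j) ∈ SR Φ n)
    (hY : ∀ (j₀ : Fin 4) (β : Fin (r + 4) →₀ ℕ), Finsupp.weight (wt r) β = m → (fun j => g * gY Φ j₀ β j) ∈ SR Φ n)
    (hU : ∀ (a : Fin r) (β : Fin (r + 4) →₀ ℕ), Finsupp.weight (wt r) β + 1 = m → (fun j => g * gU Φ a β j) ∈ SR Φ n)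
    {v : Fin 4 → P K r} (hv : v ∈ SR Φ m) : (fun j => g * v j) ∈ SR Φ n := by
  unfold SR at hv
  induction hv using Submodule.span_induction with
  | mem v hv =>
    rcases hv with (⟨i, α, hα, rfl⟩ | ⟨j₀, β, hβ, rfl⟩) | ⟨a, β, hβ, rfl⟩
    · exact hX i α hα
    · exact hY j₀ β hβ
    · exact hU a β hβ
  | zero =>
    have h : (fun j => g * (0 : Fin 4 → P K r) j) = 0 := by
      funext j
      exact mul_zero _
    rw [h]
    exact Submodule.zero_mem _
  | add x y _ _ hx hy =>
    have h : (fun j => g * (x + y) j) = (fun j => g * x j) + (fun j => g * y j) := by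
      funext j
      exact mul_add _ _ _
    rw [h]
    exact Submodule.add_mem _ hx hy
  | smul c x _ hx =>
    have h : (fun j => g * (c • x) j) = c • (fun j => g * x j) := by
      funext j
      exact mul_smul_comm c g (x j)
    rw [h]
    exact Submodule.smul_mem _ _ hx

private theorem A1b_wju (a : Fin r) : Finsupp.weight (wt r) (Finsupp.single (ju a) 1) = 1 := by
  rw [Finsupp.weight_single]
  unfold wt ju
  have h : ¬ ((a.succ.succ.succ.succ : Fin (r + 4)) : ℕ) < 4 := by
    simp only [Fin.val_succ]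
    omega
  rw [if_neg h, one_smul]

private theorem A1b_wjy (j : Fin 4) : Finsupp.weight (wt r) (Finsupp.single (jy j) 1) = 2 := by
  rw [Finsupp.weight_single]
  unfold wt jy
  have h : ((Fin.castLE (by omega) j : Fin (r + 4)) : ℕ) < 4 := by
    rw [Fin.val_castLE]
    exact j.isLt
  rw [if_pos h, one_smul]

private theorem A1b_map_unfP {K' : Type} [CommRing K'] [Algebra K K'] (Φ : Fin 4 → P K r) (j : Fin (r + 4)) :
    MvPolynomial.map (algebraMap K K') (unfP Φ j) = unfP (cg K' Φ) j := by
  unfold unfP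
  refine Fin.cases ?_ (fun j => ?_) j
  · rfl
  refine Fin.cases ?_ (fun j => ?_) j
  · rfl
  refine Fin.cases ?_ (fun j => ?_) j
  · rfl
  refine Fin.cases ?_ (fun j => ?_) j
  · rfl
  simp only [Fin.cons_succ]
  exact MvPolynomial.map_X _ _

private theorem A1b_map_fb {K' : Type} [CommRing K'] [Algebra K K'] (Φ : Fin 4 → P K r) (β : Fin (r + 4) →₀ ℕ) :
    MvPolynomial.map (algebraMap K K') (fb Φ β) = fb (cg K' Φ) β := by
  unfold fb
  rw [map_finsuppProd]
  simp only [map_pow, A1b_map_unfP]

theorem SR_u (Φ : Fin 4 → P K r) {m : ℕ} {v : Fin 4 → P K r} (hv : v ∈ SR Φ m) (a : Fin r) :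
    (fun j => MvPolynomial.X (iu a) * v j) ∈ SR Φ (m + 1) := by
  refine A1b_mul Φ (MvPolynomial.X (iu a)) ?_ ?_ ?_ hv
  · rintro i α rfl
    have h1 := SR_x Φ (MvPolynomial.monomial α 1 * MvPolynomial.X (iu a)) ((MvPolynomial.isHomogeneous_monomial 1 rfl).mul (MvPolynomial.isHomogeneous_X _ _)) i
    have h2 : (fun j => MvPolynomial.X (iu a) * gX Φ i α j) = (fun j => (MvPolynomial.monomial α 1 * MvPolynomial.X (iu a)) * MvPolynomial.pderiv (ix i) (Φ j)) := by
      funext j
      unfold gX
      ring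
    rw [h2]
    exact h1
  · rintro j₀ β rfl
    refine Submodule.subset_span (Or.inl (Or.inr ⟨j₀, β + Finsupp.single (ju a) 1, ?_, ?_⟩))
    · rw [map_add, A1b_wju]
    · funext j
      unfold gY
      rw [fb_add, fb_ju]
      split_ifs
      · ring
      · ring
  · rintro a' β rfl
    refine Submodule.subset_span (Or.inr ⟨a', β + Finsupp.single (ju a) 1, ?_, ?_⟩)
    · rw [map_add, A1b_wju]
    · funext j
      unfold gU
      rw [fb_add, fb_ju]
      ring

theorem SR_Y (Φ : Fin 4 → P K r) (hΦ : ∀ j, (Φ j).IsHomogeneous 2) {m : ℕ} {v : Fin 4 → P K r} (hv : v ∈ SR Φ m) (j₀ : Fin 4) :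
    (fun j => Φ j₀ * v j) ∈ SR Φ (m + 2) := by
  refine A1b_mul Φ (Φ j₀) ?_ ?_ ?_ hv
  · rintro i α rfl
    have h1 := SR_x Φ (MvPolynomial.monomial α 1 * Φ j₀) ((MvPolynomial.isHomogeneous_monomial 1 rfl).mul (hΦ j₀)) i
    have h2 : (fun j => Φ j₀ * gX Φ i α j) = (fun j => (MvPolynomial.monomial α 1 * Φ j₀) * MvPolynomial.pderiv (ix i) (Φ j)) := by
      funext j
      unfold gX
      ring
    rw [h2]
    have h3 : α.degree + 1 + 2 = α.degree + 2 + 1 := by omega
    rw [h3]
    exact h1
  · rintro j₁ β rfl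
    refine Submodule.subset_span (Or.inl (Or.inr ⟨j₁, β + Finsupp.single (jy j₀) 1, ?_, ?_⟩))
    · rw [map_add, A1b_wjy]
    · funext j
      unfold gY
      rw [fb_add, fb_jy]
      split_ifs
      · ring
      · ring
  · rintro a' β rfl
    refine Submodule.subset_span (Or.inr ⟨a', β + Finsupp.single (jy j₀) 1, ?_, ?_⟩)
    · rw [map_add, A1b_wjy]
    · funext j
      unfold gU
      rw [fb_add, fb_jy]
      ring

theorem SR_hom (Φ : Fin 4 → P K r) (hΦ : ∀ j, (Φ j).IsHomogeneous 2) {m : ℕ} {v : Fin 4 → P K r} (hv : v ∈ SR Φ m) (j : Fin 4) :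
    (v j).IsHomogeneous m := by
  unfold SR at hv
  revert j
  induction hv using Submodule.span_induction with
  | mem v hv =>
    rcases hv with (⟨i, α, rfl, rfl⟩ | ⟨j₀, β, rfl, rfl⟩) | ⟨a, β, rfl, rfl⟩
    · intro j
      exact (MvPolynomial.isHomogeneous_monomial 1 rfl).mul (hΦ j).pderiv
    · intro j
      unfold gY
      split_ifs
      · exact fb_hom Φ hΦ β
      · exact MvPolynomial.isHomogeneous_zero _ _ _
    · intro j
      exact (fb_hom Φ hΦ β).mul (hΦ j).pderiv
  | zero =>
    intro j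
    exact MvPolynomial.isHomogeneous_zero _ _ _
  | add x y _ _ hx hy =>
    intro j
    exact (hx j).add (hy j)
  | smul c x _ hx =>
    intro j
    exact (MvPolynomial.mem_homogeneousSubmodule m _).mp (Submodule.smul_mem _ c ((MvPolynomial.mem_homogeneousSubmodule m _).mpr (hx j)))

theorem SR_cg {K' : Type} [CommRing K'] [Algebra K K'] (Φ : Fin 4 → P K r) {m : ℕ} {v : Fin 4 → P K r} (hv : v ∈ SR Φ m) :
    cg K' v ∈ SR (cg K' Φ) m := by
  unfold SR at hv
  induction hv using Submodule.span_induction with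
  | mem v hv =>
    rcases hv with (⟨i, α, hα, rfl⟩ | ⟨j₀, β, hβ, rfl⟩) | ⟨a, β, hβ, rfl⟩
    · refine Submodule.subset_span (Or.inl (Or.inl ⟨i, α, hα, ?_⟩))
      funext j
      unfold cg gX
      rw [map_mul, MvPolynomial.map_monomial, map_one, MvPolynomial.pderiv_map]
    · refine Submodule.subset_span (Or.inl (Or.inr ⟨j₀, β, hβ, ?_⟩))
      funext j
      unfold gY
      rw [← A1b_map_fb]
      unfold cg
      by_cases h : j = j₀
      · simp only [if_pos h]
      · simp only [if_neg h, map_zero]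
    · refine Submodule.subset_span (Or.inr ⟨a, β, hβ, ?_⟩)
      funext j
      unfold gU
      rw [← A1b_map_fb]
      unfold cg
      rw [map_mul, MvPolynomial.pderiv_map]
  | zero =>
    have h : cg K' (0 : Fin 4 → P K r) = 0 := by
      funext j
      exact map_zero _
    rw [h]
    exact Submodule.zero_mem _
  | add x y _ _ hx hy =>
    have h : cg K' (x + y) = cg K' x + cg K' y := by
      funext j
      exact map_add _ _ _
    rw [h]
    exact Submodule.add_mem _ hx hy
  | smul c x _ hx =>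
    have h : cg K' (c • x) = algebraMap K K' c • cg K' x := by
      funext j
      unfold cg
      rw [Pi.smul_apply, Pi.smul_apply, MvPolynomial.smul_eq_C_mul, MvPolynomial.smul_eq_C_mul, map_mul, MvPolynomial.map_C]
    rw [h]
    exact Submodule.smul_mem _ _ hx

end Pool.Agent.LibGF7
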