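import Pool.Agent.LibGF7.A1b

set_option autoImplicit false

/-! ROW GF7 A2 (MEDIUM). A finite certificate (generators `l g` over `K[u]`, their products with `Y_1, Y_2, Y_3`, vanishing of all `u`-monomials of large
degree on them) gives `VanAt Φ m` for all `m ≥ N`.
PLAN. gen_all: strong induction on `m`. By linearity `v` is `x^A y^B z^C u^γ e_j` (A + B + C + |γ| = m). If A, B, C ≤ 1 this is `umon γ` times `h1`
(VL is stable under u_a: umon (γ + single a 1) = X (iu a) * umon γ; SR_u). If, say, A ≥ 2: x^2 = Φ 0 - ∑ c X(iu a) X(ix l), so the vector is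
`Φ 0 * (degree m - 2)` minus a combination of `X (iu a) * (degree m - 1)`; the induction hypothesis, `h2` with SR_Y, resp. SR_u.
(Y_i * (umon γ * l g) = umon γ * (Φ i * l g).)
gr: `v ∈ ⨆ n, SR Φ n`, `v` homogeneous of degree `m`: apply the linear map `v ↦ (MvPolynomial.homogeneousComponent m (v j))_j`: it maps SR Φ n to 0 for
n ≠ m (SR_hom) and is the identity on SR Φ m and on `v`. -/

namespace Pool.Agent.LibGF7

variable {K : Type} [CommRing K] {r : ℕ}

/-- `u^γ` -/
noncomputable def umon (K : Type) [CommRing K] {r : ℕ} (γ : Fin r →₀ ℕ) : P K r :=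
  MvPolynomial.monomial (γ.mapDomain iu) 1

/-- the span of `u^γ l_g`, `|γ| + δ_g = m` -/
noncomputable def VL {ι : Type} (l : ι → Fin 4 → P K r) (δ : ι → ℕ) (m : ℕ) : Submodule K (Fin 4 → P K r) :=
  Submodule.span K {v | ∃ (g : ι) (γ : Fin r →₀ ℕ), Finsupp.degree γ + δ g = m ∧ v = fun j => umon K γ * l g j}

/-- `x^a y^b z^c e_j` -/
noncomputable def xe (K : Type) [CommRing K] {r : ℕ} (a b c : ℕ) (j₀ : Fin 4) : Fin 4 → P K r :=
  fun j => if j = j₀ then MvPolynomial.X (ix 0) ^ a * MvPolynomial.X (ix 1) ^ b * MvPolynomial.X (ix 2) ^ c else 0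

theorem xe_zero_mem (Φ : Fin 4 → P K r) (j₀ : Fin 4) : xe K 0 0 0 j₀ ∈ SR Φ 0 := by
  refine Submodule.subset_span (Or.inl (Or.inr ⟨j₀, 0, by simp, ?_⟩))
  funext j
  simp [xe, gY, fb_zero]

/-- multiplication by `b` -/
private noncomputable def mulL (b : P K r) : (Fin 4 → P K r) →ₗ[K] (Fin 4 → P K r) where
  toFun v := fun j => b * v j
  map_add' v w := by funext j; simp [mul_add]
  map_smul' c v := by funext j; simp

private theorem umon_zero : umon K (0 : Fin r →₀ ℕ) = 1 := by
  simp [umon]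

private theorem umon_add (γ γ' : Fin r →₀ ℕ) : umon K (γ + γ') = umon K γ * umon K γ' := by
  simp [umon, Finsupp.mapDomain_add, MvPolynomial.monomial_mul]

private theorem umon_single (a : Fin r) : umon K (Finsupp.single a 1) = MvPolynomial.X (iu a) := by
  simp [umon, Finsupp.mapDomain_single, MvPolynomial.X]

private theorem W_u (Φ : Fin 4 → P K r) {ι : Type} (l : ι → Fin 4 → P K r) (δ : ι → ℕ) {m : ℕ} {v : Fin 4 → P K r}
    (hv : v ∈ VL l δ m ⊔ SR Φ m) (a : Fin r) :
    (fun j => MvPolynomial.X (iu a) * v j) ∈ VL l δ (m + 1) ⊔ SR Φ (m + 1) := by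
  obtain ⟨p, hp, q, hq, rfl⟩ := Submodule.mem_sup.1 hv
  have h1 : VL l δ m ≤ (VL l δ (m + 1)).comap (mulL (MvPolynomial.X (iu a))) := by
    refine Submodule.span_le.2 ?_
    rintro w ⟨g, γ, hg, rfl⟩
    refine Submodule.subset_span ⟨g, γ + Finsupp.single a 1, ?_, ?_⟩
    · rw [map_add, Finsupp.degree_single]
      omega
    · funext j
      simp only [mulL, LinearMap.coe_mk, AddHom.coe_mk, umon_add, umon_single]
      ring
  have h2 := h1 hp
  have h3 := SR_u Φ hq a
  have h4 : (fun j => MvPolynomial.X (iu a) * (p + q) j) =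
      (fun j => MvPolynomial.X (iu a) * p j) + (fun j => MvPolynomial.X (iu a) * q j) := by
    funext j
    simp [mul_add]
  rw [h4]
  exact Submodule.add_mem_sup h2 h3

private theorem W_umon (Φ : Fin 4 → P K r) {ι : Type} (l : ι → Fin 4 → P K r) (δ : ι → ℕ) (γ : Fin r →₀ ℕ) :
    ∀ (m : ℕ) (v : Fin 4 → P K r), v ∈ VL l δ m ⊔ SR Φ m →
      (fun j => umon K γ * v j) ∈ VL l δ (m + Finsupp.degree γ) ⊔ SR Φ (m + Finsupp.degree γ) := by
  induction γ using Finsupp.induction_linear with
  | zero =>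
    intro m v hv
    simpa [umon_zero] using hv
  | add f g hf hg =>
    intro m v hv
    have h1 := hf _ _ (hg m v hv)
    have h2 : (fun j => umon K (f + g) * v j) = (fun j => umon K f * (umon K g * v j)) := by
      funext j
      rw [umon_add]
      ring
    have h3 : m + Finsupp.degree (f + g) = m + Finsupp.degree g + Finsupp.degree f := by
      rw [map_add]
      omega
    rw [h2, h3]
    exact h1
  | single a n =>
    induction n with
    | zero =>
      intro m v hv
      simpa [umon_zero] using hv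
    | succ n ih =>
      intro m v hv
      have h1 := W_u Φ l δ (ih m v hv) a
      have h2 : (fun j => umon K (Finsupp.single a (n + 1)) * v j) =
          (fun j => MvPolynomial.X (iu a) * (umon K (Finsupp.single a n) * v j)) := by
        funext j
        rw [Finsupp.single_add, umon_add, umon_single]
        ring
      have h3 : m + Finsupp.degree (Finsupp.single a (n + 1)) = m + Finsupp.degree (Finsupp.single a n) + 1 := by
        rw [Finsupp.degree_single, Finsupp.degree_single]
        omega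
      rw [h2, h3]
      exact h1

private theorem W_Y (Φ : Fin 4 → P K r) (hΦ : ∀ j, (Φ j).IsHomogeneous 2) {ι : Type} (l : ι → Fin 4 → P K r) (δ : ι → ℕ)
    (h2 : ∀ (i : Fin 3) (g : ι), (fun j => Φ i.castSucc * l g j) ∈ VL l δ (δ g + 2) ⊔ SR Φ (δ g + 2))
    {m : ℕ} {v : Fin 4 → P K r} (hv : v ∈ VL l δ m ⊔ SR Φ m) (i : Fin 3) :
    (fun j => Φ i.castSucc * v j) ∈ VL l δ (m + 2) ⊔ SR Φ (m + 2) := by
  obtain ⟨p, hp, q, hq, rfl⟩ := Submodule.mem_sup.1 hv
  have h1 : VL l δ m ≤ (VL l δ (m + 2) ⊔ SR Φ (m + 2)).comap (mulL (Φ i.castSucc)) := by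
    refine Submodule.span_le.2 ?_
    rintro w ⟨g, γ, hg, rfl⟩
    have h3 := W_umon Φ l δ γ _ _ (h2 i g)
    have h4 : δ g + 2 + Finsupp.degree γ = m + 2 := by omega
    rw [h4] at h3
    have h5 : mulL (Φ i.castSucc) (fun j => umon K γ * l g j) = (fun j => umon K γ * (Φ i.castSucc * l g j)) := by
      funext j
      simp only [mulL, LinearMap.coe_mk, AddHom.coe_mk]
      ring
    show mulL (Φ i.castSucc) (fun j => umon K γ * l g j) ∈ VL l δ (m + 2) ⊔ SR Φ (m + 2)
    rw [h5]
    exact h3
  have h3 := h1 hp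
  have h4 := SR_Y Φ hΦ hq i.castSucc
  have h5 : (fun j => Φ i.castSucc * (p + q) j) =
      (fun j => Φ i.castSucc * p j) + (fun j => Φ i.castSucc * q j) := by
    funext j
    simp [mul_add]
  rw [h5]
  exact Submodule.add_mem _ h3 (Submodule.mem_sup_right h4)

private theorem ix_iu (i : Fin 3) (a : Fin r) : ix i ≠ iu a := by
  intro h
  have h1 := congrArg Fin.val h
  simp only [ix, iu, Fin.val_castLE, Fin.val_succ] at h1
  have := i.2
  omega

private theorem ix_inj {i i' : Fin 3} (h : (ix i : Fin (r + 3)) = ix i') : i = i' := by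
  have h1 := congrArg Fin.val h
  simp only [ix, Fin.val_castLE] at h1
  exact Fin.ext h1

private theorem iu_inj : Function.Injective (iu : Fin r → Fin (r + 3)) := by
  intro a b h
  have h1 := congrArg Fin.val h
  simp only [iu, Fin.val_succ] at h1
  exact Fin.ext (by omega)

private theorem cases_idx (k : Fin (r + 3)) : (∃ i : Fin 3, k = ix i) ∨ ∃ a : Fin r, k = iu a := by
  by_cases h : (k : ℕ) < 3
  · exact Or.inl ⟨⟨k, h⟩, Fin.ext rfl⟩
  · refine Or.inr ⟨⟨(k : ℕ) - 3, by have := k.2; omega⟩, Fin.ext ?_⟩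
    simp only [iu, Fin.val_succ]
    omega

private theorem split (α : Fin (r + 3) →₀ ℕ) :
    ∃ γ : Fin r →₀ ℕ, α = γ.mapDomain iu + (Finsupp.single (ix 0) (α (ix 0)) + Finsupp.single (ix 1) (α (ix 1)) +
      Finsupp.single (ix 2) (α (ix 2))) := by
  refine ⟨Finsupp.comapDomain iu α iu_inj.injOn, ?_⟩
  ext k
  rcases cases_idx k with ⟨i, rfl⟩ | ⟨a, rfl⟩
  · have h1 : (Finsupp.mapDomain iu (Finsupp.comapDomain iu α iu_inj.injOn)) (ix i) = 0 := by
      refine Finsupp.mapDomain_notin_range _ _ ?_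
      rintro ⟨a, ha⟩
      exact ix_iu i a ha.symm
    rw [Finsupp.add_apply, h1]
    simp only [Finsupp.add_apply, Finsupp.single_apply]
    have hne : ∀ i' : Fin 3, (ix i' = (ix i : Fin (r + 3))) ↔ i' = i := fun i' => ⟨ix_inj, fun h => by rw [h]⟩
    simp only [hne]
    fin_cases i <;> simp
  · rw [Finsupp.add_apply, Finsupp.mapDomain_apply iu_inj]
    simp only [Finsupp.add_apply, Finsupp.single_apply, if_neg (ix_iu _ a), Finsupp.comapDomain_apply]
    simp

private theorem degmap (γ : Fin r →₀ ℕ) : Finsupp.degree (γ.mapDomain (iu : Fin r → Fin (r + 3))) = Finsupp.degree γ := by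
  induction γ using Finsupp.induction_linear with
  | zero => simp
  | add f g hf hg => rw [Finsupp.mapDomain_add, map_add, map_add, hf, hg]
  | single i n => simp [Finsupp.mapDomain_single]

private theorem mono_mem (Φ : Fin 4 → P K r) (hΦ : ∀ j, (Φ j).IsHomogeneous 2)
    (c : Fin 3 → Fin r → Fin 3 → K) (q : Fin 3 → Fin 2 → K) (hq : ∀ t, q 0 t = 0)
    (hc : ∀ i : Fin 3, Φ i.castSucc = MvPolynomial.X (ix i) ^ 2 +
      MvPolynomial.X (ix 0) * (MvPolynomial.C (q i 0) * MvPolynomial.X (ix 1) + MvPolynomial.C (q i 1) * MvPolynomial.X (ix 2)) +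
      ∑ a, ∑ l, MvPolynomial.C (c i a l) * MvPolynomial.X (iu a) * MvPolynomial.X (ix l))
    {ι : Type} (l : ι → Fin 4 → P K r) (δ : ι → ℕ)
    (h1 : ∀ a b c : ℕ, a ≤ 1 → b ≤ 1 → c ≤ 1 → 1 ≤ a + b + c → ∀ j₀ : Fin 4,
      xe K a b c j₀ ∈ VL l δ (a + b + c) ⊔ SR Φ (a + b + c))
    (h2 : ∀ (i : Fin 3) (g : ι), (fun j => Φ i.castSucc * l g j) ∈ VL l δ (δ g + 2) ⊔ SR Φ (δ g + 2))
    (m : ℕ) (ih : ∀ n < m, ∀ v : Fin 4 → P K r, (∀ j, (v j).IsHomogeneous n) → v ∈ VL l δ n ⊔ SR Φ n)
    (α : Fin (r + 3) →₀ ℕ) (hα : Finsupp.degree α = m) (j₀ : Fin 4)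
    (ihx : ∀ β : Fin (r + 3) →₀ ℕ, Finsupp.degree β = m → α (ix 0) < β (ix 0) →
      (fun j => if j = j₀ then MvPolynomial.monomial β (1 : K) else 0) ∈ VL l δ m ⊔ SR Φ m) :
    (fun j => if j = j₀ then MvPolynomial.monomial α (1 : K) else 0) ∈ VL l δ m ⊔ SR Φ m := by
  by_cases hcase : ∃ i : Fin 3, 2 ≤ α (ix i)
  · obtain ⟨i, hi⟩ := hcase
    obtain ⟨α', hα'⟩ : ∃ α', α = α' + Finsupp.single (ix i) 2 := by
      refine ⟨α - Finsupp.single (ix i) 2, ?_⟩
      rw [tsub_add_cancel_of_le]
      rw [Finsupp.single_le_iff]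
      exact hi
    have hdeg : Finsupp.degree α' + 2 = m := by
      rw [← hα, hα', map_add, Finsupp.degree_single]
    have e1 : (MvPolynomial.monomial α (1 : K) : P K r) = MvPolynomial.X (ix i) ^ 2 * MvPolynomial.monomial α' 1 := by
      rw [hα', MvPolynomial.X_pow_eq_monomial, MvPolynomial.monomial_mul, one_mul,
        add_comm (Finsupp.single (ix i) 2) α']
    have e2 : (MvPolynomial.X (ix i) ^ 2 : P K r) = Φ i.castSucc -
        MvPolynomial.X (ix 0) * (MvPolynomial.C (q i 0) * MvPolynomial.X (ix 1) + MvPolynomial.C (q i 1) * MvPolynomial.X (ix 2)) -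
        ∑ a, ∑ l, MvPolynomial.C (c i a l) * MvPolynomial.X (iu a) * MvPolynomial.X (ix l) := by
      rw [hc i]
      ring
    set mv : Fin 4 → P K r := fun j => if j = j₀ then MvPolynomial.monomial α' (1 : K) else 0 with hmv
    have hmvh : ∀ j, (mv j).IsHomogeneous (Finsupp.degree α') := by
      intro j
      simp only [hmv]
      split_ifs
      · exact MvPolynomial.isHomogeneous_monomial _ rfl
      · exact MvPolynomial.isHomogeneous_zero _ _ _
    have e3 : (fun j => if j = j₀ then MvPolynomial.monomial α (1 : K) else 0) =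
        (fun j => Φ i.castSucc * mv j) -
          (q i 0 • (fun j => MvPolynomial.X (ix 0) * MvPolynomial.X (ix 1) * mv j) +
            q i 1 • (fun j => MvPolynomial.X (ix 0) * MvPolynomial.X (ix 2) * mv j)) -
          ∑ a, ∑ l', c i a l' • (fun j => MvPolynomial.X (iu a) * (MvPolynomial.X (ix l') * mv j)) := by
      funext j
      rw [Pi.sub_apply, Pi.sub_apply, Pi.add_apply, Finset.sum_apply]
      simp only [Finset.sum_apply, Pi.smul_apply, hmv]
      by_cases hj : j = j₀
      · simp only [hj, if_true]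
        rw [e1, e2, sub_mul, sub_mul, Finset.sum_mul]
        congr 1
        · rw [MvPolynomial.smul_eq_C_mul, MvPolynomial.smul_eq_C_mul]
          ring
        refine Finset.sum_congr rfl fun a _ => ?_
        rw [Finset.sum_mul]
        refine Finset.sum_congr rfl fun l' _ => ?_
        rw [MvPolynomial.smul_eq_C_mul]
        ring
      · simp [hj]
    have hx : ∀ t : Fin 2, q i t • (fun j => MvPolynomial.X (ix 0) * MvPolynomial.X (ix t.succ) * mv j) ∈ VL l δ m ⊔ SR Φ m := by
      intro t
      by_cases hi0 : i = 0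
      · rw [hi0, hq t, zero_smul]
        exact Submodule.zero_mem _
      · refine Submodule.smul_mem _ _ ?_
        have h3 := ihx (α' + (Finsupp.single (ix 0) 1 + Finsupp.single (ix t.succ) 1)) (by
          rw [map_add, map_add, Finsupp.degree_single, Finsupp.degree_single]; omega) (by
          have h4 : (ix i : Fin (r + 3)) ≠ ix 0 := fun h => hi0 (ix_inj h)
          rw [hα', Finsupp.add_apply, Finsupp.add_apply, Finsupp.add_apply, Finsupp.single_apply, if_neg h4, Finsupp.single_apply,
            if_pos rfl]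
          omega)
        have h4 : (fun j => if j = j₀ then MvPolynomial.monomial (α' + (Finsupp.single (ix 0) 1 + Finsupp.single (ix t.succ) 1)) (1 : K) else 0) =
            (fun j => MvPolynomial.X (ix 0) * MvPolynomial.X (ix t.succ) * mv j) := by
          funext j
          simp only [hmv]
          split_ifs
          · rw [MvPolynomial.X, MvPolynomial.X, MvPolynomial.monomial_mul, MvPolynomial.monomial_mul, one_mul, one_mul,
              add_comm α']
          · rw [mul_zero]
        rwa [h4] at h3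
    rw [e3]
    refine Submodule.sub_mem _ (Submodule.sub_mem _ ?_ (Submodule.add_mem _ (hx 0) (hx 1)))
      (Submodule.sum_mem _ fun a _ => Submodule.sum_mem _ fun l' _ => Submodule.smul_mem _ _ ?_)
    · have h3 := W_Y Φ hΦ l δ h2 (ih _ (by omega) mv hmvh) i
      rw [hdeg] at h3
      exact h3
    · have h4 : (fun j => MvPolynomial.X (ix l') * mv j) ∈ VL l δ (Finsupp.degree α' + 1) ⊔ SR Φ (Finsupp.degree α' + 1) := by
        refine ih _ (by omega) _ fun j => ?_
        have h5 := (MvPolynomial.isHomogeneous_X K (ix l' : Fin (r + 3))).mul (hmvh j)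
        rwa [add_comm 1] at h5
      have h5 := W_u Φ l δ h4 a
      have h6 : Finsupp.degree α' + 1 + 1 = m := by omega
      rw [h6] at h5
      exact h5
  · push_neg at hcase
    obtain ⟨γ, hγ⟩ := split α
    set a := α (ix 0) with ha
    set b := α (ix 1) with hb
    set d := α (ix 2) with hd
    have ha1 : a ≤ 1 := by have := hcase 0; omega
    have hb1 : b ≤ 1 := by have := hcase 1; omega
    have hd1 : d ≤ 1 := by have := hcase 2; omega
    have hxe : (xe K a b d j₀ : Fin 4 → P K r) ∈ VL l δ (a + b + d) ⊔ SR Φ (a + b + d) := by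
      rcases Nat.eq_zero_or_pos (a + b + d) with h0 | h0
      · have ha0 : a = 0 := by omega
        have hb0 : b = 0 := by omega
        have hd0 : d = 0 := by omega
        rw [ha0, hb0, hd0]
        exact Submodule.mem_sup_right (xe_zero_mem Φ j₀)
      · exact h1 a b d ha1 hb1 hd1 h0 j₀
    have h3 := W_umon Φ l δ γ _ _ hxe
    have hdeg : a + b + d + Finsupp.degree γ = m := by
      rw [← hα, hγ, map_add, map_add, map_add, Finsupp.degree_single, Finsupp.degree_single, Finsupp.degree_single, degmap]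
      omega
    rw [hdeg] at h3
    have e1 : (fun j => if j = j₀ then MvPolynomial.monomial α (1 : K) else 0) = (fun j => umon K γ * xe K a b d j₀ j) := by
      funext j
      simp only [xe]
      split_ifs
      · rw [hγ, umon, MvPolynomial.X_pow_eq_monomial, MvPolynomial.X_pow_eq_monomial, MvPolynomial.X_pow_eq_monomial,
          MvPolynomial.monomial_mul, MvPolynomial.monomial_mul, MvPolynomial.monomial_mul]
        simp
      · simp
    rw [e1]
    exact h3

theorem gen_all (Φ : Fin 4 → P K r) (hΦ : ∀ j, (Φ j).IsHomogeneous 2)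
    (c : Fin 3 → Fin r → Fin 3 → K) (q : Fin 3 → Fin 2 → K) (hq : ∀ t, q 0 t = 0)
    (hc : ∀ i : Fin 3, Φ i.castSucc = MvPolynomial.X (ix i) ^ 2 +
      MvPolynomial.X (ix 0) * (MvPolynomial.C (q i 0) * MvPolynomial.X (ix 1) + MvPolynomial.C (q i 1) * MvPolynomial.X (ix 2)) +
      ∑ a, ∑ l, MvPolynomial.C (c i a l) * MvPolynomial.X (iu a) * MvPolynomial.X (ix l))
    {ι : Type} (l : ι → Fin 4 → P K r) (δ : ι → ℕ)
    (h1 : ∀ a b c : ℕ, a ≤ 1 → b ≤ 1 → c ≤ 1 → 1 ≤ a + b + c → ∀ j₀ : Fin 4,
      xe K a b c j₀ ∈ VL l δ (a + b + c) ⊔ SR Φ (a + b + c))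
    (h2 : ∀ (i : Fin 3) (g : ι), (fun j => Φ i.castSucc * l g j) ∈ VL l δ (δ g + 2) ⊔ SR Φ (δ g + 2))
    (m : ℕ) (v : Fin 4 → P K r) (hv : ∀ j, (v j).IsHomogeneous m) : v ∈ VL l δ m ⊔ SR Φ m := by
  induction m using Nat.strong_induction_on generalizing v with
  | _ m ih =>
    have e : v = ∑ j₀ : Fin 4, ∑ α ∈ (v j₀).support, MvPolynomial.coeff α (v j₀) •
        (fun j => if j = j₀ then MvPolynomial.monomial α (1 : K) else 0) := by
      funext j
      rw [Finset.sum_apply]
      rw [Finset.sum_eq_single j]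
      · rw [Finset.sum_apply]
        conv_lhs => rw [← MvPolynomial.support_sum_monomial_coeff (v j)]
        refine Finset.sum_congr rfl fun α _ => ?_
        simp only [Pi.smul_apply, if_true, MvPolynomial.smul_monomial, smul_eq_mul, mul_one]
      · intro j' _ hj'
        rw [Finset.sum_apply]
        refine Finset.sum_eq_zero fun α _ => ?_
        simp only [Pi.smul_apply, if_neg hj'.symm, smul_zero]
      · intro h
        exact absurd (Finset.mem_univ j) h
    rw [e]
    refine Submodule.sum_mem _ fun j₀ _ => Submodule.sum_mem _ fun α hα => Submodule.smul_mem _ _ ?_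
    have h3 := hv j₀ (MvPolynomial.mem_support_iff.1 hα)
    have hd : Finsupp.degree α = m := by
      rw [Finsupp.degree_eq_weight_one]
      exact h3
    have hall : ∀ (n : ℕ) (α : Fin (r + 3) →₀ ℕ), Finsupp.degree α = m → m - α (ix 0) = n →
        (fun j => if j = j₀ then MvPolynomial.monomial α (1 : K) else 0) ∈ VL l δ m ⊔ SR Φ m := by
      intro n
      induction n using Nat.strong_induction_on with
      | _ n ihn =>
        intro α hα hn
        refine mono_mem Φ hΦ c q hq hc l δ h1 h2 m ih α hα j₀ fun β hβ hlt => ?_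
        have hle : β (ix 0) ≤ m := by
          rw [← hβ]; exact Finsupp.le_degree _ _
        exact ihn (m - β (ix 0)) (by omega) β hβ rfl
    exact hall _ α hd rfl

end Pool.Agent.LibGF7
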