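import Pool.Agent.LibGF7.A2

set_option autoImplicit false

/-! ROW GF7 A2b (SHORT; cites gen_all of A2).
PLAN. van_of_nil: gen_all, and VL l δ m ≤ SR Φ m for m ≥ N by h3 (Submodule.span_le, sup_le).
gr: `v ∈ ⨆ n, SR Φ n`, `v` homogeneous of degree `m`: apply the linear map `v ↦ (MvPolynomial.homogeneousComponent m (v j))_j`: it maps SR Φ n to 0 for
n ≠ m and is the identity on SR Φ m (SR_hom) and on `v`; so it maps ⨆ n, SR Φ n into SR Φ m (Submodule.iSup_induction or Submodule.map_iSup). -/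

namespace Pool.Agent.LibGF7

variable {K : Type} [CommRing K] {r : ℕ}

theorem van_of_nil (Φ : Fin 4 → P K r) (hΦ : ∀ j, (Φ j).IsHomogeneous 2)
    (c : Fin 3 → Fin r → Fin 3 → K) (q : Fin 3 → Fin 2 → K) (hq : ∀ t, q 0 t = 0)
    (hc : ∀ i : Fin 3, Φ i.castSucc = MvPolynomial.X (ix i) ^ 2 +
      MvPolynomial.X (ix 0) * (MvPolynomial.C (q i 0) * MvPolynomial.X (ix 1) + MvPolynomial.C (q i 1) * MvPolynomial.X (ix 2)) +
      ∑ a, ∑ l, MvPolynomial.C (c i a l) * MvPolynomial.X (iu a) * MvPolynomial.X (ix l))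
    {ι : Type} (l : ι → Fin 4 → P K r) (δ : ι → ℕ)
    (h1 : ∀ a b c : ℕ, a ≤ 1 → b ≤ 1 → c ≤ 1 → 1 ≤ a + b + c → ∀ j₀ : Fin 4,
      xe K a b c j₀ ∈ VL l δ (a + b + c) ⊔ SR Φ (a + b + c))
    (h2 : ∀ (i : Fin 3) (g : ι), (fun j => Φ i.castSucc * l g j) ∈ VL l δ (δ g + 2) ⊔ SR Φ (δ g + 2))
    (N : ℕ) (h3 : ∀ (g : ι) (γ : Fin r →₀ ℕ), N ≤ Finsupp.degree γ + δ g →
      (fun j => umon K γ * l g j) ∈ SR Φ (Finsupp.degree γ + δ g))
    (m : ℕ) (hm : N ≤ m) : VanAt Φ m := by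
  intro v hv
  have h := gen_all Φ hΦ c q hq hc l δ h1 h2 m v hv
  have hle : VL l δ m ⊔ SR Φ m ≤ SR Φ m := by
    refine sup_le ?_ le_rfl
    refine Submodule.span_le.2 ?_
    rintro w ⟨g, γ, hd, rfl⟩
    subst hd
    exact h3 g γ hm
  exact hle h

theorem gr (Φ : Fin 4 → P K r) (hΦ : ∀ j, (Φ j).IsHomogeneous 2) (m : ℕ) (v : Fin 4 → P K r) (hv : ∀ j, (v j).IsHomogeneous m)
    (h : v ∈ ⨆ n, SR Φ n) : v ∈ SR Φ m := by
  set H : (Fin 4 → P K r) →ₗ[K] (Fin 4 → P K r) :=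
    LinearMap.pi fun j => (MvPolynomial.homogeneousComponent m).comp (LinearMap.proj j) with hH
  have hHa : ∀ w j, H w j = MvPolynomial.homogeneousComponent m (w j) := fun w j => rfl
  have key : ∀ w, w ∈ ⨆ n, SR Φ n → H w ∈ SR Φ m := by
    intro w hw
    refine Submodule.iSup_induction (SR Φ) (motive := fun w => H w ∈ SR Φ m) hw ?_ ?_ ?_
    · intro n w hw
      by_cases hnm : m = n
      · subst hnm
        have : H w = w := by
          funext j
          rw [hHa, MvPolynomial.homogeneousComponent_of_mem (SR_hom Φ hΦ hw j), if_pos rfl]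
        rw [this]; exact hw
      · have : H w = 0 := by
          funext j
          rw [hHa, MvPolynomial.homogeneousComponent_of_mem (SR_hom Φ hΦ hw j), if_neg hnm]
          rfl
        rw [this]; exact Submodule.zero_mem _
    · rw [map_zero]; exact Submodule.zero_mem _
    · intro x y hx hy
      rw [map_add]; exact Submodule.add_mem _ hx hy
  have hv' : H v = v := by
    funext j
    rw [hHa, MvPolynomial.homogeneousComponent_of_mem (hv j), if_pos rfl]
  rw [← hv']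
  exact key v h

end Pool.Agent.LibGF7
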