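import Pool.Agent.LibGF7.A1b

set_option autoImplicit false

/-! ROW GF7 B1 (MEDIUM, pure algebra). Vanishing modulo a prime implies vanishing in characteristic zero, degree by degree.
PLAN. Let `H` be the ℤ-module of the vectors with homogeneous components of degree `m` (Submodule.pi of MvPolynomial.homogeneousSubmodule; finitely
generated: spanned by the finitely many monomial vectors of degree `m`), `S = SR Φ m ≤ H` (SR_hom).
modp_step: `H ≤ S ⊔ p • H`: for `v ∈ H` the reduction cg (ZMod p) v is in SR (cg (ZMod p) Φ) m, a ZMod p-combination of the reductions of generators;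
lift the coefficients to ℤ (ZMod.intCast_surjective; Submodule.span_induction: for every element of SR (cg (ZMod p) Φ) m there is a lift in SR Φ m):
`v - w` is zero mod p, so `p` times an integer vector, which is homogeneous of degree `m`.
Nakayama (Submodule.exists_sub_one_mem_and_smul_eq_zero_of_fg_of_le_smul for the finitely generated module H / S and the ideal (p)): an integer
`n ≡ 1 mod p` with `n H ≤ S`; `n ≠ 0`. Then over `k`: a vector homogeneous of degree `m` is a `k`-combination of monomial vectors `cg k (monomial vector)`,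
and `monomial vector = (1/n) cg k (n • monomial vector) ∈ SR (cg k Φ) m` by SR_cg. -/

namespace Pool.Agent.LibGF7

open MvPolynomial

private theorem B1_map_fb {K K' : Type} [CommRing K] [CommRing K'] [Algebra K K'] {r : ℕ} (Φ : Fin 4 → P K r)
    (β : Fin (r + 4) →₀ ℕ) : fb (cg K' Φ) β = MvPolynomial.map (algebraMap K K') (fb Φ β) := by
  unfold fb
  rw [Finsupp.prod, Finsupp.prod, map_prod]
  refine Finset.prod_congr rfl fun j _ => ?_
  rw [map_pow]
  congr 1
  refine Fin.cases ?_ (fun j => ?_) j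
  · rfl
  refine Fin.cases ?_ (fun j => ?_) j
  · rfl
  refine Fin.cases ?_ (fun j => ?_) j
  · rfl
  refine Fin.cases ?_ (fun j => ?_) j
  · rfl
  · exact (MvPolynomial.map_X _ _).symm

private theorem B1_cg_add {K K' : Type} [CommRing K] [CommRing K'] [Algebra K K'] {r : ℕ} (v w : Fin 4 → P K r) :
    cg K' (v + w) = cg K' v + cg K' w := by
  funext j
  simp [cg]

private theorem B1_cg_sub {K K' : Type} [CommRing K] [CommRing K'] [Algebra K K'] {r : ℕ} (v w : Fin 4 → P K r) :
    cg K' (v - w) = cg K' v - cg K' w := by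
  funext j
  simp [cg]

private theorem B1_cg_smul {K K' : Type} [CommRing K] [CommRing K'] [Algebra K K'] {r : ℕ} (c : K) (v : Fin 4 → P K r) :
    cg K' (c • v) = algebraMap K K' c • cg K' v := by
  funext j
  show MvPolynomial.map (algebraMap K K') (c • v j) = algebraMap K K' c • MvPolynomial.map (algebraMap K K') (v j)
  rw [MvPolynomial.smul_eq_C_mul, MvPolynomial.smul_eq_C_mul, map_mul, MvPolynomial.map_C]

private theorem B1_lift {r : ℕ} (Φ : Fin 4 → P ℤ r) (p : ℕ) (m : ℕ) (x : Fin 4 → P (ZMod p) r)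
    (hx : x ∈ SR (cg (ZMod p) Φ) m) : ∃ s ∈ SR Φ m, cg (ZMod p) s = x := by
  unfold SR at hx
  induction hx using Submodule.span_induction with
  | mem x hx =>
    rcases hx with (⟨i, α, h1, rfl⟩ | ⟨j₀, β, h1, rfl⟩) | ⟨a, β, h1, rfl⟩
    · refine ⟨gX Φ i α, Submodule.subset_span (Or.inl (Or.inl ⟨i, α, h1, rfl⟩)), ?_⟩
      funext j
      simp [gX, cg, MvPolynomial.pderiv_map]
    · refine ⟨gY Φ j₀ β, Submodule.subset_span (Or.inl (Or.inr ⟨j₀, β, h1, rfl⟩)), ?_⟩
      funext j
      unfold gY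
      rw [B1_map_fb]
      show MvPolynomial.map _ (if j = j₀ then fb Φ β else 0) = _
      split_ifs
      · rfl
      · exact map_zero _
    · refine ⟨gU Φ a β, Submodule.subset_span (Or.inr ⟨a, β, h1, rfl⟩), ?_⟩
      funext j
      unfold gU
      rw [B1_map_fb]
      simp [cg, MvPolynomial.pderiv_map]
  | zero =>
    refine ⟨0, Submodule.zero_mem _, ?_⟩
    funext j
    simp [cg]
  | add x y _ _ h1 h2 =>
    obtain ⟨s, hs, rfl⟩ := h1
    obtain ⟨s', hs', rfl⟩ := h2
    exact ⟨s + s', Submodule.add_mem _ hs hs', B1_cg_add _ _⟩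
  | smul a x _ h1 =>
    obtain ⟨s, hs, rfl⟩ := h1
    obtain ⟨z, rfl⟩ := ZMod.intCast_surjective a
    refine ⟨z • s, Submodule.smul_mem _ z hs, ?_⟩
    rw [B1_cg_smul]
    rfl

private noncomputable def B1_incl (r m : ℕ) :
    (Fin 4 → MvPolynomial.homogeneousSubmodule (Fin (r + 3)) ℤ m) →ₗ[ℤ] (Fin 4 → P ℤ r) :=
  LinearMap.pi fun j => (MvPolynomial.homogeneousSubmodule (Fin (r + 3)) ℤ m).subtype ∘ₗ LinearMap.proj j

private theorem B1_mem_range {r m : ℕ} (v : Fin 4 → P ℤ r) :
    v ∈ LinearMap.range (B1_incl r m) ↔ ∀ j, (v j).IsHomogeneous m := by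
  constructor
  · rintro ⟨x, rfl⟩ j
    exact (x j).2
  · intro h
    exact ⟨fun j => ⟨v j, h j⟩, rfl⟩

private theorem B1_fg (r m : ℕ) : (LinearMap.range (B1_incl r m)).FG := by
  have : Module.Finite ℤ (MvPolynomial.homogeneousSubmodule (Fin (r + 3)) ℤ m) :=
    Module.Finite.iff_fg.2 (MvPolynomial.homogeneousSubmodule_fg (Fin (r + 3)) ℤ m)
  exact Module.Finite.iff_fg.1 (Module.Finite.range (B1_incl r m))

private theorem B1_step {r : ℕ} (Φ : Fin 4 → P ℤ r) (hΦ : ∀ j, (Φ j).IsHomogeneous 2) (p : ℕ) [Fact p.Prime] (m : ℕ)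
    (h : VanAt (cg (ZMod p) Φ) m) (v : Fin 4 → P ℤ r) (hv : ∀ j, (v j).IsHomogeneous m) :
    ∃ s ∈ SR Φ m, ∃ u : Fin 4 → P ℤ r, (∀ j, (u j).IsHomogeneous m) ∧ v = s + (p : ℤ) • u := by
  obtain ⟨s, hs, h1⟩ := B1_lift Φ p m _ (h (cg (ZMod p) v) fun j => (hv j).map _)
  have h2 : ∀ j, ∃ u : P ℤ r, v j - s j = C (p : ℤ) * u := by
    intro j
    have h3 : C (p : ℤ) ∣ v j - s j := by
      rw [MvPolynomial.C_dvd_iff_zmod, map_sub]
      have h4 := congrFun h1 j
      rw [sub_eq_zero]
      exact h4.symm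
    exact h3
  choose u hu using h2
  have hp : (p : ℤ) ≠ 0 := by
    exact_mod_cast (Fact.out : p.Prime).ne_zero
  refine ⟨s, hs, u, fun j => ?_, ?_⟩
  · intro d hd
    have h5 : ((v j - s j)).IsHomogeneous m := (hv j).sub (SR_hom Φ hΦ hs j)
    apply h5
    rw [hu j, MvPolynomial.coeff_C_mul]
    exact mul_ne_zero hp hd
  · funext j
    have h6 := hu j
    show v j = s j + (p : ℤ) • u j
    rw [MvPolynomial.smul_eq_C_mul, ← h6]
    ring

theorem modp_int {r : ℕ} (Φ : Fin 4 → P ℤ r) (hΦ : ∀ j, (Φ j).IsHomogeneous 2) (p : ℕ) [Fact p.Prime] (m : ℕ)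
    (h : VanAt (cg (ZMod p) Φ) m) :
    ∃ n : ℤ, n ≠ 0 ∧ ∀ v : Fin 4 → P ℤ r, (∀ j, (v j).IsHomogeneous m) → n • v ∈ SR Φ m := by
  have hN : (LinearMap.range (B1_incl r m)).map (SR Φ m).mkQ ≤
      Ideal.span {(p : ℤ)} • (LinearMap.range (B1_incl r m)).map (SR Φ m).mkQ := by
    rintro _ ⟨v, hv, rfl⟩
    obtain ⟨s, hs, u, hu, rfl⟩ := B1_step Φ hΦ p m h v ((B1_mem_range v).1 hv)
    have e : (SR Φ m).mkQ (s + (p : ℤ) • u) = (p : ℤ) • (SR Φ m).mkQ u := by
      rw [map_add, map_smul, (Submodule.Quotient.mk_eq_zero _).2 hs |> fun e => (show (SR Φ m).mkQ s = 0 from e), zero_add]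
    rw [e]
    exact Submodule.smul_mem_smul (Ideal.mem_span_singleton_self _)
      (Submodule.mem_map_of_mem ((B1_mem_range u).2 hu))
  obtain ⟨n, hn, hn2⟩ := Submodule.exists_sub_one_mem_and_smul_eq_zero_of_fg_of_le_smul _ _ ((B1_fg r m).map _) hN
  refine ⟨n, ?_, fun v hv => ?_⟩
  · rintro rfl
    rw [Ideal.mem_span_singleton, zero_sub, Int.dvd_neg] at hn
    have h1 : p ∣ 1 := by exact_mod_cast hn
    exact (Fact.out : p.Prime).one_lt.ne' (Nat.dvd_one.1 h1)
  · have h1 := hn2 _ (Submodule.mem_map_of_mem ((B1_mem_range v).2 hv))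
    rw [← map_smul] at h1
    exact (Submodule.Quotient.mk_eq_zero _).1 h1

theorem modp {r : ℕ} (Φ : Fin 4 → P ℤ r) (hΦ : ∀ j, (Φ j).IsHomogeneous 2) (p : ℕ) [Fact p.Prime] (m : ℕ)
    (h : VanAt (cg (ZMod p) Φ) m) (k : Type) [Field k] [CharZero k] : VanAt (cg k Φ) m := by
  obtain ⟨n, hn0, hn⟩ := modp_int Φ hΦ p m h
  have key : ∀ (j : Fin 4) (e : Fin (r + 3) →₀ ℕ), Finsupp.degree e = m →
      (Pi.single j (monomial e (1 : k)) : Fin 4 → P k r) ∈ SR (cg k Φ) m := by
    intro j e he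
    have h1 := hn (Pi.single j (monomial e (1 : ℤ))) (by
      intro j'
      by_cases hj : j' = j
      · subst hj
        rw [Pi.single_eq_same]
        exact MvPolynomial.isHomogeneous_monomial _ he
      · rw [Pi.single_eq_of_ne hj]
        exact MvPolynomial.isHomogeneous_zero _ _ _)
    have h2 := SR_cg (K' := k) Φ h1
    rw [B1_cg_smul] at h2
    have h3 : cg k (Pi.single j (monomial e (1 : ℤ)) : Fin 4 → P ℤ r) = Pi.single j (monomial e (1 : k)) := by
      funext j'
      unfold cg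
      by_cases hj : j' = j
      · subst hj
        rw [Pi.single_eq_same, Pi.single_eq_same, MvPolynomial.map_monomial, map_one]
      · rw [Pi.single_eq_of_ne hj, Pi.single_eq_of_ne hj, map_zero]
    rw [h3] at h2
    have h4 : algebraMap ℤ k n ≠ 0 := by
      rw [eq_intCast]
      exact_mod_cast hn0
    have h5 := Submodule.smul_mem _ (algebraMap ℤ k n)⁻¹ h2
    rwa [smul_smul, inv_mul_cancel₀ h4, one_smul] at h5
  intro v hv
  rw [← Finset.univ_sum_single v]
  refine Submodule.sum_mem _ fun j _ => ?_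
  have h6 : v j ∈ (SR (cg k Φ) m).comap (LinearMap.single k (fun _ : Fin 4 => P k r) j) := by
    rw [← MvPolynomial.support_sum_monomial_coeff (v j)]
    refine Submodule.sum_mem _ fun e he => ?_
    have h7 : monomial e (coeff e (v j)) = coeff e (v j) • (monomial e (1 : k) : P k r) := by
      rw [MvPolynomial.smul_monomial, smul_eq_mul, mul_one]
    rw [h7]
    refine Submodule.smul_mem _ _ ?_
    have h8 : Finsupp.degree e = m := by
      have h9 := hv j (MvPolynomial.mem_support_iff.1 he)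
      rw [Finsupp.degree_eq_weight_one]
      exact h9
    exact key j e h8
  exact h6

end Pool.Agent.LibGF7
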