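import Pool.Agent.LibGF7.C3

set_option autoImplicit false

/-! ROW GF7 C3b (SHORT/MEDIUM; cites red_of_van of C3, full_of_red of C2).
PLAN. U = {w : Fin (r+4) → MvPowerSeries | all coefficients of degree < N of all components vanish} is the kernel of a linear map into a finite dimensional
space ((Fin (r+4) × {e // degree e < N}) → k; {e | degree e < N} is finite), and U ≤ tS ⊔ tT: for w ∈ U the vector v j = w (jy j) - ∑ a, w (ju a) * ∂Φ_j/∂u_a has
no coefficients of degree < N either, so red_of_van and full_of_red apply (F0 k Φ has constant coefficients 0). So T1 is a quotient of a finite dimensional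
space: the quotient by U is finite dimensional (LinearMap.quotKerEquivRange) and maps onto T1 (Submodule.factor / mapQ, Module.Finite.of_surjective). -/

namespace Pool.Agent.LibGF7

open Pool.Agent.LibMX34

theorem t1_finite (k : Type) [Field k] {r : ℕ} (Φ : Fin 4 → P k r) (hΦ : ∀ j, (Φ j).IsHomogeneous 2) (N : ℕ)
    (hV : ∀ m, N ≤ m → VanAt Φ m) : Module.Finite k (T1 k (unf k (F0 k Φ))) := by
  classical
  set L : (Fin (r + 4) → MvPowerSeries (Fin (r + 3)) k) →ₗ[k] (Fin (r + 4) × {e : Fin (r + 3) →₀ ℕ // Finsupp.degree e < N} → k) :=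
    { toFun := fun w x => MvPowerSeries.coeff x.2.1 (w x.1)
      map_add' := fun w w' => by
        funext x
        simp only [Pi.add_apply, map_add]
      map_smul' := fun c w => by
        funext x
        simp only [Pi.smul_apply, RingHom.id_apply, map_smul] } with hL
  have hfin : Finite {e : Fin (r + 3) →₀ ℕ // Finsupp.degree e < N} := by
    have h1 : Set.Finite {e : Fin (r + 3) →₀ ℕ | Finsupp.degree e < N} := by
      refine Set.Finite.subset (s := {e : Fin (r + 3) →₀ ℕ | ∀ i, e i < N + 1}) ?_ ?_
      · have h2 : Set.Finite {g : Fin (r + 3) → ℕ | ∀ i, g i < N + 1} := by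
          have : {g : Fin (r + 3) → ℕ | ∀ i, g i < N + 1} = Set.pi Set.univ fun _ => {m : ℕ | m < N + 1} := by
            ext g
            simp
          rw [this]
          exact Set.Finite.pi fun _ => Set.finite_lt_nat _
        exact Set.Finite.of_finite_image (f := fun e : Fin (r + 3) →₀ ℕ => (e : Fin (r + 3) → ℕ)) (h2.subset (by
          rintro _ ⟨e, he, rfl⟩
          exact he)) (fun _ _ _ _ hh => DFunLike.coe_injective hh)
      · intro e he i
        have hi : e i ≤ Finsupp.degree e := Finsupp.le_degree i e
        have he' : Finsupp.degree e < N := he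
        show e i < N + 1
        omega
    exact h1.to_subtype
  have := hfin
  have hker : LinearMap.ker L ≤ tangentSource k (unf k (F0 k Φ)) ⊔ tangentTarget k (unf k (F0 k Φ)) := by
    intro w hw
    have hw' : ∀ (j : Fin (r + 4)) (e : Fin (r + 3) →₀ ℕ), Finsupp.degree e < N → MvPowerSeries.coeff e (w j) = 0 := by
      intro j e he
      have := congrFun (LinearMap.mem_ker.mp hw) (j, ⟨e, he⟩)
      exact this
    have hv : ∀ (j : Fin 4) (e : Fin (r + 3) →₀ ℕ), Finsupp.degree e < N →
        MvPowerSeries.coeff e (w (jy j) - ∑ a, w (ju a) * MvPowerSeries.pderiv k (iu a) (F0 k Φ j)) = 0 := by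
      intro j e he
      rw [map_sub, map_sum, hw' _ e he, zero_sub, neg_eq_zero]
      refine Finset.sum_eq_zero fun a _ => ?_
      rw [MvPowerSeries.coeff_mul]
      refine Finset.sum_eq_zero fun x hx => ?_
      rw [hw' _ x.1 (lt_of_le_of_lt ?_ he), zero_mul]
      rw [← Finset.HasAntidiagonal.mem_antidiagonal.mp hx, map_add]
      exact Nat.le_add_right _ _
    obtain ⟨b, η, ζ, hb⟩ := red_of_van k Φ hΦ N hV _ hv
    have hc : ∀ j, MvPowerSeries.constantCoeff (F0 k Φ j) = 0 := by
      intro j
      change MvPowerSeries.coeff 0 ((Φ j : MvPolynomial (Fin (r + 3)) k) : MvPowerSeries (Fin (r + 3)) k) = 0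
      rw [MvPolynomial.coeff_coe]
      by_contra hne
      have := hΦ j hne
      simp at this
    exact full_of_red (F0 k Φ) hc w b η ζ hb
  have : Module.Finite k ((Fin (r + 4) → MvPowerSeries (Fin (r + 3)) k) ⧸ LinearMap.ker L) :=
    Module.Finite.equiv (LinearMap.quotKerEquivRange L).symm
  exact Module.Finite.of_surjective (Submodule.factor hker) (Submodule.factor_surjective hker)

end Pool.Agent.LibGF7
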