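import Pool.Agent.LibGF7.D

set_option autoImplicit false

/-! ROW GF7 Db (SHORT; cites not_mem of D).
PLAN. Apply not_mem over k to cg k Φ, cg k ψ, lam' j e = (lam j e : k), t' = map t. Lf S lam' (cg k v) = (Lf S lam v : k) (MvPolynomial.coeff_map), and
gX (cg k Φ) i α = cg k (gX Φ i α), gY, gU, fb likewise (MvPolynomial.map_monomial, pderiv_map, map of fb = fb of map; see also SR_cg in A1b), so h1, .., h4
follow from the integral ones, and h5 because ℤ → k is injective (char 0). Homogeneity: MvPolynomial.IsHomogeneous.map. -/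

namespace Pool.Agent.LibGF7

open Pool.Agent.LibMX34

section private_lemmas

private theorem unfP_cg (k : Type) [Field k] {r : ℕ} (Φ : Fin 4 → P ℤ r) (j : Fin (r + 4)) :
    unfP (cg k Φ) j = MvPolynomial.map (algebraMap ℤ k) (unfP Φ j) := by
  refine Fin.cases ?_ (fun j => ?_) j
  · simp only [unfP, cg, Fin.cons_succ, Fin.cons_zero]
  refine Fin.cases ?_ (fun j => ?_) j
  · simp only [unfP, cg, Fin.cons_succ, Fin.cons_zero]
  refine Fin.cases ?_ (fun j => ?_) j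
  · simp only [unfP, cg, Fin.cons_succ, Fin.cons_zero]
  refine Fin.cases ?_ (fun j => ?_) j
  · simp only [unfP, cg, Fin.cons_succ, Fin.cons_zero]
  · simp only [unfP, Fin.cons_succ, MvPolynomial.map_X]

private theorem fb_cg (k : Type) [Field k] {r : ℕ} (Φ : Fin 4 → P ℤ r) (β : Fin (r + 4) →₀ ℕ) :
    fb (cg k Φ) β = MvPolynomial.map (algebraMap ℤ k) (fb Φ β) := by
  simp only [fb, Finsupp.prod, map_prod, map_pow, unfP_cg]

private theorem Lf_cg (k : Type) [Field k] {r : ℕ} (S : Finset (Fin (r + 3) →₀ ℕ)) (lam : Fin 4 → (Fin (r + 3) →₀ ℕ) → ℤ)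
    (v : Fin 4 → P ℤ r) (w : Fin 4 → P k r) (h : ∀ j, w j = MvPolynomial.map (algebraMap ℤ k) (v j)) :
    Lf S (fun j e => algebraMap ℤ k (lam j e)) w = algebraMap ℤ k (Lf S lam v) := by
  simp only [Lf, map_sum, map_mul, h, MvPolynomial.coeff_map]

private theorem Lf_zero' (k : Type) [Field k] {r : ℕ} (S : Finset (Fin (r + 3) →₀ ℕ)) (lam : Fin 4 → (Fin (r + 3) →₀ ℕ) → ℤ)
    (v : Fin 4 → P ℤ r) (w : Fin 4 → P k r) (h : ∀ j, w j = MvPolynomial.map (algebraMap ℤ k) (v j)) (h0 : Lf S lam v = 0) :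
    Lf S (fun j e => algebraMap ℤ k (lam j e)) w = 0 := by
  rw [Lf_cg k S lam v w h, h0, map_zero]

end private_lemmas

theorem not_mem_int {r : ℕ} (Φ ψ : Fin 4 → P ℤ r) (hΦ : ∀ j, (Φ j).IsHomogeneous 2) (hψ : ∀ j, (ψ j).IsHomogeneous 1)
    (m : ℕ) (S : Finset (Fin (r + 3) →₀ ℕ)) (hS : ∀ e ∈ S, Finsupp.degree e = m) (lam : Fin 4 → (Fin (r + 3) →₀ ℕ) → ℤ)
    (h1 : ∀ i α, Finsupp.degree α + 1 = m → Lf S lam (gX Φ i α) = 0)
    (h2 : ∀ j₀ β, Finsupp.weight (wt r) β = m → Lf S lam (gY Φ j₀ β) = 0)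
    (h3 : ∀ a β, Finsupp.weight (wt r) β + 1 = m → Lf S lam (gU Φ a β) = 0)
    (h4 : ∀ β, Finsupp.weight (wt r) β + 1 = m → Lf S lam (fun j => fb Φ β * ψ j) = 0)
    (t : Fin (r + 4) → P ℤ r)
    (h5 : Lf S lam (fun j => t (jy j) - ∑ a, t (ju a) * MvPolynomial.pderiv (iu a) (Φ j)) ≠ 0)
    (k : Type) [Field k] [CharZero k] (c : MvPowerSeries (Fin (r + 4)) k) :
    (fun j => ((MvPolynomial.map (algebraMap ℤ k) (t j) : P k r) : MvPowerSeries (Fin (r + 3)) k) -
      MvPowerSeries.subst (unf k (F0 k (cg k Φ))) c * (padP (cg k ψ) j : MvPowerSeries (Fin (r + 3)) k)) ∉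
      tangentSource k (unf k (F0 k (cg k Φ))) ⊔ tangentTarget k (unf k (F0 k (cg k Φ))) := by
  refine not_mem k (cg k Φ) (cg k ψ) (fun j => (hΦ j).map _) (fun j => (hψ j).map _) m S hS
    (fun j e => algebraMap ℤ k (lam j e)) ?_ ?_ ?_ ?_ (fun j => MvPolynomial.map (algebraMap ℤ k) (t j)) ?_ c
  · intro i α hα
    exact Lf_zero' k S lam _ _ (fun j => by simp [gX, cg, MvPolynomial.pderiv_map]) (h1 i α hα)
  · intro j₀ β hβ
    exact Lf_zero' k S lam _ _ (fun j => by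
      by_cases hj : j = j₀
      · simp [gY, hj, fb_cg]
      · simp [gY, hj]) (h2 j₀ β hβ)
  · intro a β hβ
    exact Lf_zero' k S lam _ _ (fun j => by simp [gU, fb_cg, cg, MvPolynomial.pderiv_map]) (h3 a β hβ)
  · intro β hβ
    exact Lf_zero' k S lam _ _ (fun j => by simp [fb_cg, cg]) (h4 β hβ)
  · rw [Lf_cg k S lam (fun j => t (jy j) - ∑ a, t (ju a) * MvPolynomial.pderiv (iu a) (Φ j)) _
      (fun j => by simp [cg, MvPolynomial.pderiv_map])]
    intro h
    apply h5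
    have hinj : Function.Injective (algebraMap ℤ k) := by
      intro x y hxy
      simpa using hxy
    exact hinj (by rw [h, map_zero])

end Pool.Agent.LibGF7
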