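import Pool.Agent.LibGF7.E2

set_option autoImplicit false

/-! ROW GF7 E2b (MEDIUM; cites E2, full_of_red of C2). 
PLAN. e = N + 1. z is the class of some w; X^e • z is the class of sV^(N+1) * w. By full_of_red (R = k[[s]]) it is enough that the reduced vector of sV^(N+1) * w,
sV^(N+1) * v j with v j = w (jy j) - ∑ a, w (ju a) * ∂F_j/∂u_a, is in RedS. By `gen` v j = ∑ subst F (c j i₀ i₁ i₂) * (x^i₀ y^i₁ z^i₂), so the vector is the sum over
j, i₀, i₁, i₂ of subst F (c ..) * (sV * thS (X_last^N * x^i₀ y^i₁ z^i₂ e_j)) (redS_add, redS_smul, finite sums; RedS of 0), and the polynomial vector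
X_last^N * x^i₀ y^i₁ z^i₂ e_j is homogeneous of degree N + i₀ + i₁ + i₂ ≥ N, in SR (ext Φ ψ) by hV; redS_of_SR. -/

namespace Pool.Agent.LibGF7

open Pool.Agent.LibMX34

theorem redS_zero (k : Type) [Field k] {r : ℕ} (F : Fin 4 → MvPowerSeries (Fin (r + 3)) (PowerSeries k))
    (hF : ∀ j, MvPowerSeries.constantCoeff (F j) = 0) : RedS k F 0 := by
  have hs : MvPowerSeries.HasSubst (unf (PowerSeries k) F) :=
    MvPowerSeries.hasSubst_of_constantCoeff_zero (unf_const F hF)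
  refine ⟨0, 0, 0, fun j => ?_⟩
  have h0 : MvPowerSeries.subst (unf (PowerSeries k) F) (0 : MvPowerSeries (Fin (r + 4)) (PowerSeries k)) = 0 := by
    rw [← MvPowerSeries.coe_substAlgHom hs, map_zero]
  simp [h0]

theorem redS_sum (k : Type) [Field k] {r : ℕ} (F : Fin 4 → MvPowerSeries (Fin (r + 3)) (PowerSeries k))
    (hF : ∀ j, MvPowerSeries.constantCoeff (F j) = 0) {ι : Type} (s : Finset ι)
    (g : ι → Fin 4 → MvPowerSeries (Fin (r + 3)) (PowerSeries k)) (h : ∀ i ∈ s, RedS k F (g i)) :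
    RedS k F (∑ i ∈ s, g i) := by
  classical
  induction s using Finset.induction_on with
  | empty => simpa using redS_zero k F hF
  | insert a s ha ih =>
    rw [Finset.sum_insert ha]
    exact redS_add k F hF (h a (Finset.mem_insert_self a s))
      (ih fun i hi => h i (Finset.mem_insert_of_mem hi))

theorem thS_mono (k : Type) [Field k] (r N i₀ i₁ i₂ : ℕ) :
    thS k (r + 3) (MvPolynomial.X (Fin.last (r + 3)) ^ N *
      (MvPolynomial.X (ix 0 : Fin (r + 1 + 3)) ^ i₀ * MvPolynomial.X (ix 1 : Fin (r + 1 + 3)) ^ i₁ *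
        MvPolynomial.X (ix 2 : Fin (r + 1 + 3)) ^ i₂)) =
    sV k ^ N * (MvPowerSeries.X (ix 0 : Fin (r + 3)) ^ i₀ * MvPowerSeries.X (ix 1 : Fin (r + 3)) ^ i₁ *
        MvPowerSeries.X (ix 2 : Fin (r + 3)) ^ i₂) := by
  have hx : ∀ i : Fin 3, thS k (r + 3) (MvPolynomial.X (ix i : Fin (r + 1 + 3))) = MvPowerSeries.X (ix i : Fin (r + 3)) := by
    intro i
    rw [thS, MvPolynomial.aeval_X]
    have hi : ((ix i : Fin (r + 1 + 3)) : ℕ) < r + 3 := by
      have : ((ix i : Fin (r + 1 + 3)) : ℕ) = (i : ℕ) := rfl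
      rw [this]; omega
    rw [dif_pos hi]
    rfl
  have hl : thS k (r + 3) (MvPolynomial.X (Fin.last (r + 3))) = sV k := by
    rw [thS, MvPolynomial.aeval_X, dif_neg (by simp)]
  rw [map_mul, map_mul, map_mul, map_pow, map_pow, map_pow, map_pow, hx, hx, hx, hl]

theorem stable_off (k : Type) [Field k] {r : ℕ} (Φ ψ : Fin 4 → P k r) (hΦ : ∀ j, (Φ j).IsHomogeneous 2)
    (hψ : ∀ j, (ψ j).IsHomogeneous 1) (N : ℕ) (hV : ∀ m, N ≤ m → VanAt (ext Φ ψ) m)
    (gen : ∀ b : MvPowerSeries (Fin (r + 3)) (PowerSeries k),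
      ∃ c : Fin 2 → Fin 2 → Fin 2 → MvPowerSeries (Fin (r + 4)) (PowerSeries k),
        b = ∑ i₀, ∑ i₁, ∑ i₂, MvPowerSeries.subst (unf (PowerSeries k) (FS k Φ ψ)) (c i₀ i₁ i₂) *
          (MvPowerSeries.X (ix 0) ^ (i₀ : ℕ) * MvPowerSeries.X (ix 1) ^ (i₁ : ℕ) * MvPowerSeries.X (ix 2) ^ (i₂ : ℕ))) :
    ∃ e : ℕ, ∀ z : T1 (PowerSeries k) (unf (PowerSeries k) (FS k Φ ψ)), (PowerSeries.X : PowerSeries k) ^ e • z = 0 := by
  have hF := FS_const k Φ ψ hΦ hψ
  have hmono : ∀ (j₀ : Fin 4) (i₀ i₁ i₂ : Fin 2), RedS k (FS k Φ ψ) (fun j => if j = j₀ then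
      sV k ^ (N + 1) * (MvPowerSeries.X (ix 0 : Fin (r + 3)) ^ (i₀ : ℕ) * MvPowerSeries.X (ix 1 : Fin (r + 3)) ^ (i₁ : ℕ) *
        MvPowerSeries.X (ix 2 : Fin (r + 3)) ^ (i₂ : ℕ)) else 0) := by
    intro j₀ i₀ i₁ i₂
    have hv : (fun j : Fin 4 => if j = j₀ then (MvPolynomial.X (Fin.last (r + 3)) ^ N *
      (MvPolynomial.X (ix 0 : Fin (r + 1 + 3)) ^ (i₀ : ℕ) * MvPolynomial.X (ix 1 : Fin (r + 1 + 3)) ^ (i₁ : ℕ) *
        MvPolynomial.X (ix 2 : Fin (r + 1 + 3)) ^ (i₂ : ℕ)) : P k (r + 1)) else 0) ∈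
        SR (ext Φ ψ) (N + ((i₀ : ℕ) + (i₁ : ℕ) + (i₂ : ℕ))) := by
      refine hV _ (Nat.le_add_right _ _) _ fun j => ?_
      split_ifs with hj
      · exact (MvPolynomial.isHomogeneous_X_pow _ _).mul
          (((MvPolynomial.isHomogeneous_X_pow _ _).mul (MvPolynomial.isHomogeneous_X_pow _ _)).mul
            (MvPolynomial.isHomogeneous_X_pow _ _))
      · exact MvPolynomial.isHomogeneous_zero _ _ _
    have h2 := redS_of_SR k Φ ψ hΦ hψ _ _ hv
    convert h2 using 1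
    funext j
    by_cases hj : j = j₀
    · rw [if_pos hj, if_pos hj, thS_mono, pow_succ']
      ring
    · rw [if_neg hj, if_neg hj, map_zero, mul_zero]
  refine ⟨N + 1, fun z => ?_⟩
  obtain ⟨w, rfl⟩ := Submodule.Quotient.mk_surjective _ z
  rw [← Submodule.Quotient.mk_smul, Submodule.Quotient.mk_eq_zero]
  choose c hc using fun j : Fin 4 => gen (w (jy j) - ∑ a, w (ju a) *
    MvPowerSeries.pderiv (PowerSeries k) (iu a) (FS k Φ ψ j))
  have hsm : ∀ x : MvPowerSeries (Fin (r + 3)) (PowerSeries k),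
      (PowerSeries.X : PowerSeries k) ^ (N + 1) • x = sV k ^ (N + 1) * x := by
    intro x
    rw [sV, ← map_pow, MvPowerSeries.smul_eq_C_mul]
  have hred : RedS k (FS k Φ ψ) (fun j => ((PowerSeries.X : PowerSeries k) ^ (N + 1) • w) (jy j) -
      ∑ a, ((PowerSeries.X : PowerSeries k) ^ (N + 1) • w) (ju a) *
        MvPowerSeries.pderiv (PowerSeries k) (iu a) (FS k Φ ψ j)) := by
    have heq : (fun j => ((PowerSeries.X : PowerSeries k) ^ (N + 1) • w) (jy j) -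
      ∑ a, ((PowerSeries.X : PowerSeries k) ^ (N + 1) • w) (ju a) *
        MvPowerSeries.pderiv (PowerSeries k) (iu a) (FS k Φ ψ j)) =
        ∑ j₀ : Fin 4, ∑ i₀ : Fin 2, ∑ i₁ : Fin 2, ∑ i₂ : Fin 2, fun j : Fin 4 =>
          MvPowerSeries.subst (unf (PowerSeries k) (FS k Φ ψ)) (c j₀ i₀ i₁ i₂) * (if j = j₀ then
            sV k ^ (N + 1) * (MvPowerSeries.X (ix 0 : Fin (r + 3)) ^ (i₀ : ℕ) * MvPowerSeries.X (ix 1 : Fin (r + 3)) ^ (i₁ : ℕ) *
              MvPowerSeries.X (ix 2 : Fin (r + 3)) ^ (i₂ : ℕ)) else 0) := by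
      funext j
      simp only [Pi.smul_apply, hsm, Finset.sum_apply]
      have hA : sV k ^ (N + 1) * w (jy j) - ∑ a, sV k ^ (N + 1) * w (ju a) *
          MvPowerSeries.pderiv (PowerSeries k) (iu a) (FS k Φ ψ j) =
          sV k ^ (N + 1) * (w (jy j) - ∑ a, w (ju a) *
            MvPowerSeries.pderiv (PowerSeries k) (iu a) (FS k Φ ψ j)) := by
        rw [mul_sub, Finset.mul_sum]
        congr 1
        exact Finset.sum_congr rfl fun a _ => mul_assoc _ _ _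
      rw [hA, hc j, Finset.sum_eq_single j]
      · rw [Finset.mul_sum]
        refine Finset.sum_congr rfl fun i₀ _ => ?_
        rw [Finset.mul_sum]
        refine Finset.sum_congr rfl fun i₁ _ => ?_
        rw [Finset.mul_sum]
        refine Finset.sum_congr rfl fun i₂ _ => ?_
        rw [if_pos rfl]
        ring
      · intro j₀ _ hj
        simp [Ne.symm hj]
      · intro h
        exact absurd (Finset.mem_univ j) h
    rw [heq]
    refine redS_sum k _ hF _ _ fun j₀ _ => redS_sum k _ hF _ _ fun i₀ _ => redS_sum k _ hF _ _ fun i₁ _ =>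
      redS_sum k _ hF _ _ fun i₂ _ => ?_
    exact redS_smul k _ hF (hmono j₀ i₀ i₁ i₂) (c j₀ i₀ i₁ i₂)
  obtain ⟨b, η, ζ, h⟩ := hred
  exact full_of_red (FS k Φ ψ) hF _ b η ζ h

end Pool.Agent.LibGF7
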