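import Pool.Agent.LibGF7.G
import Pool.Agent.LibGF7.B1
import Pool.Agent.LibGF7.A2b
import Pool.Agent.LibGF7.Db
import Pool.Agent.LibGF7.C3b
import Pool.Agent.LibGF7.E2b
import Pool.Agent.LibMX34.I8

set_option autoImplicit false

/-! GF7 Main (assembly, helper7). -/

namespace Pool.Agent.LibGF7

open Pool.Agent.LibMX34

theorem cg_hom {K K' : Type} [CommRing K] [CommRing K'] [Algebra K K'] {r d : ℕ} {Φ : Fin 4 → P K r} (h : ∀ j, (Φ j).IsHomogeneous d)
    (j : Fin 4) : (cg K' Φ j).IsHomogeneous d := (h j).map _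

theorem padP_jy {K : Type} [CommRing K] {r : ℕ} (ψ : Fin 4 → P K r) (j : Fin 4) : padP ψ (jy j) = ψ j := by
  fin_cases j <;> rfl

theorem padP_ju {K : Type} [CommRing K] {r : ℕ} (ψ : Fin 4 → P K r) (a : Fin r) : padP ψ (ju a) = 0 := rfl

theorem jy_or_ju {r : ℕ} (j : Fin (r + 4)) : (∃ i : Fin 4, j = jy i) ∨ ∃ a : Fin r, j = ju a := by
  refine Fin.cases ?_ (fun j => ?_) j
  · exact Or.inl ⟨0, rfl⟩
  refine Fin.cases ?_ (fun j => ?_) j
  · exact Or.inl ⟨1, rfl⟩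
  refine Fin.cases ?_ (fun j => ?_) j
  · exact Or.inl ⟨2, rfl⟩
  refine Fin.cases ?_ (fun j => ?_) j
  · exact Or.inl ⟨3, rfl⟩
  · exact Or.inr ⟨j, rfl⟩

theorem padP_zero {K : Type} [CommRing K] {r : ℕ} (j : Fin (r + 4)) : padP (0 : Fin 4 → P K r) j = 0 := by
  rcases jy_or_ju j with ⟨i, rfl⟩ | ⟨a, rfl⟩
  · rw [padP_jy]; rfl
  · rw [padP_ju]

theorem map_padP {K K' : Type} [CommRing K] [CommRing K'] [Algebra K K'] {r : ℕ} (ψ : Fin 4 → P K r) (j : Fin (r + 4)) :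
    MvPolynomial.map (algebraMap K K') (padP ψ j) = padP (cg K' ψ) j := by
  rcases jy_or_ju j with ⟨i, rfl⟩ | ⟨a, rfl⟩
  · rw [padP_jy, padP_jy]; rfl
  · rw [padP_ju, padP_ju, map_zero]

theorem map_unfP {K K' : Type} [CommRing K] [CommRing K'] [Algebra K K'] {r : ℕ} (Φ : Fin 4 → P K r) (j : Fin (r + 4)) :
    MvPolynomial.map (algebraMap K K') (unfP Φ j) = unfP (cg K' Φ) j := by
  rcases jy_or_ju j with ⟨i, rfl⟩ | ⟨a, rfl⟩
  · rw [unfP_jy, unfP_jy]; rfl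
  · rw [unfP_ju, unfP_ju, MvPolynomial.map_X]

theorem map_aeval_unfP {K K' : Type} [CommRing K] [CommRing K'] [Algebra K K'] {r : ℕ} (Φ : Fin 4 → P K r)
    (b : MvPolynomial (Fin (r + 4)) K) :
    MvPolynomial.map (algebraMap K K') (MvPolynomial.aeval (unfP Φ) b) =
      MvPolynomial.aeval (unfP (cg K' Φ)) (MvPolynomial.map (algebraMap K K') b) := by
  induction b using MvPolynomial.induction_on with
  | C a => simp [MvPolynomial.algebraMap_eq]
  | add p q hp hq => simp only [map_add, hp, hq]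
  | mul_X p i hp => simp only [map_mul, hp, MvPolynomial.aeval_X, MvPolynomial.map_X, map_unfP]

theorem coe_aeval (k : Type) [Field k] {n m : ℕ} (f : Fin m → MvPolynomial (Fin n) k) (b : MvPolynomial (Fin m) k) :
    ((MvPolynomial.aeval f b : MvPolynomial (Fin n) k) : MvPowerSeries (Fin n) k) =
      MvPolynomial.aeval (fun j => (f j : MvPowerSeries (Fin n) k)) b := by
  induction b using MvPolynomial.induction_on with
  | C a =>
    simp only [MvPolynomial.algHom_C, MvPolynomial.algebraMap_eq, MvPolynomial.coe_C]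
    rfl
  | add p q hp hq => simp only [map_add, MvPolynomial.coe_add, hp, hq]
  | mul_X p i hp => simp only [map_mul, MvPolynomial.coe_mul, hp, MvPolynomial.aeval_X]

/-- the final form of `not_mem_int`, without `ψ` in the tangent space -/
theorem not_mem_t {r : ℕ} (Φ : Fin 4 → P ℤ r) (hΦ : ∀ j, (Φ j).IsHomogeneous 2)
    (m : ℕ) (S : Finset (Fin (r + 3) →₀ ℕ)) (hS : ∀ e ∈ S, Finsupp.degree e = m) (lam : Fin 4 → (Fin (r + 3) →₀ ℕ) → ℤ)
    (h1 : ∀ i α, Finsupp.degree α + 1 = m → Lf S lam (gX Φ i α) = 0)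
    (h2 : ∀ j₀ β, Finsupp.weight (wt r) β = m → Lf S lam (gY Φ j₀ β) = 0)
    (h3 : ∀ a β, Finsupp.weight (wt r) β + 1 = m → Lf S lam (gU Φ a β) = 0)
    (t : Fin (r + 4) → P ℤ r)
    (h5 : Lf S lam (fun j => t (jy j) - ∑ a, t (ju a) * MvPolynomial.pderiv (iu a) (Φ j)) ≠ 0)
    (k : Type) [Field k] [CharZero k] :
    (fun j => ((MvPolynomial.map (algebraMap ℤ k) (t j) : P k r) : MvPowerSeries (Fin (r + 3)) k)) ∉
      tangentSource k (unf k (F0 k (cg k Φ))) ⊔ tangentTarget k (unf k (F0 k (cg k Φ))) := by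
  have key := not_mem_int (r := r) Φ 0 hΦ (fun j => MvPolynomial.isHomogeneous_zero _ _ _) m S hS lam h1 h2 h3
    (fun β _ => by simp [Lf]) t h5 k 0
  have e1 : cg k (0 : Fin 4 → P ℤ r) = 0 := by funext j; simp [cg]
  rw [e1] at key
  convert key using 2
  funext j
  rw [padP_zero, MvPolynomial.coe_zero, mul_zero, sub_zero]

theorem fin_T1 {r : ℕ} (Φ : Fin 4 → P ℤ r) (hΦ : ∀ j, (Φ j).IsHomogeneous 2)
    (p : ℕ) [Fact p.Prime] (N : ℕ) (hV : ∀ m, N ≤ m → VanAt (cg (ZMod p) Φ) m) (k : Type) [Field k] [CharZero k] :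
    Module.Finite k (T1 k (unf k (F0 k (cg k Φ)))) :=
  t1_finite k (cg k Φ) (fun j => cg_hom hΦ j) N fun m hm => modp Φ hΦ p m (hV m hm) k

theorem final_lt {r : ℕ} (Φ ψ : Fin 4 → P ℤ r) (hΦ : ∀ j, (Φ j).IsHomogeneous 2)
    -- `T1(f)` vanishes in the degrees `≥ N` modulo `p`
    (p : ℕ) [Fact p.Prime] (N : ℕ) (hV : ∀ m, N ≤ m → VanAt (cg (ZMod p) Φ) m)
    -- the functional
    (m : ℕ) (S : Finset (Fin (r + 3) →₀ ℕ)) (hS : ∀ e ∈ S, Finsupp.degree e = m) (lam : Fin 4 → (Fin (r + 3) →₀ ℕ) → ℤ)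
    (h1 : ∀ i α, Finsupp.degree α + 1 = m → Lf S lam (gX Φ i α) = 0)
    (h2 : ∀ j₀ β, Finsupp.weight (wt r) β = m → Lf S lam (gY Φ j₀ β) = 0)
    (h3 : ∀ a β, Finsupp.weight (wt r) β + 1 = m → Lf S lam (gU Φ a β) = 0)
    (t : Fin (r + 4) → P ℤ r)
    (h5 : Lf S lam (fun j => t (jy j) - ∑ a, t (ju a) * MvPolynomial.pderiv (iu a) (Φ j)) ≠ 0)
    (k : Type) [Field k] [CharZero k] (G : MvPowerSeries (Fin (r + 4)) (PowerSeries k))
    (hgeo : Geo k (FS k (cg k Φ) (cg k ψ)) G)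
    -- the torsion element
    (T : MvPowerSeries (Fin (r + 4)) (PowerSeries k)) (ρ : Fin (r + 4) → MvPowerSeries (Fin (r + 3)) (PowerSeries k))
    (hT : MvPowerSeries.subst (unf (PowerSeries k) (FS k (cg k Φ) (cg k ψ))) T =
      ∑ j, MvPowerSeries.subst (unf (PowerSeries k) (FS k (cg k Φ) (cg k ψ))) (MvPowerSeries.pderiv (PowerSeries k) j G) * ρ j)
    (R : Fin (r + 4) → MvPowerSeries (Fin (r + 4)) (PowerSeries k))
    (hR : sV k * T = ∑ j, R j * MvPowerSeries.pderiv (PowerSeries k) j G)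
    (hρ : ∀ j, atZero k (ρ j) = ((MvPolynomial.map (algebraMap ℤ k) (t j) : P k r) : MvPowerSeries (Fin (r + 3)) k)) :
    Module.Finite k (T1 k (unf k (F0 k (cg k Φ)))) ∧
    Module.rank (PowerSeries k) (Localization.Away (Ideal.Quotient.mk
      (Ideal.span (Set.range fun j => MvPowerSeries.pderiv (PowerSeries k) j G)) G)) < Cardinal.aleph0 ∧
    Module.finrank (PowerSeries k) (Localization.Away (Ideal.Quotient.mk
      (Ideal.span (Set.range fun j => MvPowerSeries.pderiv (PowerSeries k) j G)) G)) <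
      Module.finrank k (T1 k (unf k (F0 k (cg k Φ)))) := by
  have hF : (fun j => atZero k (FS k (cg k Φ) (cg k ψ) j)) = F0 k (cg k Φ) := by
    funext j; exact at_FS k _ _ j
  have hfin := fin_T1 Φ hΦ p N hV k
  have hfin' : Module.Finite k (T1 k (unf k fun j => atZero k (FS k (cg k Φ) (cg k ψ) j))) := by
    rw [hF]; exact hfin
  have hne := not_mem_t Φ hΦ m S hS lam h1 h2 h3 t h5 k
  have main := mond_lt_T k (FS k (cg k Φ) (cg k ψ)) G hgeo hfin' T ρ hT R hR (by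
    rw [hF, show (fun j => atZero k (ρ j)) = _ from funext hρ]
    exact hne)
  rw [hF] at main
  exact ⟨hfin, main⟩

theorem ext_hom {K : Type} [CommRing K] {r : ℕ} {Φ ψ : Fin 4 → P K r} (hΦ : ∀ j, (Φ j).IsHomogeneous 2)
    (hψ : ∀ j, (ψ j).IsHomogeneous 1) (j : Fin 4) : (ext Φ ψ j).IsHomogeneous 2 := by
  refine MvPolynomial.IsHomogeneous.add ?_ ?_
  · exact (hΦ j).rename_isHomogeneous
  · exact (MvPolynomial.isHomogeneous_X K (Fin.last (r + 3))).mul (hψ j).rename_isHomogeneous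

theorem cg_ext {K K' : Type} [CommRing K] [CommRing K'] [Algebra K K'] {r : ℕ} (Φ ψ : Fin 4 → P K r) :
    cg K' (ext Φ ψ) = ext (cg K' Φ) (cg K' ψ) := by
  funext j
  simp only [cg, ext, map_add, map_mul, MvPolynomial.map_rename, MvPolynomial.map_X]

theorem final_stable {r : ℕ} (Φ ψ : Fin 4 → P ℤ r) (hΦ : ∀ j, (Φ j).IsHomogeneous 2) (hψ : ∀ j, (ψ j).IsHomogeneous 1)
    -- `T1` of the unfolding with `s` as a parameter vanishes in the degrees `≥ N` modulo `p`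
    (p : ℕ) [Fact p.Prime] (N : ℕ) (hV : ∀ m, N ≤ m → VanAt (cg (ZMod p) (ext Φ ψ)) m)
    (k : Type) [Field k] [CharZero k]
    (gen : ∀ b : MvPowerSeries (Fin (r + 3)) (PowerSeries k),
      ∃ c : Fin 2 → Fin 2 → Fin 2 → MvPowerSeries (Fin (r + 4)) (PowerSeries k),
        b = ∑ i₀, ∑ i₁, ∑ i₂, MvPowerSeries.subst (unf (PowerSeries k) (FS k (cg k Φ) (cg k ψ))) (c i₀ i₁ i₂) *
          (MvPowerSeries.X (ix 0) ^ (i₀ : ℕ) * MvPowerSeries.X (ix 1) ^ (i₁ : ℕ) * MvPowerSeries.X (ix 2) ^ (i₂ : ℕ))) :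
    ∃ e : ℕ, ∀ z : T1 (PowerSeries k) (unf (PowerSeries k) (FS k (cg k Φ) (cg k ψ))),
      (PowerSeries.X : PowerSeries k) ^ e • z = 0 := by
  refine stable_off k (cg k Φ) (cg k ψ) (fun j => cg_hom hΦ j) (fun j => cg_hom hψ j) N (fun m hm => ?_) gen
  have h := modp (ext Φ ψ) (ext_hom hΦ hψ) p m (hV m hm) k
  rwa [cg_ext] at h

end Pool.Agent.LibGF7
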