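import Pool.Agent.LibGF7.Sec
import Pool.Agent.LibGF7.Main
import Pool.Agent.LibMX34.Flag
import Pool.Agent.LibMG10.G6

set_option autoImplicit false

/-! GF7 Bridge (helper7): the polynomial sections and the power series of helper34 (`Phi0`, `PhiS`). -/

namespace Pool.Agent.LibGF7

open Pool.Agent.LibMX34

/-- the direction `∑ σ_t ∂/∂v_t` -/
noncomputable def PsiP (K : Type) [CommRing K] {r : ℕ} (σ : Fin 9 → ℤ) : Fin 4 → P K r :=
  ![MvPolynomial.C (σ 0 : K) * MvPolynomial.X (ix 1) + MvPolynomial.C (σ 1 : K) * MvPolynomial.X (ix 2),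
    MvPolynomial.C (σ 2 : K) * MvPolynomial.X (ix 0) + MvPolynomial.C (σ 3 : K) * MvPolynomial.X (ix 2),
    MvPolynomial.C (σ 4 : K) * MvPolynomial.X (ix 0) + MvPolynomial.C (σ 5 : K) * MvPolynomial.X (ix 1),
    MvPolynomial.C (σ 6 : K) * MvPolynomial.X (ix 0) + MvPolynomial.C (σ 7 : K) * MvPolynomial.X (ix 1) +
      MvPolynomial.C (σ 8 : K) * MvPolynomial.X (ix 2)]

/-- the section with one more parameter -/
def TE {r : ℕ} (T : Fin 9 → Fin r → ℤ) (σ : Fin 9 → ℤ) : Fin 9 → Fin (r + 1) → ℤ := fun t => Fin.snoc (T t) (σ t)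

section

variable {r : ℕ} (T : Fin 9 → Fin r → ℤ) (σ : Fin 9 → ℤ)

theorem map_Lv {K K' : Type} [CommRing K] [CommRing K'] [Algebra K K'] (t : Fin 9) :
    MvPolynomial.map (algebraMap K K') (Lv K T t) = Lv K' T t := by
  simp [Lv]

theorem cg_PhiP {K : Type} (K' : Type) [CommRing K] [CommRing K'] [Algebra K K'] : cg K' (PhiP K T) = PhiP K' T := by
  funext j
  fin_cases j <;> simp [cg, PhiP, map_Lv]

theorem PsiP_hom (K : Type) [CommRing K] (j : Fin 4) : (PsiP K σ j : P K r).IsHomogeneous 1 := by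
  have hL : ∀ (c : K) (i : Fin 3), (MvPolynomial.C c * MvPolynomial.X (ix i) : P K r).IsHomogeneous 1 := fun c i => by
    have h := (MvPolynomial.isHomogeneous_C (Fin (r + 3)) c).mul (MvPolynomial.isHomogeneous_X K (ix i))
    simpa using h
  fin_cases j
  · exact (hL _ 1).add (hL _ 2)
  · exact (hL _ 0).add (hL _ 2)
  · exact (hL _ 0).add (hL _ 1)
  · exact ((hL _ 0).add (hL _ 1)).add (hL _ 2)

theorem ren_ix (i : Fin 3) : ((ix i : Fin (r + 3)).castSucc : Fin (r + 3 + 1)) = (ix i : Fin (r + 1 + 3)) := by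
  apply Fin.ext; simp [ix]

theorem ren_iu (a : Fin r) : ((iu a : Fin (r + 3)).castSucc : Fin (r + 3 + 1)) = (iu a.castSucc : Fin (r + 1 + 3)) := by
  apply Fin.ext; simp [iu]

theorem last_iu : (Fin.last (r + 3) : Fin (r + 3 + 1)) = (iu (Fin.last r) : Fin (r + 1 + 3)) := by
  apply Fin.ext; simp [iu]

theorem Lv_TE (K : Type) [CommRing K] (t : Fin 9) : Lv K (TE T σ) t =
    (MvPolynomial.rename (fun i : Fin (r + 3) => (i.castSucc : Fin (r + 3 + 1))) (Lv K T t) : MvPolynomial (Fin (r + 3 + 1)) K) +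
      MvPolynomial.C (σ t : K) * MvPolynomial.X (Fin.last (r + 3)) := by
  rw [Lv, Fin.sum_univ_castSucc]
  congr 1
  · rw [Lv, map_sum]
    refine Finset.sum_congr rfl fun a _ => ?_
    rw [map_mul, MvPolynomial.rename_C, MvPolynomial.rename_X, ren_iu, TE, Fin.snoc_castSucc]
  · rw [TE, Fin.snoc_last, last_iu]

theorem ext_PhiP (K : Type) [CommRing K] : ext (PhiP K T) (PsiP K σ) = PhiP K (TE T σ) := by
  funext j
  have hX : ∀ i : Fin 3, (MvPolynomial.rename (fun i : Fin (r + 3) => (i.castSucc : Fin (r + 3 + 1))) (MvPolynomial.X (ix i) : P K r) :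
      MvPolynomial (Fin (r + 3 + 1)) K) = (MvPolynomial.X (ix i) : P K (r + 1)) := fun i => by
    rw [MvPolynomial.rename_X, ren_ix]
  have hL := Lv_TE T σ K
  fin_cases j <;> simp [ext, PhiP, PsiP, hX, hL] <;> ring

end

section

variable (k : Type) [Field k] {r : ℕ} (T : Fin 9 → Fin r → ℤ) (σ : Fin 9 → ℤ)

theorem pB0_x (i : Fin 3) : pB0 k T (Fin.castLE (by omega) i) = MvPowerSeries.X (ix i) :=
  Fin.append_left _ _ i

theorem pB0_v (t : Fin 9) : pB0 k T (ivB t) = LB0 k T t :=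
  Fin.append_right _ _ t

theorem pB_x (i : Fin 3) : pB k T σ (Fin.castLE (by omega) i) = MvPowerSeries.X (ix i) :=
  Fin.append_left _ _ i

theorem pB_v (t : Fin 9) : pB k T σ (ivB t) = LB k T σ t :=
  Fin.append_right _ _ t

theorem coe_Lv (t : Fin 9) : ((Lv k T t : P k r) : MvPowerSeries (Fin (r + 3)) k) = LB0 k T t := by
  have h : ∀ s : Finset (Fin r), ((∑ a ∈ s, MvPolynomial.C (T t a : k) * MvPolynomial.X (iu a) : P k r) : MvPowerSeries (Fin (r + 3)) k) =
      ∑ a ∈ s, (T t a : MvPowerSeries (Fin (r + 3)) k) * MvPowerSeries.X (a.succ.succ.succ : Fin (r + 3)) := by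
    intro s
    induction s using Finset.induction_on with
    | empty => simp
    | insert a s ha ih =>
      rw [Finset.sum_insert ha, Finset.sum_insert ha, MvPolynomial.coe_add, ih, MvPolynomial.coe_mul, MvPolynomial.coe_C, MvPolynomial.coe_X, map_intCast]
      rfl
  exact h Finset.univ

theorem F0_PhiP (j : Fin 4) : F0 k (PhiP k T) j = Phi0 k T j := by
  have h0 : pB0 k T 0 = MvPowerSeries.X (ix 0) := pB0_x k T 0
  have h1 : pB0 k T 1 = MvPowerSeries.X (ix 1) := pB0_x k T 1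
  have h2 : pB0 k T 2 = MvPowerSeries.X (ix 2) := pB0_x k T 2
  rw [Phi0, FU_ev, F0]
  simp only [pB0_v, h0, h1, h2, ← coe_Lv]
  fin_cases j <;> simp [PhiP, MvPolynomial.coe_add, MvPolynomial.coe_mul, MvPolynomial.coe_pow]

theorem toS_X (i : Fin (r + 3)) : toS k (MvPolynomial.X i : P k r) = MvPowerSeries.X i := by
  rw [toS, MvPolynomial.map_X, MvPolynomial.coe_X]

theorem toS_int (n : ℤ) : toS k (MvPolynomial.C (n : k) : P k r) = (n : MvPowerSeries (Fin (r + 3)) (PowerSeries k)) := by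
  rw [toS, MvPolynomial.map_C, MvPolynomial.coe_C, map_intCast, map_intCast]

theorem toS_int' (n : ℤ) : toS k (n : P k r) = (n : MvPowerSeries (Fin (r + 3)) (PowerSeries k)) := by
  rw [← toS_int k n, map_intCast]

theorem toS_Lv (t : Fin 9) : toS k (Lv k T t) + (σ t : MvPowerSeries (Fin (r + 3)) (PowerSeries k)) * sV k = LB k T σ t := by
  have h : ∀ s : Finset (Fin r), toS k (∑ a ∈ s, MvPolynomial.C (T t a : k) * MvPolynomial.X (iu a) : P k r) =
      ∑ a ∈ s, (T t a : MvPowerSeries (Fin (r + 3)) (PowerSeries k)) * MvPowerSeries.X (a.succ.succ.succ : Fin (r + 3)) := by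
    intro s
    induction s using Finset.induction_on with
    | empty => simp [toS]
    | insert a s ha ih =>
      rw [Finset.sum_insert ha, Finset.sum_insert ha, toS_add, ih, toS_mul, toS_X, toS_int]
      rfl
  rw [Lv, h Finset.univ]
  rfl

theorem FS_PhiP (j : Fin 4) : FS k (PhiP k T) (PsiP k σ) j = PhiS k T σ j := by
  have h0 : pB k T σ 0 = MvPowerSeries.X (ix 0) := pB_x k T σ 0
  have h1 : pB k T σ 1 = MvPowerSeries.X (ix 1) := pB_x k T σ 1
  have h2 : pB k T σ 2 = MvPowerSeries.X (ix 2) := pB_x k T σ 2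
  rw [PhiS, FU_ev, FS]
  simp only [pB_v, h0, h1, h2, ← toS_Lv]
  fin_cases j <;> simp [PhiP, PsiP, toS_add, toS_mul, toS_X, toS_int', pow_two] <;> ring

/-- `T1(f)` is finite over every field of characteristic `0` -/
theorem fin_T [CharZero k] (p : ℕ) [Fact p.Prime] (N : ℕ) (hV : ∀ m, N ≤ m → VanAt (PhiP (ZMod p) T) m) :
    Module.Finite k (T1 k (unf k (Phi0 k T))) := by
  have h := fin_T1 (PhiP ℤ T) (PhiP_hom ℤ T) p N (by rw [cg_PhiP]; exact hV) k
  rw [cg_PhiP, show F0 k (PhiP k T) = Phi0 k T from funext (F0_PhiP k T)] at h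
  exact h

/-- `F` is a stabilisation -/
theorem stable_T [CharZero k] (p : ℕ) [Fact p.Prime] (N : ℕ) (hV : ∀ m, N ≤ m → VanAt (PhiP (ZMod p) (TE T σ)) m) :
    ∃ e : ℕ, ∀ z : T1 (PowerSeries k) (unf (PowerSeries k) (PhiS k T σ)), (PowerSeries.X : PowerSeries k) ^ e • z = 0 := by
  have hcψ : cg k (PsiP ℤ σ : Fin 4 → P ℤ r) = PsiP k σ := by
    funext j
    fin_cases j <;> simp [cg, PsiP]
  have hcψ' : cg (ZMod p) (PsiP ℤ σ : Fin 4 → P ℤ r) = PsiP (ZMod p) σ := by
    funext j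
    fin_cases j <;> simp [cg, PsiP]
  have hF : FS k (cg k (PhiP ℤ T)) (cg k (PsiP ℤ σ)) = PhiS k T σ := by
    rw [cg_PhiP, hcψ]
    exact funext (FS_PhiP k T σ)
  have h := final_stable (PhiP ℤ T) (PsiP ℤ σ) (PhiP_hom ℤ T) (PsiP_hom σ ℤ) p N (by
    intro m hm
    rw [cg_ext, cg_PhiP, hcψ', ext_PhiP]
    exact hV m hm) k (by
    intro b
    rw [hF]
    exact Pool.Agent.LibMG10.gen_PhiS k T σ b)
  rwa [hF] at h

end

end Pool.Agent.LibGF7
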