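import Pool.Agent.LibGF7.A1

set_option autoImplicit false

/-! ROW GF7 C1 (MEDIUM). Coefficient formulas for power series.
PLAN. ExS, Ew, EwS are finite sets of exponents; membership lemmas first (weights are positive, so `β j ≤ m`: Set.Finite.subset of Set.finite_Iic).
co_x: MvPowerSeries.coeff_mul, antidiagonal; coeff e (monomial α 1 * g) = g_(e - α) if α ≤ e (MvPolynomial.coeff_monomial_mul'), and g_(e-α) = 0 unless
degree (e - α) = 1. subst_fb: MvPowerSeries.coeff_subst (finsum; HasSubst by hasSubst_of_constantCoeff_zero) with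
`∏ (unf k (F0 k Φ) j)^(β j) = (fb Φ β : power series)` and fb_hom: only β with weight β = degree e contribute (finsum_eq_sum_of_support_subset).
co_u: co_mul with antidiagonal and subst_fb, or: subst f ζ * g, coefficient e = ∑ over (e', e'') of (∑_β ζ_β coeff e' (fb β)) g_(e''). -/

namespace Pool.Agent.LibGF7

open Pool.Agent.LibMX34

/-- exponents `α` of degree `m - 1` -/
noncomputable def ExS (n m : ℕ) : Finset (Fin n →₀ ℕ) :=
  if m = 0 then ∅ else Finset.finsuppAntidiag Finset.univ (m - 1)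

theorem mem_ExS {n m : ℕ} (α : Fin n →₀ ℕ) : α ∈ ExS n m ↔ Finsupp.degree α + 1 = m := by
  unfold ExS
  split_ifs with h
  · simp [h]
  · rw [Finset.mem_finsuppAntidiag, Finsupp.degree_eq_sum]
    generalize hs : Finset.univ.sum (⇑α) = s
    constructor
    · rintro ⟨h1, -⟩
      omega
    · intro h1
      exact ⟨by omega, Finset.subset_univ _⟩

private theorem C1_wt_ne (r : ℕ) (j : Fin (r + 4)) : wt r j ≠ 0 := by
  unfold wt
  split_ifs <;> norm_num

theorem finite_wt (r m : ℕ) : {β : Fin (r + 4) →₀ ℕ | Finsupp.weight (wt r) β = m}.Finite := by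
  refine (Finsupp.finite_of_nat_weight_le (wt r) (C1_wt_ne r) m).subset ?_
  intro β hβ
  exact le_of_eq hβ

/-- exponents `β` of weight `m` -/
noncomputable def Ew (r m : ℕ) : Finset (Fin (r + 4) →₀ ℕ) := (finite_wt r m).toFinset

/-- exponents `β` of weight `m - 1` -/
noncomputable def EwS (r m : ℕ) : Finset (Fin (r + 4) →₀ ℕ) := if m = 0 then ∅ else Ew r (m - 1)

theorem mem_Ew {r m : ℕ} (β : Fin (r + 4) →₀ ℕ) : β ∈ Ew r m ↔ Finsupp.weight (wt r) β = m := by
  simp [Ew]

theorem mem_EwS {r m : ℕ} (β : Fin (r + 4) →₀ ℕ) : β ∈ EwS r m ↔ Finsupp.weight (wt r) β + 1 = m := by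
  unfold EwS
  split_ifs with h
  · simp [h]
  · rw [mem_Ew]
    omega

theorem unf_eq (k : Type) [Field k] {r : ℕ} (Φ : Fin 4 → P k r) (j : Fin (r + 4)) :
    unf k (F0 k Φ) j = (unfP Φ j : MvPowerSeries (Fin (r + 3)) k) := by
  by_cases h : (j : ℕ) < 4
  · have hj : j = jy ⟨(j : ℕ), h⟩ := by
      apply Fin.ext
      simp [jy]
    rw [hj, unfP_jy]
    generalize (⟨(j : ℕ), h⟩ : Fin 4) = i
    fin_cases i <;> rfl
  · have hj : j = ju ⟨(j : ℕ) - 4, by have := j.isLt; omega⟩ := by
      apply Fin.ext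
      simp only [ju, Fin.val_succ]
      omega
    rw [hj, unfP_ju]
    generalize (⟨(j : ℕ) - 4, _⟩ : Fin r) = i
    rw [MvPolynomial.coe_X]
    rfl

theorem unf_const0 (k : Type) [Field k] {r : ℕ} (Φ : Fin 4 → P k r) (hΦ : ∀ j, (Φ j).IsHomogeneous 2) (j : Fin (r + 4)) :
    MvPowerSeries.constantCoeff (unf k (F0 k Φ) j) = 0 := by
  rw [unf_eq, ← MvPowerSeries.coeff_zero_eq_constantCoeff_apply, MvPolynomial.coeff_coe]
  have h : (fb Φ (Finsupp.single j 1)).IsHomogeneous (Finsupp.weight (wt r) (Finsupp.single j 1)) := fb_hom Φ hΦ _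
  have h1 : fb Φ (Finsupp.single j 1) = unfP Φ j ^ 1 :=
    Finsupp.prod_single_index (h := fun j n => unfP Φ j ^ n) (pow_zero _)
  rw [h1, pow_one] at h
  refine h.coeff_eq_zero ?_
  rw [Finsupp.weight_single]
  simp only [map_zero, smul_eq_mul, one_mul]
  exact (C1_wt_ne r j).symm

theorem co_x {k : Type} [Field k] {n : ℕ} (b : MvPowerSeries (Fin n) k) (g : MvPolynomial (Fin n) k) (hg : g.IsHomogeneous 1)
    (e : Fin n →₀ ℕ) : MvPowerSeries.coeff e (b * (g : MvPowerSeries (Fin n) k)) =
      ∑ α ∈ ExS n (Finsupp.degree e), MvPowerSeries.coeff α b * MvPolynomial.coeff e (MvPolynomial.monomial α 1 * g) := by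
  classical
  rw [MvPowerSeries.coeff_mul]
  -- nonzero terms: first component in ExS
  have key : ∀ α : Fin n →₀ ℕ, MvPolynomial.coeff e (MvPolynomial.monomial α (1 : k) * g) =
      if α ≤ e then MvPolynomial.coeff (e - α) g else 0 := by
    intro α
    rw [MvPolynomial.coeff_monomial_mul']
    simp
  have h1 : ∑ p ∈ Finset.HasAntidiagonal.antidiagonal e, MvPowerSeries.coeff p.1 b *
      MvPowerSeries.coeff p.2 (g : MvPowerSeries (Fin n) k) =
      ∑ α ∈ (Finset.HasAntidiagonal.antidiagonal e).image Prod.fst, MvPowerSeries.coeff α b *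
        MvPolynomial.coeff e (MvPolynomial.monomial α 1 * g) := by
    rw [Finset.sum_image]
    · refine Finset.sum_congr rfl fun p hp => ?_
      rw [Finset.HasAntidiagonal.mem_antidiagonal] at hp
      have hle : p.1 ≤ e := by rw [← hp]; exact le_self_add
      have hsub : e - p.1 = p.2 := by rw [← hp]; exact add_tsub_cancel_left _ _
      rw [key, if_pos hle, hsub, MvPolynomial.coeff_coe]
    · intro p hp q hq hpq
      rw [Finset.mem_coe, Finset.HasAntidiagonal.mem_antidiagonal] at hp hq
      have : p.2 = q.2 := by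
        have h2 : p.1 + p.2 = p.1 + q.2 := by rw [hp, hpq, hq]
        exact add_left_cancel h2
      exact Prod.ext hpq this
  rw [h1]
  refine Finset.sum_congr_of_eq_on_inter ?_ ?_ ?_
  · intro α hα hn
    rw [Finset.mem_image] at hα
    obtain ⟨p, hp, rfl⟩ := hα
    rw [Finset.HasAntidiagonal.mem_antidiagonal] at hp
    rw [mem_ExS] at hn
    have hle : p.1 ≤ e := by rw [← hp]; exact le_self_add
    have hsub : e - p.1 = p.2 := by rw [← hp]; exact add_tsub_cancel_left _ _
    rw [key, if_pos hle, hsub]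
    have : MvPolynomial.coeff p.2 g = 0 := by
      refine hg.coeff_eq_zero ?_
      intro h2
      apply hn
      rw [← hp, map_add, h2]
    rw [this, mul_zero]
  · intro α hα hn
    have : ¬ α ≤ e := by
      intro hle
      apply hn
      rw [Finset.mem_image]
      exact ⟨(α, e - α), by rw [Finset.HasAntidiagonal.mem_antidiagonal]; exact add_tsub_cancel_of_le hle, rfl⟩
    rw [key, if_neg this, mul_zero]
  · intro α _ _
    rfl

end Pool.Agent.LibGF7
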