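import Pool.Agent.LibGF7.C1
import Pool.Agent.LibGF7.A1b

set_option autoImplicit false

/-! ROW GF7 C1b (MEDIUM; cites C1). Coefficients of `subst (unf Φ) η`.
PLAN. subst_fb: MvPowerSeries.coeff_subst (finsum; HasSubst by MvPowerSeries.hasSubst_of_constantCoeff_zero and unf_const0) with
`β.prod (fun j n => unf k (F0 k Φ) j ^ n) = (fb Φ β : power series)` (unf_eq) and fb_hom: only β with weight β = degree e contribute
(finsum_eq_sum_of_support_subset, MvPolynomial.IsHomogeneous.coeff_eq_zero).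
co_u: MvPowerSeries.coeff_mul over antidiagonal e, subst_fb for every e'; the coefficient of fb Φ β * g is the same antidiagonal sum; degree e' + 1 = degree e
where coeff e'' g ≠ 0. -/

namespace Pool.Agent.LibGF7

open Pool.Agent.LibMX34

private theorem C1b_prod (k : Type) [Field k] {r : ℕ} (Φ : Fin 4 → P k r) (β : Fin (r + 4) →₀ ℕ) :
    (β.prod fun j n => unf k (F0 k Φ) j ^ n) = (fb Φ β : MvPowerSeries (Fin (r + 3)) k) := by
  have h1 : (fb Φ β : MvPowerSeries (Fin (r + 3)) k) = MvPolynomial.coeToMvPowerSeries.ringHom (fb Φ β) := rfl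
  rw [h1]
  unfold fb Finsupp.prod
  rw [map_prod]
  refine Finset.prod_congr rfl fun j _ => ?_
  show unf k (F0 k Φ) j ^ β j = _
  rw [map_pow, unf_eq]
  rfl

theorem subst_fb (k : Type) [Field k] {r : ℕ} (Φ : Fin 4 → P k r) (hΦ : ∀ j, (Φ j).IsHomogeneous 2)
    (η : MvPowerSeries (Fin (r + 4)) k) (e : Fin (r + 3) →₀ ℕ) :
    MvPowerSeries.coeff e (MvPowerSeries.subst (unf k (F0 k Φ)) η) =
      ∑ β ∈ Ew r (Finsupp.degree e), MvPowerSeries.coeff β η * MvPolynomial.coeff e (fb Φ β) := by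
  rw [MvPowerSeries.coeff_subst (MvPowerSeries.hasSubst_of_constantCoeff_zero (unf_const0 k Φ hΦ))]
  have h1 : ∀ β : Fin (r + 4) →₀ ℕ, MvPowerSeries.coeff β η •
      MvPowerSeries.coeff e (β.prod fun j n => unf k (F0 k Φ) j ^ n) = MvPowerSeries.coeff β η * MvPolynomial.coeff e (fb Φ β) := by
    intro β
    rw [C1b_prod, MvPolynomial.coeff_coe, smul_eq_mul]
  rw [finsum_congr h1]
  apply finsum_eq_sum_of_support_subset
  intro β hβ
  rw [Function.mem_support] at hβ
  rw [Finset.mem_coe, mem_Ew]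
  by_contra hne
  apply hβ
  rw [(fb_hom Φ hΦ β).coeff_eq_zero (fun h => hne h.symm), mul_zero]

theorem co_u (k : Type) [Field k] {r : ℕ} (Φ : Fin 4 → P k r) (hΦ : ∀ j, (Φ j).IsHomogeneous 2)
    (ζ : MvPowerSeries (Fin (r + 4)) k) (g : P k r) (hg : g.IsHomogeneous 1) (e : Fin (r + 3) →₀ ℕ) :
    MvPowerSeries.coeff e (MvPowerSeries.subst (unf k (F0 k Φ)) ζ * (g : MvPowerSeries (Fin (r + 3)) k)) =
      ∑ β ∈ EwS r (Finsupp.degree e), MvPowerSeries.coeff β ζ * MvPolynomial.coeff e (fb Φ β * g) := by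
  classical
  rw [MvPowerSeries.coeff_mul]
  have h1 : ∑ β ∈ EwS r (Finsupp.degree e), MvPowerSeries.coeff β ζ * MvPolynomial.coeff e (fb Φ β * g)
      = ∑ x ∈ Finset.HasAntidiagonal.antidiagonal e, ∑ β ∈ EwS r (Finsupp.degree e),
          MvPowerSeries.coeff β ζ * (MvPolynomial.coeff x.1 (fb Φ β) * MvPolynomial.coeff x.2 g) := by
    rw [Finset.sum_comm]
    refine Finset.sum_congr rfl fun β _ => ?_
    rw [MvPolynomial.coeff_mul, Finset.mul_sum]
  rw [h1]
  refine Finset.sum_congr rfl fun x hx => ?_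
  rw [Finset.HasAntidiagonal.mem_antidiagonal] at hx
  rw [MvPolynomial.coeff_coe]
  by_cases hg0 : MvPolynomial.coeff x.2 g = 0
  · rw [hg0, mul_zero]
    symm
    apply Finset.sum_eq_zero
    intro β _
    rw [mul_zero, mul_zero]
  · have h2 : Finsupp.degree x.2 = 1 := by
      by_contra h3
      exact hg0 (hg.coeff_eq_zero h3)
    have h3 : Finsupp.degree x.1 + 1 = Finsupp.degree e := by
      rw [← hx, map_add, h2]
    have h4 : EwS r (Finsupp.degree e) = Ew r (Finsupp.degree x.1) := by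
      ext β
      rw [mem_EwS, mem_Ew, ← h3]
      omega
    rw [subst_fb k Φ hΦ ζ x.1, h4, Finset.sum_mul]
    refine Finset.sum_congr rfl fun β _ => ?_
    ring

end Pool.Agent.LibGF7
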