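import Pool.Agent.LibGF7.A1

set_option autoImplicit false

/-! ROW GF7 C2 (SHORT/MEDIUM). From the reduced tangent space to the full one, over any commutative ring `R` (used for `k` and `k[[s]]`).
PLAN. ξ_(ix i) = b i, ξ_(iu a) = w (ju a) + subst (ζ a); η'_(jy j) = η j, η'_(ju a) = - ζ a. Component `jy j`:
∑_i b i ∂Φ_j/∂x_i + ∑_a (w (ju a) + subst ζ_a) ∂Φ_j/∂u_a + subst (η j) - ... exactly `w (jy j)` by `h`; component `ju a`: ξ_(iu a) * 1 + subst (-ζ a) = w (ju a)
(MvPowerSeries.pderiv_X, unf on Fin.cons). The element ∑ ξ_i ∂(unf)_j/∂x_i is in tangentSource (Submodule.subset_span ⟨ξ, rfl⟩), subst η' in tangentTarget.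
Index sets: every j : Fin (r+4) is jy _ or ju _, every i : Fin (r+3) is ix _ or iu _ (Fin.cases); sums: Fin.sum_univ_succ three (four) times.
full_of_red_zero: the same with w given by its first four components. -/

namespace Pool.Agent.LibGF7

open Pool.Agent.LibMX34

theorem full_of_red {R : Type} [CommRing R] {r : ℕ} (Φ : Fin 4 → MvPowerSeries (Fin (r + 3)) R)
    (hΦ : ∀ j, MvPowerSeries.constantCoeff (Φ j) = 0) (w : Fin (r + 4) → MvPowerSeries (Fin (r + 3)) R)
    (b : Fin 3 → MvPowerSeries (Fin (r + 3)) R) (η : Fin 4 → MvPowerSeries (Fin (r + 4)) R)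
    (ζ : Fin r → MvPowerSeries (Fin (r + 4)) R)
    (h : ∀ j : Fin 4, w (jy j) - ∑ a, w (ju a) * MvPowerSeries.pderiv R (iu a) (Φ j) =
      ∑ i, b i * MvPowerSeries.pderiv R (ix i) (Φ j) + MvPowerSeries.subst (unf R Φ) (η j) +
        ∑ a, MvPowerSeries.subst (unf R Φ) (ζ a) * MvPowerSeries.pderiv R (iu a) (Φ j)) :
    w ∈ tangentSource R (unf R Φ) ⊔ tangentTarget R (unf R Φ) := by
  classical
  set Fm := unf R Φ with hFm
  have hsub : ∀ a : MvPowerSeries (Fin (r + 4)) R, MvPowerSeries.subst Fm (-a) = -MvPowerSeries.subst Fm a := by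
    intro a
    have hF : MvPowerSeries.HasSubst Fm := by
      refine MvPowerSeries.hasSubst_of_constantCoeff_zero fun j => ?_
      rw [hFm]
      unfold unf
      refine Fin.cases ?_ (fun j => ?_) j
      · exact hΦ 0
      refine Fin.cases ?_ (fun j => ?_) j
      · exact hΦ 1
      refine Fin.cases ?_ (fun j => ?_) j
      · exact hΦ 2
      refine Fin.cases ?_ (fun j => ?_) j
      · exact hΦ 3
      · simp only [Fin.cons_succ, MvPowerSeries.constantCoeff_X]
    rw [← MvPowerSeries.coe_substAlgHom hF, map_neg]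
  have key : w = (fun j => ∑ i, (Fin.cons (b 0) (Fin.cons (b 1) (Fin.cons (b 2) fun a : Fin r =>
        w (ju a) + MvPowerSeries.subst Fm (ζ a))) : Fin (r + 3) → MvPowerSeries (Fin (r + 3)) R) i *
        MvPowerSeries.pderiv R i (Fm j)) +
      (fun j => MvPowerSeries.subst Fm ((Fin.cons (η 0) (Fin.cons (η 1) (Fin.cons (η 2) (Fin.cons (η 3) fun a : Fin r =>
        -ζ a))) : Fin (r + 4) → MvPowerSeries (Fin (r + 4)) R) j)) := by
    have hx : ∀ (j : Fin 4), w (jy j) = (∑ i, (Fin.cons (b 0) (Fin.cons (b 1) (Fin.cons (b 2) fun a : Fin r =>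
        w (ju a) + MvPowerSeries.subst Fm (ζ a))) : Fin (r + 3) → MvPowerSeries (Fin (r + 3)) R) i *
        MvPowerSeries.pderiv R i (Φ j)) + MvPowerSeries.subst Fm (η j) := by
      intro j
      have hj := h j
      rw [Fin.sum_univ_succ, Fin.sum_univ_succ, Fin.sum_univ_succ]
      simp only [Fin.cons_zero, Fin.cons_succ]
      rw [sub_eq_iff_eq_add] at hj
      rw [hj, Fin.sum_univ_three]
      simp only [add_mul, Finset.sum_add_distrib]
      change b 0 * MvPowerSeries.pderiv R (ix 0) (Φ j) + b 1 * MvPowerSeries.pderiv R (ix 1) (Φ j) + b 2 * MvPowerSeries.pderiv R (ix 2) (Φ j) +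
          MvPowerSeries.subst Fm (η j) + ∑ a, MvPowerSeries.subst Fm (ζ a) * MvPowerSeries.pderiv R (iu a) (Φ j) +
          ∑ a, w (ju a) * MvPowerSeries.pderiv R (iu a) (Φ j) =
        b 0 * MvPowerSeries.pderiv R (ix 0) (Φ j) + (b 1 * MvPowerSeries.pderiv R (ix 1) (Φ j) + (b 2 * MvPowerSeries.pderiv R (ix 2) (Φ j) +
          (∑ a, w (ju a) * MvPowerSeries.pderiv R (iu a) (Φ j) +
          ∑ a, MvPowerSeries.subst Fm (ζ a) * MvPowerSeries.pderiv R (iu a) (Φ j)))) + MvPowerSeries.subst Fm (η j)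
      ring
    have hu : ∀ (a : Fin r), w (ju a) = (∑ i, (Fin.cons (b 0) (Fin.cons (b 1) (Fin.cons (b 2) fun a : Fin r =>
        w (ju a) + MvPowerSeries.subst Fm (ζ a))) : Fin (r + 3) → MvPowerSeries (Fin (r + 3)) R) i *
        MvPowerSeries.pderiv R i (MvPowerSeries.X (a.succ.succ.succ : Fin (r + 3)))) + MvPowerSeries.subst Fm (-ζ a) := by
      intro a
      rw [Finset.sum_eq_single (a.succ.succ.succ : Fin (r + 3))]
      · rw [MvPowerSeries.pderiv_X_self, mul_one, hsub]
        simp only [Fin.cons_succ]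
        ring
      · intro i _ hi
        rw [MvPowerSeries.pderiv_X_of_ne (Ne.symm hi), mul_zero]
      · intro hi
        exact absurd (Finset.mem_univ _) hi
    funext j
    rw [Pi.add_apply]
    refine Fin.cases ?_ (fun j => ?_) j
    · exact hx 0
    refine Fin.cases ?_ (fun j => ?_) j
    · exact hx 1
    refine Fin.cases ?_ (fun j => ?_) j
    · exact hx 2
    refine Fin.cases ?_ (fun j => ?_) j
    · exact hx 3
    · exact hu j
  rw [key]
  refine Submodule.add_mem_sup (Submodule.subset_span ⟨_, rfl⟩) (Submodule.subset_span ⟨_, rfl⟩)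

end Pool.Agent.LibGF7
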