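import Pool.Agent.LibGF7.C1b
import Pool.Agent.LibGF7.C2

set_option autoImplicit false

/-! ROW GF7 C3 (MEDIUM). `T1` of the power series germ is finite if it vanishes in all degrees `≥ N` for polynomials.
PLAN. red_of_van: let `v^(m)` be the homogeneous part of degree `m` of `v` (polynomial vector: coefficients at the exponents of degree m; it is 0 for
m < N, in SR Φ m for m ≥ N). SR_coeffs: an element of SR Φ m is ∑_i ∑_(α ∈ ExS) B i α • gX Φ i α + ∑_j ∑_(β ∈ Ew) H j β • gY Φ j β + ∑_a ∑_(β ∈ EwS) Z a β • gU Φ a β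
(Submodule.span_induction). Choose B, H, Z for every m and put b i = fun α => B^(degree α + 1) i α, η j = fun β => H^(weight β) j β,
ζ a = fun β => Z^(weight β + 1) a β. Compare the coefficients at `e` by co_x, subst_fb, co_u (C1): both sides are coeff e (v^(degree e) j).
t1_finite: U = {w | all coefficients of degree < N of all components vanish} is the kernel of a linear map into a finite dimensional space
((Fin (r+4) × {e // degree e < N}) → k, finite type), and U ≤ tS ⊔ tT by red_of_van applied to w (jy j) - ∑ w (ju a) ∂Φ_j/∂u_a and full_of_red. So T1 is a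
quotient of a finite dimensional space (Submodule.factor / Module.Finite.of_surjective). -/

namespace Pool.Agent.LibGF7

open Pool.Agent.LibMX34

private theorem C3_single {k M ι κ : Type} [Field k] [AddCommGroup M] [Module k M] [Fintype ι]
    [DecidableEq ι] [DecidableEq κ] (S : Finset κ) (g : ι → κ → M) (i₀ : ι) (a₀ : κ) (h : a₀ ∈ S) :
    ∑ i, ∑ a ∈ S, (if i = i₀ ∧ a = a₀ then (1 : k) else 0) • g i a = g i₀ a₀ := by
  rw [Finset.sum_eq_single i₀]
  · rw [Finset.sum_eq_single a₀]
    · simp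
    · intro b _ hb
      simp [hb]
    · intro h'
      exact absurd h h'
  · intro i _ hi
    apply Finset.sum_eq_zero
    intro a _
    simp [hi]
  · intro h'
    exact absurd (Finset.mem_univ i₀) h'

private theorem C3_zero {k M ι κ : Type} [Field k] [AddCommGroup M] [Module k M] [Fintype ι]
    (S : Finset κ) (g : ι → κ → M) :
    ∑ i, ∑ a ∈ S, ((0 : ι → κ → k) i a) • g i a = 0 := by
  simp

private theorem C3_add {k M ι κ : Type} [Field k] [AddCommGroup M] [Module k M] [Fintype ι]
    (S : Finset κ) (g : ι → κ → M) (x y : ι → κ → k) :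
    ∑ i, ∑ a ∈ S, ((x + y) i a) • g i a =
      ∑ i, ∑ a ∈ S, (x i a) • g i a + ∑ i, ∑ a ∈ S, (y i a) • g i a := by
  simp [add_smul, Finset.sum_add_distrib]

private theorem C3_smul {k M ι κ : Type} [Field k] [AddCommGroup M] [Module k M] [Fintype ι]
    (S : Finset κ) (g : ι → κ → M) (c : k) (x : ι → κ → k) :
    ∑ i, ∑ a ∈ S, ((c • x) i a) • g i a = c • ∑ i, ∑ a ∈ S, (x i a) • g i a := by
  simp [mul_smul, Finset.smul_sum]

theorem SR_coeffs (k : Type) [Field k] {r : ℕ} (Φ : Fin 4 → P k r) (m : ℕ) (v : Fin 4 → P k r) (hv : v ∈ SR Φ m) :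
    ∃ (B : Fin 3 → (Fin (r + 3) →₀ ℕ) → k) (H : Fin 4 → (Fin (r + 4) →₀ ℕ) → k) (Z : Fin r → (Fin (r + 4) →₀ ℕ) → k),
      v = ∑ i, ∑ α ∈ ExS (r + 3) m, B i α • gX Φ i α + ∑ j, ∑ β ∈ Ew r m, H j β • gY Φ j β +
        ∑ a, ∑ β ∈ EwS r m, Z a β • gU Φ a β := by
  classical
  unfold SR at hv
  induction hv using Submodule.span_induction with
  | mem v hv =>
    rcases hv with (⟨i, α, hα, rfl⟩ | ⟨j₀, β, hβ, rfl⟩) | ⟨a, β, hβ, rfl⟩
    · refine ⟨fun i' α' => if i' = i ∧ α' = α then 1 else 0, 0, 0, ?_⟩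
      rw [C3_single (ExS (r + 3) m) (gX Φ) i α ((mem_ExS α).2 hα), C3_zero, C3_zero, add_zero, add_zero]
    · refine ⟨0, fun i' α' => if i' = j₀ ∧ α' = β then 1 else 0, 0, ?_⟩
      rw [C3_single (Ew r m) (gY Φ) j₀ β ((mem_Ew β).2 hβ), C3_zero, C3_zero, add_zero, zero_add]
    · refine ⟨0, 0, fun i' α' => if i' = a ∧ α' = β then 1 else 0, ?_⟩
      rw [C3_single (EwS r m) (gU Φ) a β ((mem_EwS β).2 hβ), C3_zero, C3_zero, zero_add, zero_add]
  | zero =>
    refine ⟨0, 0, 0, ?_⟩
    rw [C3_zero, C3_zero, C3_zero, add_zero, add_zero]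
  | add x y _ _ hx hy =>
    obtain ⟨B, H, Z, hx⟩ := hx
    obtain ⟨B', H', Z', hy⟩ := hy
    refine ⟨B + B', H + H', Z + Z', ?_⟩
    rw [C3_add, C3_add, C3_add, hx, hy]
    abel
  | smul c x _ hx =>
    obtain ⟨B, H, Z, hx⟩ := hx
    refine ⟨c • B, c • H, c • Z, ?_⟩
    rw [C3_smul, C3_smul, C3_smul, hx, smul_add, smul_add]

/-- the homogeneous part of degree `m` of a power series -/
private noncomputable def hpart {k : Type} [Field k] {n : ℕ} (m : ℕ) (g : MvPowerSeries (Fin n) k) :
    MvPolynomial (Fin n) k :=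
  ∑ e ∈ ExS n (m + 1), MvPolynomial.monomial e (MvPowerSeries.coeff e g)

private theorem hpart_hom {k : Type} [Field k] {n : ℕ} (m : ℕ) (g : MvPowerSeries (Fin n) k) :
    (hpart m g).IsHomogeneous m := by
  apply MvPolynomial.IsHomogeneous.sum
  intro e he
  rw [mem_ExS] at he
  apply MvPolynomial.isHomogeneous_monomial
  omega

private theorem coeff_hpart {k : Type} [Field k] {n : ℕ} (g : MvPowerSeries (Fin n) k) (e : Fin n →₀ ℕ) :
    MvPolynomial.coeff e (hpart (Finsupp.degree e) g) = MvPowerSeries.coeff e g := by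
  classical
  unfold hpart
  rw [MvPolynomial.coeff_sum, Finset.sum_eq_single e]
  · rw [MvPolynomial.coeff_monomial, if_pos rfl]
  · intro b _ hb
    rw [MvPolynomial.coeff_monomial, if_neg hb]
  · intro h
    exact absurd ((mem_ExS e).2 rfl) h

private theorem hpart_zero {k : Type} [Field k] {n : ℕ} (m N : ℕ) (hm : m < N) (g : MvPowerSeries (Fin n) k)
    (hg : ∀ e : Fin n →₀ ℕ, Finsupp.degree e < N → MvPowerSeries.coeff e g = 0) : hpart m g = 0 := by
  unfold hpart
  apply Finset.sum_eq_zero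
  intro e he
  rw [mem_ExS] at he
  rw [hg e (by omega), map_zero]

/-- the power series with given coefficients -/
private def C3_mk {k : Type} [Field k] {n : ℕ} (c : (Fin n →₀ ℕ) → k) : MvPowerSeries (Fin n) k := c

private theorem C3_coeff_mk {k : Type} [Field k] {n : ℕ} (c : (Fin n →₀ ℕ) → k) (e : Fin n →₀ ℕ) :
    MvPowerSeries.coeff e (C3_mk c) = c e := rfl

theorem red_of_van (k : Type) [Field k] {r : ℕ} (Φ : Fin 4 → P k r) (hΦ : ∀ j, (Φ j).IsHomogeneous 2) (N : ℕ)
    (hV : ∀ m, N ≤ m → VanAt Φ m) (v : Fin 4 → MvPowerSeries (Fin (r + 3)) k)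
    (hv : ∀ j (e : Fin (r + 3) →₀ ℕ), Finsupp.degree e < N → MvPowerSeries.coeff e (v j) = 0) :
    ∃ (b : Fin 3 → MvPowerSeries (Fin (r + 3)) k) (η : Fin 4 → MvPowerSeries (Fin (r + 4)) k)
      (ζ : Fin r → MvPowerSeries (Fin (r + 4)) k), ∀ j, v j =
      ∑ i, b i * MvPowerSeries.pderiv k (ix i) (F0 k Φ j) + MvPowerSeries.subst (unf k (F0 k Φ)) (η j) +
        ∑ a, MvPowerSeries.subst (unf k (F0 k Φ)) (ζ a) * MvPowerSeries.pderiv k (iu a) (F0 k Φ j) := by
  classical
  have hmem : ∀ m, (fun j => hpart m (v j)) ∈ SR Φ m := by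
    intro m
    by_cases hm : N ≤ m
    · exact hV m hm _ (fun j => hpart_hom m (v j))
    · have h0 : (fun j => hpart m (v j)) = 0 := by
        funext j
        exact hpart_zero m N (by omega) (v j) (hv j)
      rw [h0]
      exact Submodule.zero_mem _
  choose B H Z hB using fun m => SR_coeffs k Φ m _ (hmem m)
  refine ⟨fun i => C3_mk fun α => B (Finsupp.degree α + 1) i α,
    fun j => C3_mk fun β => H (Finsupp.weight (wt r) β) j β,
    fun a => C3_mk fun β => Z (Finsupp.weight (wt r) β + 1) a β, fun j => ?_⟩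
  have hpd : ∀ i, (MvPolynomial.pderiv i (Φ j)).IsHomogeneous 1 := by
    intro i
    exact (hΦ j).pderiv
  ext e
  rw [← coeff_hpart (v j) e, map_add, map_add, map_sum, map_sum]
  have hBe := congrArg (fun w => MvPolynomial.coeff e (w j)) (hB (Finsupp.degree e))
  simp only [Pi.add_apply, Finset.sum_apply, Pi.smul_apply, MvPolynomial.coeff_add, MvPolynomial.coeff_sum,
    MvPolynomial.coeff_smul, smul_eq_mul] at hBe
  rw [hBe]
  congr 1
  · congr 1
    · apply Finset.sum_congr rfl
      intro i _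
      rw [show MvPowerSeries.pderiv k (ix i) (F0 k Φ j) =
        ((MvPolynomial.pderiv (ix i) (Φ j) : MvPolynomial (Fin (r + 3)) k) : MvPowerSeries (Fin (r + 3)) k) from
        MvPowerSeries.pderiv_coe _, co_x _ _ (hpd _)]
      apply Finset.sum_congr rfl
      intro α hα
      rw [mem_ExS] at hα
      rw [C3_coeff_mk, hα]
      rfl
    · rw [subst_fb k Φ hΦ, Finset.sum_eq_single j]
      · apply Finset.sum_congr rfl
        intro β hβ
        rw [mem_Ew] at hβ
        rw [C3_coeff_mk, hβ]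
        unfold gY
        rw [if_pos rfl]
      · intro j' _ hj'
        apply Finset.sum_eq_zero
        intro β _
        unfold gY
        rw [if_neg (fun h => hj' h.symm), MvPolynomial.coeff_zero, mul_zero]
      · intro h
        exact absurd (Finset.mem_univ j) h
  · apply Finset.sum_congr rfl
    intro a _
    rw [show MvPowerSeries.pderiv k (iu a) (F0 k Φ j) =
      ((MvPolynomial.pderiv (iu a) (Φ j) : MvPolynomial (Fin (r + 3)) k) : MvPowerSeries (Fin (r + 3)) k) from
      MvPowerSeries.pderiv_coe _, co_u k Φ hΦ _ _ (hpd _)]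
    apply Finset.sum_congr rfl
    intro β hβ
    rw [mem_EwS] at hβ
    rw [C3_coeff_mk, hβ]
    rfl

end Pool.Agent.LibGF7
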