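import Pool.Agent.LibGF7.C1b
import Pool.Agent.LibMX34.I4

set_option autoImplicit false

/-! ROW GF7 D (MEDIUM). A functional on one degree, killing the tangent space and `O ψ`, shows that `t` is not in it.
PLAN. Let L(w) = ∑ j, ∑ e ∈ S, lam j e * MvPowerSeries.coeff e (w j) for power series vectors `w : Fin 4 → MvPowerSeries`; on polynomial vectors it is `Lf`.
By C1 (all e ∈ S have degree m): L(b ∂Φ/∂x_i) = ∑_(α ∈ ExS m) b_α Lf (gX Φ i α) = 0, L(subst η e_j) = ∑_(β ∈ Ew m) η_β Lf (gY Φ j β) = 0,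
L(subst ζ ∂Φ/∂u_a) = 0 and L(subst c ψ) = 0 (exchange the sums).
not_mem: if the vector is in tS ⊔ tT, W_eq (LibMX34.I4) gives a, η with t j - subst c ψ'_j = ∑_i a_i ∂(unf)_j/∂x_i + subst (η j) for all j : Fin (r+4); the
component ju a' (ψ' = 0 there) gives a_(iu a') = t (ju a') - subst (η (ju a')); put it into the components jy j:
t (jy j) - ∑ t (ju a') ∂Φ_j/∂u_a' = ∑_i a_(ix i) ∂Φ_j/∂x_i - ∑_a' subst (η (ju a')) ∂Φ_j/∂u_a' + subst (η (jy j)) + subst c ψ_j, and L of the right side is 0.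
not_mem_int: the version with integer data; the hypotheses are images under ℤ → k. -/

namespace Pool.Agent.LibGF7

open Pool.Agent.LibMX34

/-- `(ψ_1, .., ψ_4, 0, .., 0)` -/
noncomputable def padP {K : Type} [CommRing K] {r : ℕ} (ψ : Fin 4 → P K r) : Fin (r + 4) → P K r :=
  Fin.cons (ψ 0) (Fin.cons (ψ 1) (Fin.cons (ψ 2) (Fin.cons (ψ 3) fun _ : Fin r => 0)))

/-- splitting a sum over the source variables -/
private theorem sum_split {M : Type} [AddCommMonoid M] {r : ℕ} (g : Fin (r + 3) → M) :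
    ∑ i, g i = ∑ i : Fin 3, g (ix i) + ∑ a : Fin r, g (iu a) := by
  rw [Fin.sum_univ_succ, Fin.sum_univ_succ, Fin.sum_univ_succ, Fin.sum_univ_three]
  have e0 : (ix 0 : Fin (r + 3)) = 0 := rfl
  have e1 : (ix 1 : Fin (r + 3)) = (0 : Fin (r + 2)).succ := rfl
  have e2 : (ix 2 : Fin (r + 3)) = (0 : Fin (r + 1)).succ.succ := rfl
  rw [e0, e1, e2]
  simp only [iu, add_assoc]

/-- the functional on power series vectors -/
private noncomputable def LP {k : Type} [Field k] {r : ℕ} (S : Finset (Fin (r + 3) →₀ ℕ))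
    (lam : Fin 4 → (Fin (r + 3) →₀ ℕ) → k) : (Fin 4 → MvPowerSeries (Fin (r + 3)) k) →ₗ[k] k where
  toFun w := ∑ j, ∑ e ∈ S, lam j e * MvPowerSeries.coeff e (w j)
  map_add' x y := by
    simp only [Pi.add_apply, map_add, mul_add, Finset.sum_add_distrib]
  map_smul' c x := by
    simp only [Pi.smul_apply, map_smul, smul_eq_mul, RingHom.id_apply, Finset.mul_sum]
    refine Finset.sum_congr rfl fun j _ => Finset.sum_congr rfl fun e _ => ?_
    ring

private theorem LP_apply {k : Type} [Field k] {r : ℕ} (S : Finset (Fin (r + 3) →₀ ℕ))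
    (lam : Fin 4 → (Fin (r + 3) →₀ ℕ) → k) (w : Fin 4 → MvPowerSeries (Fin (r + 3)) k) :
    LP S lam w = ∑ j, ∑ e ∈ S, lam j e * MvPowerSeries.coeff e (w j) := rfl

private theorem LP_coe {k : Type} [Field k] {r : ℕ} (S : Finset (Fin (r + 3) →₀ ℕ))
    (lam : Fin 4 → (Fin (r + 3) →₀ ℕ) → k) (w : Fin 4 → P k r) :
    LP S lam (fun j => (w j : MvPowerSeries (Fin (r + 3)) k)) = Lf S lam w := by
  simp only [LP_apply, Lf, MvPolynomial.coeff_coe]

/-- exchange of sums -/
private theorem LP_expand {k : Type} [Field k] {r : ℕ} {ι : Type} (S : Finset (Fin (r + 3) →₀ ℕ))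
    (lam : Fin 4 → (Fin (r + 3) →₀ ℕ) → k) (w : Fin 4 → MvPowerSeries (Fin (r + 3)) k)
    (T : Finset ι) (c : ι → k) (v : ι → Fin 4 → P k r)
    (hw : ∀ j, ∀ e ∈ S, MvPowerSeries.coeff e (w j) = ∑ x ∈ T, c x * MvPolynomial.coeff e (v x j))
    (h0 : ∀ x ∈ T, Lf S lam (v x) = 0) : LP S lam w = 0 := by
  rw [LP_apply]
  have h1 : ∑ j, ∑ e ∈ S, lam j e * MvPowerSeries.coeff e (w j) = ∑ x ∈ T, c x * Lf S lam (v x) := by
    have h2 : ∀ j : Fin 4, ∑ e ∈ S, lam j e * MvPowerSeries.coeff e (w j) =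
        ∑ x ∈ T, ∑ e ∈ S, c x * (lam j e * MvPolynomial.coeff e (v x j)) := by
      intro j
      rw [Finset.sum_comm]
      refine Finset.sum_congr rfl fun e he => ?_
      rw [hw j e he, Finset.mul_sum]
      exact Finset.sum_congr rfl fun x _ => by ring
    rw [Finset.sum_congr rfl fun j _ => h2 j, Finset.sum_comm]
    refine Finset.sum_congr rfl fun x _ => ?_
    simp only [Lf, Finset.mul_sum]
  rw [h1]
  exact Finset.sum_eq_zero fun x hx => by rw [h0 x hx, mul_zero]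

theorem not_mem (k : Type) [Field k] {r : ℕ} (Φ ψ : Fin 4 → P k r) (hΦ : ∀ j, (Φ j).IsHomogeneous 2) (hψ : ∀ j, (ψ j).IsHomogeneous 1)
    (m : ℕ) (S : Finset (Fin (r + 3) →₀ ℕ)) (hS : ∀ e ∈ S, Finsupp.degree e = m) (lam : Fin 4 → (Fin (r + 3) →₀ ℕ) → k)
    (h1 : ∀ i α, Finsupp.degree α + 1 = m → Lf S lam (gX Φ i α) = 0)
    (h2 : ∀ j₀ β, Finsupp.weight (wt r) β = m → Lf S lam (gY Φ j₀ β) = 0)
    (h3 : ∀ a β, Finsupp.weight (wt r) β + 1 = m → Lf S lam (gU Φ a β) = 0)
    (h4 : ∀ β, Finsupp.weight (wt r) β + 1 = m → Lf S lam (fun j => fb Φ β * ψ j) = 0)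
    (t : Fin (r + 4) → P k r)
    (h5 : Lf S lam (fun j => t (jy j) - ∑ a, t (ju a) * MvPolynomial.pderiv (iu a) (Φ j)) ≠ 0)
    (c : MvPowerSeries (Fin (r + 4)) k) :
    (fun j => (t j : MvPowerSeries (Fin (r + 3)) k) -
      MvPowerSeries.subst (unf k (F0 k Φ)) c * (padP ψ j : MvPowerSeries (Fin (r + 3)) k)) ∉
      tangentSource k (unf k (F0 k Φ)) ⊔ tangentTarget k (unf k (F0 k Φ)) := by
  classical
  intro hmem
  have hc0 := unf_const0 k Φ hΦ
  have hf : MvPowerSeries.HasSubst (unf k (F0 k Φ)) := MvPowerSeries.hasSubst_of_constantCoeff_zero hc0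
  obtain ⟨a, η, hv⟩ := (W_eq k (unf k (F0 k Φ)) hf _).2 hmem
  simp only [MvPowerSeries.coe_substAlgHom] at hv
  -- the components `ju a'`
  have hju : ∀ a' : Fin r, a (iu a') = (t (ju a') : MvPowerSeries (Fin (r + 3)) k) -
      MvPowerSeries.subst (unf k (F0 k Φ)) (η (ju a')) := by
    intro a'
    have h := hv (ju a')
    have e1 : padP ψ (ju a') = 0 := rfl
    have e2 : unf k (F0 k Φ) (ju a') = ((MvPolynomial.X (iu a') : P k r) : MvPowerSeries (Fin (r + 3)) k) := by
      rw [unf_eq, unfP_ju]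
    have e3 : ∀ i : Fin (r + 3), a i * MvPowerSeries.pderiv k i (unf k (F0 k Φ) (ju a')) =
        if i = iu a' then a i else 0 := by
      intro i
      rw [e2, MvPowerSeries.pderiv_coe, MvPolynomial.pderiv_X]
      by_cases hi : i = iu a'
      · subst hi
        rw [Pi.single_eq_same, if_pos rfl, MvPolynomial.coe_one, mul_one]
      · rw [if_neg hi, Pi.single_eq_of_ne (Ne.symm hi), MvPolynomial.coe_zero, mul_zero]
    rw [e1, MvPolynomial.coe_zero, mul_zero, sub_zero] at h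
    simp only [e3] at h
    rw [Finset.sum_ite_eq' Finset.univ (iu a') a, if_pos (Finset.mem_univ _)] at h
    rw [h]
    ring
  -- the components `jy j`
  have hjy : ∀ j : Fin 4, ((t (jy j) - ∑ a', t (ju a') * MvPolynomial.pderiv (iu a') (Φ j) : P k r) :
      MvPowerSeries (Fin (r + 3)) k) =
      ∑ i : Fin 3, a (ix i) * ((MvPolynomial.pderiv (ix i) (Φ j) : P k r) : MvPowerSeries (Fin (r + 3)) k) -
      ∑ a', MvPowerSeries.subst (unf k (F0 k Φ)) (η (ju a')) *
        ((MvPolynomial.pderiv (iu a') (Φ j) : P k r) : MvPowerSeries (Fin (r + 3)) k) +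
      MvPowerSeries.subst (unf k (F0 k Φ)) (η (jy j)) +
      MvPowerSeries.subst (unf k (F0 k Φ)) c * (ψ j : MvPowerSeries (Fin (r + 3)) k) := by
    intro j
    have h := hv (jy j)
    have e1 : padP ψ (jy j) = ψ j := by fin_cases j <;> rfl
    have e2 : unf k (F0 k Φ) (jy j) = (Φ j : MvPowerSeries (Fin (r + 3)) k) := by
      rw [unf_eq, unfP_jy]
    rw [e1, e2, sum_split] at h
    simp only [MvPowerSeries.pderiv_coe] at h
    have h' : ((t (jy j) - ∑ a', t (ju a') * MvPolynomial.pderiv (iu a') (Φ j) : P k r) :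
        MvPowerSeries (Fin (r + 3)) k) = (t (jy j) : MvPowerSeries (Fin (r + 3)) k) -
        ∑ a', (t (ju a') : MvPowerSeries (Fin (r + 3)) k) *
          ((MvPolynomial.pderiv (iu a') (Φ j) : P k r) : MvPowerSeries (Fin (r + 3)) k) := by
      rw [← MvPolynomial.coeToMvPowerSeries.ringHom_apply, map_sub, map_sum]
      simp only [map_mul, MvPolynomial.coeToMvPowerSeries.ringHom_apply]
    rw [h', sub_eq_iff_eq_add.1 h]
    simp only [hju, sub_mul, Finset.sum_sub_distrib]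
    ring
  apply h5
  rw [← LP_coe]
  have hw : (fun j => ((t (jy j) - ∑ a', t (ju a') * MvPolynomial.pderiv (iu a') (Φ j) : P k r) :
      MvPowerSeries (Fin (r + 3)) k)) =
      ∑ i : Fin 3, (fun j => a (ix i) * ((MvPolynomial.pderiv (ix i) (Φ j) : P k r) : MvPowerSeries (Fin (r + 3)) k)) -
      ∑ a', (fun j => MvPowerSeries.subst (unf k (F0 k Φ)) (η (ju a')) *
        ((MvPolynomial.pderiv (iu a') (Φ j) : P k r) : MvPowerSeries (Fin (r + 3)) k)) +
      ∑ j₀ : Fin 4, (fun j => if j = j₀ then MvPowerSeries.subst (unf k (F0 k Φ)) (η (jy j₀)) else 0) +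
      fun j => MvPowerSeries.subst (unf k (F0 k Φ)) c * (ψ j : MvPowerSeries (Fin (r + 3)) k) := by
    funext j
    rw [hjy j]
    simp only [Pi.add_apply, Pi.sub_apply, Finset.sum_apply]
    rw [Finset.sum_ite_eq Finset.univ j, if_pos (Finset.mem_univ _)]
  have hd : ∀ (i : Fin (r + 3)) j, (MvPolynomial.pderiv i (Φ j)).IsHomogeneous 1 := fun i j => by
    simpa using (hΦ j).pderiv (i := i)
  rw [hw, map_add, map_add, map_sub, map_sum, map_sum, map_sum]
  rw [Finset.sum_eq_zero, Finset.sum_eq_zero, Finset.sum_eq_zero, sub_zero, add_zero, zero_add]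
  · -- `subst c ψ`
    refine LP_expand S lam _ (EwS r m) (fun β => MvPowerSeries.coeff β c) (fun β j => fb Φ β * ψ j) ?_ ?_
    · intro j e he
      rw [co_u k Φ hΦ c (ψ j) (hψ j) e, hS e he]
    · intro β hβ
      exact h4 β ((mem_EwS β).1 hβ)
  · -- `subst η e_j`
    intro j₀ _
    refine LP_expand S lam _ (Ew r m) (fun β => MvPowerSeries.coeff β (η (jy j₀))) (fun β => gY Φ j₀ β) ?_ ?_
    · intro j e he
      by_cases hj : j = j₀
      · simp only [gY, if_pos hj]
        rw [subst_fb k Φ hΦ, hS e he]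
      · simp only [gY, if_neg hj]
        simp
    · intro β hβ
      exact h2 j₀ β ((mem_Ew β).1 hβ)
  · -- `subst ζ ∂Φ/∂u_a`
    intro a' _
    refine LP_expand S lam _ (EwS r m) (fun β => MvPowerSeries.coeff β (η (ju a'))) (fun β => gU Φ a' β) ?_ ?_
    · intro j e he
      rw [co_u k Φ hΦ _ _ (hd _ j) e, hS e he]
      rfl
    · intro β hβ
      exact h3 a' β ((mem_EwS β).1 hβ)
  · -- `b ∂Φ/∂x_i`
    intro i _
    refine LP_expand S lam _ (ExS (r + 3) m) (fun α => MvPowerSeries.coeff α (a (ix i))) (fun α => gX Φ i α) ?_ ?_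
    · intro j e he
      rw [co_x _ _ (hd _ j) e, hS e he]
      rfl
    · intro α hα
      exact h1 i α ((mem_ExS α).1 hα)

end Pool.Agent.LibGF7
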