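import Pool.Agent.LibMX34.IDefs

set_option autoImplicit false

/-! MP_ed98ad_ag (Mond's conjecture is false), block F: from graded polynomial statements to power series.

Source variables `x, y, z, u_1, .., u_r` (indices `ix 0, ix 1, ix 2, iu a`), all of weight 1; target variables `Y_1, .., Y_4` (weight 2) and
`u_1, .., u_r` (weight 1). `Φ_1, .., Φ_4` are homogeneous of degree 2. `T1` of the unfolding `(Φ, u)` is `B^4` modulo
`B ∂Φ/∂x_i + O e_j + O ∂Φ/∂u_a`; `SR Φ m` is the part of degree `m` of this submodule. -/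

namespace Pool.Agent.LibGF7

open Pool.Agent.LibMX34

/-- polynomials in `x, y, z, u_1, .., u_r` -/
abbrev P (K : Type) [CommRing K] (r : ℕ) : Type := MvPolynomial (Fin (r + 3)) K

/-- the variables `x, y, z` -/
def ix {r : ℕ} (i : Fin 3) : Fin (r + 3) := Fin.castLE (by omega) i

/-- the variables `u_a` of the source -/
def iu {r : ℕ} (a : Fin r) : Fin (r + 3) := a.succ.succ.succ

/-- the variables `Y_j` of the target -/
def jy {r : ℕ} (j : Fin 4) : Fin (r + 4) := Fin.castLE (by omega) j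

/-- the variables `u_a` of the target -/
def ju {r : ℕ} (a : Fin r) : Fin (r + 4) := a.succ.succ.succ.succ

/-- the unfolding `(Φ_1, .., Φ_4, u_1, .., u_r)`, polynomials -/
noncomputable def unfP {K : Type} [CommRing K] {r : ℕ} (Φ : Fin 4 → P K r) : Fin (r + 4) → P K r :=
  Fin.cons (Φ 0) (Fin.cons (Φ 1) (Fin.cons (Φ 2) (Fin.cons (Φ 3) fun a : Fin r => MvPolynomial.X a.succ.succ.succ)))

/-- the weights of the target variables -/
def wt (r : ℕ) (j : Fin (r + 4)) : ℕ := if (j : ℕ) < 4 then 2 else 1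

/-- `f^*(Y^β u^β)` -/
noncomputable def fb {K : Type} [CommRing K] {r : ℕ} (Φ : Fin 4 → P K r) (β : Fin (r + 4) →₀ ℕ) : P K r :=
  β.prod fun j n => unfP Φ j ^ n

/-- `x^α ∂Φ/∂x_i` -/
noncomputable def gX {K : Type} [CommRing K] {r : ℕ} (Φ : Fin 4 → P K r) (i : Fin 3) (α : Fin (r + 3) →₀ ℕ) : Fin 4 → P K r :=
  fun j => MvPolynomial.monomial α 1 * MvPolynomial.pderiv (ix i) (Φ j)

/-- `f^*(Y^β u^β) e_{j₀}` -/
noncomputable def gY {K : Type} [CommRing K] {r : ℕ} (Φ : Fin 4 → P K r) (j₀ : Fin 4) (β : Fin (r + 4) →₀ ℕ) : Fin 4 → P K r :=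
  fun j => if j = j₀ then fb Φ β else 0

/-- `f^*(Y^β u^β) ∂Φ/∂u_a` -/
noncomputable def gU {K : Type} [CommRing K] {r : ℕ} (Φ : Fin 4 → P K r) (a : Fin r) (β : Fin (r + 4) →₀ ℕ) : Fin 4 → P K r :=
  fun j => fb Φ β * MvPolynomial.pderiv (iu a) (Φ j)

/-- the part of degree `m` of the reduced tangent space -/
noncomputable def SR {K : Type} [CommRing K] {r : ℕ} (Φ : Fin 4 → P K r) (m : ℕ) : Submodule K (Fin 4 → P K r) :=
  Submodule.span K ({v | ∃ i α, Finsupp.degree α + 1 = m ∧ v = gX Φ i α} ∪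
    {v | ∃ j₀ β, Finsupp.weight (wt r) β = m ∧ v = gY Φ j₀ β} ∪
    {v | ∃ a β, Finsupp.weight (wt r) β + 1 = m ∧ v = gU Φ a β})

/-- `T1` vanishes in degree `m` -/
def VanAt {K : Type} [CommRing K] {r : ℕ} (Φ : Fin 4 → P K r) (m : ℕ) : Prop :=
  ∀ v : Fin 4 → P K r, (∀ j, (v j).IsHomogeneous m) → v ∈ SR Φ m

/-- change of the coefficients -/
noncomputable def cg {K : Type} [CommRing K] (K' : Type) [CommRing K'] [Algebra K K'] {r : ℕ} (Φ : Fin 4 → P K r) : Fin 4 → P K' r :=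
  fun j => MvPolynomial.map (algebraMap K K') (Φ j)

/-- `Φ + u_{r+1} ψ`: the family with `s` as one more parameter -/
noncomputable def ext {K : Type} [CommRing K] {r : ℕ} (Φ ψ : Fin 4 → P K r) : Fin 4 → P K (r + 1) :=
  fun j => MvPolynomial.rename (fun i : Fin (r + 3) => (i.castSucc : Fin (r + 3 + 1))) (Φ j) +
    MvPolynomial.X (Fin.last (r + 3)) * MvPolynomial.rename (fun i : Fin (r + 3) => (i.castSucc : Fin (r + 3 + 1))) (ψ j)

/-- a polynomial over `k` as a power series over `k[[s]]` -/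
noncomputable def toS (k : Type) [Field k] {σ : Type} (q : MvPolynomial σ k) : MvPowerSeries σ (PowerSeries k) :=
  ((MvPolynomial.map (algebraMap k (PowerSeries k)) q : MvPolynomial σ (PowerSeries k)) : MvPowerSeries σ (PowerSeries k))

/-- `Φ + s ψ` over `k[[s]]` -/
noncomputable def FS (k : Type) [Field k] {r : ℕ} (Φ ψ : Fin 4 → P k r) : Fin 4 → MvPowerSeries (Fin (r + 3)) (PowerSeries k) :=
  fun j => toS k (Φ j) + sV k * toS k (ψ j)

/-- `Φ` as power series -/
noncomputable def F0 (k : Type) [Field k] {r : ℕ} (Φ : Fin 4 → P k r) : Fin 4 → MvPowerSeries (Fin (r + 3)) k :=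
  fun j => (Φ j : MvPowerSeries (Fin (r + 3)) k)

/-- the functional with coefficients `lam` on the exponents in `S` -/
noncomputable def Lf {K : Type} [CommRing K] {r : ℕ} (S : Finset (Fin (r + 3) →₀ ℕ)) (lam : Fin 4 → (Fin (r + 3) →₀ ℕ) → K)
    (v : Fin 4 → P K r) : K :=
  ∑ j, ∑ e ∈ S, lam j e * MvPolynomial.coeff e (v j)

end Pool.Agent.LibGF7
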