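import Pool.Agent.LibGF7.A1
import Pool.Agent.LibMX34.I4

set_option autoImplicit false

/-! ROW GF7 E1 (MEDIUM). The family `F = Φ + s ψ` over `k[[s]]` and the polynomial family `ext Φ ψ` with one more parameter.
PLAN. thS is the algebra map X_i ↦ X_i (i < n), X_n ↦ s. thS_rename: thS (rename castSucc q) = toS k q (MvPolynomial.induction_on or algHom_ext; toS of X i is X i,
toS of C c is C (C c)). thS_ext: immediate. thS_pderiv: MvPolynomial.induction_on (both sides derivations along thS; on generators pderiv_X). thS_last: pderiv (last) of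
rename castSucc q is 0, so pderiv (last) (ext Φ ψ j) = rename castSucc (ψ j). thS_fb: fb = product of powers of unfP (ext Φ ψ) j; thS (unfP (ext Φ ψ) j) is
FS k Φ ψ j for j < 4 (= subst F (X j)), X (iu a) for the parameters a < r (= subst F (X (ju a))), s for the last one (= subst F s, subst F (C c) = C c); subst F is
multiplicative (HasSubst: constant coefficients are 0, `hasSubst_of_constantCoeff_zero`), Finsupp.prod.
euler: MvPolynomial.IsHomogeneous Euler identity (MvPolynomial.IsHomogeneous.sum_X_mul_pderiv, `∑ i, X i * pderiv i φ = n • φ`) for Φ j and ψ j, mapped by toS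
(toS is a ring homomorphism, commutes with pderiv). -/

namespace Pool.Agent.LibGF7

open Pool.Agent.LibMX34

/-- `X_i ↦ X_i`, `X_n ↦ s` -/
noncomputable def thS (k : Type) [Field k] (n : ℕ) : MvPolynomial (Fin (n + 1)) k →ₐ[k] MvPowerSeries (Fin n) (PowerSeries k) :=
  MvPolynomial.aeval fun i : Fin (n + 1) => if h : (i : ℕ) < n then MvPowerSeries.X ⟨i, h⟩ else sV k

theorem toS_mul (k : Type) [Field k] {σ : Type} (a b : MvPolynomial σ k) : toS k (a * b) = toS k a * toS k b := by
  unfold toS
  rw [map_mul, MvPolynomial.coe_mul]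

theorem toS_add (k : Type) [Field k] {σ : Type} (a b : MvPolynomial σ k) : toS k (a + b) = toS k a + toS k b := by
  unfold toS
  rw [map_add, MvPolynomial.coe_add]

theorem toS_pderiv (k : Type) [Field k] {σ : Type} (i : σ) (a : MvPolynomial σ k) :
    toS k (MvPolynomial.pderiv i a) = MvPowerSeries.pderiv (PowerSeries k) i (toS k a) := by
  unfold toS
  rw [MvPowerSeries.pderiv_coe, MvPolynomial.pderiv_map]

private theorem E1_toS_C (k : Type) [Field k] {σ : Type} (c : k) :
    toS k (MvPolynomial.C c : MvPolynomial σ k) = MvPowerSeries.C (algebraMap k (PowerSeries k) c) := by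
  unfold toS
  rw [MvPolynomial.map_C, MvPolynomial.coe_C]

private theorem E1_toS_X (k : Type) [Field k] {σ : Type} (i : σ) :
    toS k (MvPolynomial.X i : MvPolynomial σ k) = MvPowerSeries.X i := by
  unfold toS
  rw [MvPolynomial.map_X, MvPolynomial.coe_X]

private theorem E1_thS_C (k : Type) [Field k] (n : ℕ) (c : k) :
    thS k n (MvPolynomial.C c) = MvPowerSeries.C (algebraMap k (PowerSeries k) c) := by
  unfold thS
  rw [MvPolynomial.aeval_C, MvPowerSeries.algebraMap_apply]

private theorem E1_thS_X (k : Type) [Field k] (n : ℕ) (i : Fin n) :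
    thS k n (MvPolynomial.X i.castSucc) = MvPowerSeries.X i := by
  unfold thS
  rw [MvPolynomial.aeval_X]
  have h : ((i.castSucc : Fin (n + 1)) : ℕ) < n := i.2
  rw [dif_pos h]
  rfl

private theorem E1_thS_L (k : Type) [Field k] (n : ℕ) :
    thS k n (MvPolynomial.X (Fin.last n)) = sV k := by
  unfold thS
  rw [MvPolynomial.aeval_X]
  have h : ¬ ((Fin.last n : Fin (n + 1)) : ℕ) < n := by simp
  rw [dif_neg h]

theorem thS_rename (k : Type) [Field k] (n : ℕ) (q : MvPolynomial (Fin n) k) :
    thS k n (MvPolynomial.rename (fun i : Fin n => i.castSucc) q) = toS k q := by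
  induction q using MvPolynomial.induction_on with
  | C c => rw [MvPolynomial.rename_C, E1_thS_C, E1_toS_C]
  | add a b ha hb => rw [map_add, map_add, ha, hb, toS_add]
  | mul_X a i ha => rw [map_mul, map_mul, ha, toS_mul, MvPolynomial.rename_X, E1_thS_X, E1_toS_X]

theorem thS_ext (k : Type) [Field k] {r : ℕ} (Φ ψ : Fin 4 → P k r) (j : Fin 4) :
    thS k (r + 3) (ext Φ ψ j) = FS k Φ ψ j := by
  unfold ext FS
  rw [map_add, map_mul, thS_rename, thS_rename, E1_thS_L]

theorem thS_pderiv (k : Type) [Field k] (n : ℕ) (i : Fin n) (q : MvPolynomial (Fin (n + 1)) k) :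
    thS k n (MvPolynomial.pderiv i.castSucc q) = MvPowerSeries.pderiv (PowerSeries k) i (thS k n q) := by
  induction q using MvPolynomial.induction_on with
  | C c => rw [MvPolynomial.pderiv_C, map_zero, E1_thS_C, MvPowerSeries.pderiv_C]
  | add a b ha hb => rw [map_add, map_add, ha, hb, map_add, map_add]
  | mul_X a j ha =>
    rw [Derivation.leibniz, map_mul (thS k n) a, Derivation.leibniz, map_add, smul_eq_mul, smul_eq_mul, smul_eq_mul,
      smul_eq_mul, map_mul, map_mul, ha]
    congr 2
    refine Fin.lastCases ?_ (fun j' => ?_) j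
    · rw [MvPolynomial.pderiv_X_of_ne (Fin.castSucc_lt_last i).ne', map_zero, E1_thS_L]
      unfold sV
      rw [MvPowerSeries.pderiv_C]
    · rw [E1_thS_X]
      by_cases h : j' = i
      · subst h
        rw [MvPolynomial.pderiv_X_self, MvPowerSeries.pderiv_X_self, map_one]
      · have h2 : (j'.castSucc : Fin (n + 1)) ≠ i.castSucc := fun e => h (Fin.castSucc_injective n e)
        rw [MvPolynomial.pderiv_X_of_ne h2, MvPowerSeries.pderiv_X_of_ne h, map_zero]

theorem thS_last (k : Type) [Field k] {r : ℕ} (Φ ψ : Fin 4 → P k r) (j : Fin 4) :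
    thS k (r + 3) (MvPolynomial.pderiv (Fin.last (r + 3)) (ext Φ ψ j)) = toS k (ψ j) := by
  have h0 : ∀ q : MvPolynomial (Fin (r + 3)) k,
      MvPolynomial.pderiv (Fin.last (r + 3)) (MvPolynomial.rename (fun i : Fin (r + 3) => (i.castSucc : Fin (r + 3 + 1))) q) = 0 := by
    intro q
    induction q using MvPolynomial.induction_on with
    | C c => rw [MvPolynomial.rename_C, MvPolynomial.pderiv_C]
    | add a b ha hb => rw [map_add, map_add, ha, hb, add_zero]
    | mul_X a i ha =>
      rw [map_mul, MvPolynomial.rename_X, Derivation.leibniz, ha, MvPolynomial.pderiv_X_of_ne (Fin.castSucc_lt_last i).ne,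
        smul_zero, smul_zero, add_zero]
  unfold ext
  rw [map_add, Derivation.leibniz, h0, h0, MvPolynomial.pderiv_X_self, smul_zero, zero_add, zero_add, smul_eq_mul, mul_one,
    thS_rename]

end Pool.Agent.LibGF7
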