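import Pool.Agent.LibGF7.E1

set_option autoImplicit false

/-! ROW GF7 E1b (MEDIUM; cites E1). 
PLAN. thS_fb: fb = product of powers of unfP (ext Φ ψ) j; thS (unfP (ext Φ ψ) j) is FS k Φ ψ j for j < 4 (= subst F (X j)), X (iu a) for the parameters a < r
(= subst F (X (ju a))), s for the last one (= subst F s, subst F (C c) = C c: MvPowerSeries.subst_C); subst F is multiplicative (HasSubst:
MvPowerSeries.hasSubst_of_constantCoeff_zero with FS_const), so the c for a product is the product of the c's (Finsupp.prod / induction on β).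
euler: Euler identity in Mathlib (MvPolynomial.IsHomogeneous.sum_X_mul_pderiv) for Φ j (degree 2) and ψ j (degree 1), mapped by toS (toS_add, toS_mul, toS_pderiv). -/

namespace Pool.Agent.LibGF7

open Pool.Agent.LibMX34

/-- `toS` as a ring homomorphism -/
private noncomputable def toSR (k : Type) [Field k] (σ : Type) : MvPolynomial σ k →+* MvPowerSeries σ (PowerSeries k) :=
  MvPolynomial.coeToMvPowerSeries.ringHom.comp (MvPolynomial.map (algebraMap k (PowerSeries k)))

private theorem toSR_eq (k : Type) [Field k] {σ : Type} (q : MvPolynomial σ k) : toS k q = toSR k σ q := rfl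

private theorem toSR_X (k : Type) [Field k] {σ : Type} (i : σ) : toSR k σ (MvPolynomial.X i) = MvPowerSeries.X i := by
  rw [← toSR_eq, toS, MvPolynomial.map_X, MvPolynomial.coe_X]

private theorem const_toS (k : Type) [Field k] {σ : Type} {q : MvPolynomial σ k} {d : ℕ} (hq : q.IsHomogeneous d)
    (hd : d ≠ 0) : MvPowerSeries.constantCoeff (toS k q) = 0 := by
  rw [← MvPowerSeries.coeff_zero_eq_constantCoeff_apply, toS, MvPolynomial.coeff_coe, MvPolynomial.coeff_map,
    hq.coeff_eq_zero, map_zero]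
  rw [map_zero]
  exact fun h => hd h.symm

private theorem unf_c (k : Type) [Field k] {r : ℕ} (Φ : Fin 4 → MvPowerSeries (Fin (r + 3)) (PowerSeries k))
    (h : ∀ j, MvPowerSeries.constantCoeff (Φ j) = 0) (j : Fin (r + 4)) :
    MvPowerSeries.constantCoeff (unf (PowerSeries k) Φ j) = 0 := unf_const Φ h j

private theorem hasSubst_unf (k : Type) [Field k] {r : ℕ} (Φ : Fin 4 → MvPowerSeries (Fin (r + 3)) (PowerSeries k))
    (h : ∀ j, MvPowerSeries.constantCoeff (Φ j) = 0) : MvPowerSeries.HasSubst (unf (PowerSeries k) Φ) :=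
  MvPowerSeries.hasSubst_of_constantCoeff_zero (unf_c k Φ h)

private theorem thS_unfP (k : Type) [Field k] {r : ℕ} (Φ ψ : Fin 4 → P k r)
    (h : ∀ j, MvPowerSeries.constantCoeff (FS k Φ ψ j) = 0) (j : Fin (r + 1 + 4)) :
    ∃ c : MvPowerSeries (Fin (r + 4)) (PowerSeries k),
      thS k (r + 3) (unfP (ext Φ ψ) j) = MvPowerSeries.subst (unf (PowerSeries k) (FS k Φ ψ)) c := by
  have hs := hasSubst_unf k (FS k Φ ψ) h
  refine Fin.cases ?_ (fun j => ?_) j
  · exact ⟨MvPowerSeries.X 0, by rw [MvPowerSeries.subst_X hs]; exact thS_ext k Φ ψ 0⟩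
  refine Fin.cases ?_ (fun j => ?_) j
  · exact ⟨MvPowerSeries.X 1, by rw [MvPowerSeries.subst_X hs]; exact thS_ext k Φ ψ 1⟩
  refine Fin.cases ?_ (fun j => ?_) j
  · exact ⟨MvPowerSeries.X 2, by rw [MvPowerSeries.subst_X hs]; exact thS_ext k Φ ψ 2⟩
  refine Fin.cases ?_ (fun j => ?_) j
  · exact ⟨MvPowerSeries.X 3, by rw [MvPowerSeries.subst_X hs]; exact thS_ext k Φ ψ 3⟩
  have e : unfP (ext Φ ψ) j.succ.succ.succ.succ = MvPolynomial.X j.succ.succ.succ := rfl
  rw [e]
  have e2 : thS k (r + 3) (MvPolynomial.X (j.succ.succ.succ : Fin (r + 3 + 1)))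
      = if h : ((j.succ.succ.succ : Fin (r + 3 + 1)) : ℕ) < r + 3 then MvPowerSeries.X ⟨_, h⟩ else sV k := by
    rw [thS, MvPolynomial.aeval_X]
  by_cases hj : (j : ℕ) < r
  · refine ⟨MvPowerSeries.X (⟨j, hj⟩ : Fin r).succ.succ.succ.succ, ?_⟩
    rw [MvPowerSeries.subst_X hs]
    refine e2.trans ?_
    rw [dif_pos (by simp only [Fin.val_succ]; omega)]
    rfl
  · refine ⟨MvPowerSeries.C (PowerSeries.X : PowerSeries k), ?_⟩
    rw [MvPowerSeries.subst_C]
    refine e2.trans ?_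
    rw [dif_neg (by simp only [Fin.val_succ]; omega)]
    rfl

theorem FS_const (k : Type) [Field k] {r : ℕ} (Φ ψ : Fin 4 → P k r) (hΦ : ∀ j, (Φ j).IsHomogeneous 2) (hψ : ∀ j, (ψ j).IsHomogeneous 1)
    (j : Fin 4) : MvPowerSeries.constantCoeff (FS k Φ ψ j) = 0 := by
  rw [FS, map_add, map_mul, const_toS k (hΦ j) (by norm_num), const_toS k (hψ j) (by norm_num), mul_zero, add_zero]

theorem thS_fb (k : Type) [Field k] {r : ℕ} (Φ ψ : Fin 4 → P k r) (hΦ : ∀ j, (Φ j).IsHomogeneous 2) (hψ : ∀ j, (ψ j).IsHomogeneous 1)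
    (β : Fin (r + 1 + 4) →₀ ℕ) : ∃ c : MvPowerSeries (Fin (r + 4)) (PowerSeries k),
      thS k (r + 3) (fb (ext Φ ψ) β) = MvPowerSeries.subst (unf (PowerSeries k) (FS k Φ ψ)) c := by
  have h := FS_const k Φ ψ hΦ hψ
  have hs := hasSubst_unf k (FS k Φ ψ) h
  choose c hc using thS_unfP k Φ ψ h
  refine ⟨β.prod fun j n => c j ^ n, ?_⟩
  rw [← MvPowerSeries.coe_substAlgHom hs, map_finsuppProd, fb, map_finsuppProd]
  refine Finsupp.prod_congr fun j _ => ?_
  rw [map_pow, map_pow, hc, MvPowerSeries.coe_substAlgHom hs]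

theorem euler (k : Type) [Field k] {r : ℕ} (Φ ψ : Fin 4 → P k r) (hΦ : ∀ j, (Φ j).IsHomogeneous 2) (hψ : ∀ j, (ψ j).IsHomogeneous 1)
    (j : Fin 4) : sV k * toS k (ψ j) = 2 * FS k Φ ψ j -
      ∑ i, MvPowerSeries.X i * MvPowerSeries.pderiv (PowerSeries k) i (FS k Φ ψ j) := by
  have e : ∀ (q : P k r) (d : ℕ), q.IsHomogeneous d →
      ∑ i, MvPowerSeries.X i * MvPowerSeries.pderiv (PowerSeries k) i (toS k q) = (d : MvPowerSeries (Fin (r + 3)) (PowerSeries k)) * toS k q := by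
    intro q d hq
    have h1 := congrArg (toSR k (Fin (r + 3))) hq.sum_X_mul_pderiv
    rw [map_sum, nsmul_eq_mul, map_mul, map_natCast] at h1
    rw [toSR_eq k q, ← h1]
    refine Finset.sum_congr rfl fun i _ => ?_
    rw [map_mul, toSR_X, ← toSR_eq, ← toSR_eq, toS_pderiv]
  have hm : ∀ i : Fin (r + 3), MvPowerSeries.pderiv (PowerSeries k) i (FS k Φ ψ j)
      = MvPowerSeries.pderiv (PowerSeries k) i (toS k (Φ j)) + sV k * MvPowerSeries.pderiv (PowerSeries k) i (toS k (ψ j)) := by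
    intro i
    have h2 : sV k * toS k (ψ j) = (PowerSeries.X : PowerSeries k) • toS k (ψ j) := by
      rw [sV, ← MvPowerSeries.smul_eq_C_mul]
    rw [FS, map_add, h2, Derivation.map_smul, sV, ← MvPowerSeries.smul_eq_C_mul]
  have h3 : ∑ i, MvPowerSeries.X i * MvPowerSeries.pderiv (PowerSeries k) i (FS k Φ ψ j)
      = 2 * toS k (Φ j) + sV k * toS k (ψ j) := by
    have h4 := e (Φ j) 2 (hΦ j)
    have h5 := e (ψ j) 1 (hψ j)
    rw [Nat.cast_ofNat] at h4
    rw [Nat.cast_one, one_mul] at h5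
    rw [← h4]
    conv_rhs => rw [← h5]
    rw [Finset.mul_sum, ← Finset.sum_add_distrib]
    refine Finset.sum_congr rfl fun i _ => ?_
    rw [hm i]
    ring
  rw [h3, FS]
  ring

end Pool.Agent.LibGF7
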