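import Pool.Agent.LibGF7.E1b
import Pool.Agent.LibGF7.C2

set_option autoImplicit false

/-! ROW GF7 E2 (MEDIUM). `F = Φ + s ψ` is stable for `s ≠ 0`.
PLAN. RedS F is closed under sums, finite sums, and multiplication by `subst F c` (subst is a ring homomorphism).
redS_of_SR: Submodule.span_induction on v ∈ SR (ext Φ ψ) m (scalars in k are subst F of constants). Generators: gX: thS (monomial α 1 * ∂/∂x_i ext) = (..) * ∂F/∂x_i
(ix i in Fin (r+1+3) is the castSucc of ix i in Fin (r+3)); gY: thS_fb; gU for a < r: thS_fb and thS_pderiv; gU for the last parameter: thS_fb, thS_last and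
`euler`: sV * (subst F c * toS ψ_j) = subst F (c * 2 Y_j) - ∑_i (subst F c * X i) ∂F_j/∂x_i; for i = ix _ this is of the form b ∂F/∂x, for i = iu a it is
subst F (c * X (ju a)) * ∂F_j/∂u_a.
stable_off: e = N + 1. z is the class of some w; by full_of_red (LibGF7.C2) it is enough that sV^(N+1) * w has a reduced vector in RedS:
v j = w (jy j) - ∑ w (ju a) ∂F_j/∂u_a (multiplied by sV^(N+1)); by `gen` v j = ∑ subst F (c j i₀ i₁ i₂) x^i₀ y^i₁ z^i₂, and
sV^(N+1) * x^i₀ y^i₁ z^i₂ e_j = sV * thS (X_last^N * x^.. y^.. z^.. e_j), homogeneous of degree N + i₀ + i₁ + i₂ ≥ N, in SR by hV. -/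

namespace Pool.Agent.LibGF7

open Pool.Agent.LibMX34

/-- `w` is in the reduced tangent space -/
def RedS (k : Type) [Field k] {r : ℕ} (F : Fin 4 → MvPowerSeries (Fin (r + 3)) (PowerSeries k))
    (w : Fin 4 → MvPowerSeries (Fin (r + 3)) (PowerSeries k)) : Prop :=
  ∃ (b : Fin 3 → MvPowerSeries (Fin (r + 3)) (PowerSeries k)) (η : Fin 4 → MvPowerSeries (Fin (r + 4)) (PowerSeries k))
    (ζ : Fin r → MvPowerSeries (Fin (r + 4)) (PowerSeries k)), ∀ j, w j =
      ∑ i, b i * MvPowerSeries.pderiv (PowerSeries k) (ix i) (F j) + MvPowerSeries.subst (unf (PowerSeries k) F) (η j) +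
        ∑ a, MvPowerSeries.subst (unf (PowerSeries k) F) (ζ a) * MvPowerSeries.pderiv (PowerSeries k) (iu a) (F j)

private theorem E2_hs (k : Type) [Field k] {r : ℕ} (F : Fin 4 → MvPowerSeries (Fin (r + 3)) (PowerSeries k))
    (hF : ∀ j, MvPowerSeries.constantCoeff (F j) = 0) : MvPowerSeries.HasSubst (unf (PowerSeries k) F) :=
  MvPowerSeries.hasSubst_of_constantCoeff_zero (unf_const F hF)

/-- the substitution is a ring homomorphism -/
private theorem E2_hom (k : Type) [Field k] {r : ℕ} (F : Fin 4 → MvPowerSeries (Fin (r + 3)) (PowerSeries k))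
    (hF : ∀ j, MvPowerSeries.constantCoeff (F j) = 0) :
    ∃ φ : MvPowerSeries (Fin (r + 4)) (PowerSeries k) →+* MvPowerSeries (Fin (r + 3)) (PowerSeries k),
      ∀ x, MvPowerSeries.subst (unf (PowerSeries k) F) x = φ x :=
  ⟨(MvPowerSeries.substAlgHom (R := PowerSeries k) (E2_hs k F hF)).toRingHom,
    fun x => (MvPowerSeries.substAlgHom_apply (E2_hs k F hF) x).symm⟩

theorem redS_add (k : Type) [Field k] {r : ℕ} (F : Fin 4 → MvPowerSeries (Fin (r + 3)) (PowerSeries k))
    (hF : ∀ j, MvPowerSeries.constantCoeff (F j) = 0) {w w' : Fin 4 → MvPowerSeries (Fin (r + 3)) (PowerSeries k)}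
    (h : RedS k F w) (h' : RedS k F w') : RedS k F (w + w') := by
  obtain ⟨φ, hφ⟩ := E2_hom k F hF
  obtain ⟨b, η, ζ, h1⟩ := h
  obtain ⟨b', η', ζ', h2⟩ := h'
  refine ⟨fun i => b i + b' i, fun j => η j + η' j, fun a => ζ a + ζ' a, fun j => ?_⟩
  rw [Pi.add_apply, h1 j, h2 j]
  simp only [hφ, map_add, add_mul, Finset.sum_add_distrib]
  ring

theorem redS_smul (k : Type) [Field k] {r : ℕ} (F : Fin 4 → MvPowerSeries (Fin (r + 3)) (PowerSeries k))
    (hF : ∀ j, MvPowerSeries.constantCoeff (F j) = 0) {w : Fin 4 → MvPowerSeries (Fin (r + 3)) (PowerSeries k)}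
    (h : RedS k F w) (c : MvPowerSeries (Fin (r + 4)) (PowerSeries k)) :
    RedS k F fun j => MvPowerSeries.subst (unf (PowerSeries k) F) c * w j := by
  obtain ⟨φ, hφ⟩ := E2_hom k F hF
  obtain ⟨b, η, ζ, h1⟩ := h
  refine ⟨fun i => φ c * b i, fun j => c * η j, fun a => c * ζ a, fun j => ?_⟩
  change MvPowerSeries.subst (unf (PowerSeries k) F) c * w j = _
  rw [h1 j]
  simp only [hφ, map_mul, mul_add, Finset.mul_sum, mul_assoc]

private theorem E2_zero (k : Type) [Field k] {r : ℕ} (F : Fin 4 → MvPowerSeries (Fin (r + 3)) (PowerSeries k))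
    (hF : ∀ j, MvPowerSeries.constantCoeff (F j) = 0) : RedS k F fun _ => 0 := by
  obtain ⟨φ, hφ⟩ := E2_hom k F hF
  refine ⟨fun _ => 0, fun _ => 0, fun _ => 0, fun j => ?_⟩
  simp only [hφ, map_zero, zero_mul, Finset.sum_const_zero, add_zero]

private theorem E2_X (k : Type) [Field k] {r : ℕ} (F : Fin 4 → MvPowerSeries (Fin (r + 3)) (PowerSeries k))
    (hF : ∀ j, MvPowerSeries.constantCoeff (F j) = 0) (i : Fin 3) (b : MvPowerSeries (Fin (r + 3)) (PowerSeries k)) :
    RedS k F fun j => b * MvPowerSeries.pderiv (PowerSeries k) (ix i) (F j) := by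
  obtain ⟨φ, hφ⟩ := E2_hom k F hF
  refine ⟨fun i' => if i' = i then b else 0, fun _ => 0, fun _ => 0, fun j => ?_⟩
  simp only [hφ, map_zero, zero_mul, Finset.sum_const_zero, add_zero, ite_mul, Finset.sum_ite_eq', Finset.mem_univ,
    if_true]

private theorem E2_Y (k : Type) [Field k] {r : ℕ} (F : Fin 4 → MvPowerSeries (Fin (r + 3)) (PowerSeries k))
    (hF : ∀ j, MvPowerSeries.constantCoeff (F j) = 0) (j₀ : Fin 4) (c : MvPowerSeries (Fin (r + 4)) (PowerSeries k)) :
    RedS k F fun j => if j = j₀ then MvPowerSeries.subst (unf (PowerSeries k) F) c else 0 := by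
  obtain ⟨φ, hφ⟩ := E2_hom k F hF
  refine ⟨fun _ => 0, fun j => if j = j₀ then c else 0, fun _ => 0, fun j => ?_⟩
  simp only [hφ, map_zero, zero_mul, Finset.sum_const_zero, add_zero, zero_add]
  split_ifs
  · rfl
  · rw [map_zero]

private theorem E2_U (k : Type) [Field k] {r : ℕ} (F : Fin 4 → MvPowerSeries (Fin (r + 3)) (PowerSeries k))
    (hF : ∀ j, MvPowerSeries.constantCoeff (F j) = 0) (a : Fin r) (c : MvPowerSeries (Fin (r + 4)) (PowerSeries k)) :
    RedS k F fun j => MvPowerSeries.subst (unf (PowerSeries k) F) c *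
      MvPowerSeries.pderiv (PowerSeries k) (iu a) (F j) := by
  obtain ⟨φ, hφ⟩ := E2_hom k F hF
  refine ⟨fun _ => 0, fun _ => 0, fun a' => if a' = a then c else 0, fun j => ?_⟩
  have h1 : ∀ a' : Fin r, φ (if a' = a then c else 0) = if a' = a then φ c else 0 := by
    intro a'
    split_ifs
    · rfl
    · rw [map_zero]
  simp only [hφ, map_zero, zero_mul, Finset.sum_const_zero, add_zero, zero_add, h1, ite_mul, Finset.sum_ite_eq',
    Finset.mem_univ, if_true]

private theorem E2_sum {M : Type} [AddCommMonoid M] {r : ℕ} (f : Fin (r + 3) → M) :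
    ∑ i, f i = ∑ i : Fin 3, f (ix i) + ∑ a : Fin r, f (iu a) := by
  rw [Fin.sum_univ_succ, Fin.sum_univ_succ, Fin.sum_univ_succ, Fin.sum_univ_three, ← add_assoc, ← add_assoc]
  rfl

private theorem E2_jy (k : Type) [Field k] {r : ℕ} (F : Fin 4 → MvPowerSeries (Fin (r + 3)) (PowerSeries k)) (j : Fin 4) :
    unf (PowerSeries k) F (jy j) = F j := by
  fin_cases j <;> rfl

private theorem E2_ju (k : Type) [Field k] {r : ℕ} (F : Fin 4 → MvPowerSeries (Fin (r + 3)) (PowerSeries k)) (a : Fin r) :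
    unf (PowerSeries k) F (ju a) = MvPowerSeries.X (iu a) := rfl

/-- multiplication by the Euler field -/
private theorem E2_euler (k : Type) [Field k] {r : ℕ} (F : Fin 4 → MvPowerSeries (Fin (r + 3)) (PowerSeries k))
    (hF : ∀ j, MvPowerSeries.constantCoeff (F j) = 0) (c : MvPowerSeries (Fin (r + 4)) (PowerSeries k)) :
    RedS k F fun j => MvPowerSeries.subst (unf (PowerSeries k) F) c *
      (2 * F j - ∑ i, MvPowerSeries.X i * MvPowerSeries.pderiv (PowerSeries k) i (F j)) := by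
  have hX := fun s => MvPowerSeries.subst_X (R := PowerSeries k) (E2_hs k F hF) s
  obtain ⟨φ, hφ⟩ := E2_hom k F hF
  refine ⟨fun i => -(φ c * MvPowerSeries.X (ix i)), fun j => 2 * (c * MvPowerSeries.X (jy j)),
    fun a => -(c * MvPowerSeries.X (ju a)), fun j => ?_⟩
  have h1 : φ (MvPowerSeries.X (jy j)) = F j := by rw [← hφ, hX, E2_jy]
  have h2 : ∀ a : Fin r, φ (MvPowerSeries.X (ju a)) = MvPowerSeries.X (iu a) := fun a => by rw [← hφ, hX, E2_ju]
  have h3 : ∑ i, MvPowerSeries.X i * MvPowerSeries.pderiv (PowerSeries k) i (F j) =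
      ∑ i : Fin 3, MvPowerSeries.X (ix i) * MvPowerSeries.pderiv (PowerSeries k) (ix i) (F j) +
        ∑ a : Fin r, MvPowerSeries.X (iu a) * MvPowerSeries.pderiv (PowerSeries k) (iu a) (F j) :=
    E2_sum fun i => MvPowerSeries.X i * MvPowerSeries.pderiv (PowerSeries k) i (F j)
  simp only [hφ, map_mul, map_neg, map_ofNat, h1, h2, neg_mul, Finset.sum_neg_distrib, h3]
  rw [mul_sub, mul_add, Finset.mul_sum, Finset.mul_sum]
  simp only [mul_assoc]
  ring

private theorem E2_congr (k : Type) [Field k] {r : ℕ} {F : Fin 4 → MvPowerSeries (Fin (r + 3)) (PowerSeries k)}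
    {w w' : Fin 4 → MvPowerSeries (Fin (r + 3)) (PowerSeries k)} (h : RedS k F w) (hw : ∀ j, w' j = w j) :
    RedS k F w' := by
  have h1 : w' = w := funext hw
  rw [h1]
  exact h

theorem redS_of_SR (k : Type) [Field k] {r : ℕ} (Φ ψ : Fin 4 → P k r) (hΦ : ∀ j, (Φ j).IsHomogeneous 2)
    (hψ : ∀ j, (ψ j).IsHomogeneous 1) (m : ℕ) (v : Fin 4 → P k (r + 1)) (hv : v ∈ SR (ext Φ ψ) m) :
    RedS k (FS k Φ ψ) fun j => sV k * thS k (r + 3) (v j) := by
  have hF := FS_const k Φ ψ hΦ hψ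
  have hsV : MvPowerSeries.subst (unf (PowerSeries k) (FS k Φ ψ))
      (sV k : MvPowerSeries (Fin (r + 4)) (PowerSeries k)) = sV k := by
    unfold sV
    exact MvPowerSeries.subst_C _
  have hmul := fun x y => MvPowerSeries.subst_mul (R := PowerSeries k) (E2_hs k (FS k Φ ψ) hF) x y
  induction hv using Submodule.span_induction with
  | mem v hv =>
    rcases hv with (⟨i, α, -, rfl⟩ | ⟨j₀, β, -, rfl⟩) | ⟨a, β, -, rfl⟩
    · refine E2_congr k (E2_X k (FS k Φ ψ) hF i (sV k * thS k (r + 3) (MvPolynomial.monomial α 1))) fun j => ?_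
      have h1 : thS k (r + 3) (MvPolynomial.pderiv (ix i) (ext Φ ψ j)) =
          MvPowerSeries.pderiv (PowerSeries k) (ix i) (FS k Φ ψ j) := by
        rw [← thS_ext]
        exact thS_pderiv k (r + 3) (ix i) (ext Φ ψ j)
      have h2 : thS k (r + 3) (gX (ext Φ ψ) i α j) = thS k (r + 3) (MvPolynomial.monomial α 1) *
          thS k (r + 3) (MvPolynomial.pderiv (ix i) (ext Φ ψ j)) := map_mul (thS k (r + 3)) _ _
      rw [h2, h1, mul_assoc]
    · obtain ⟨c, hc⟩ := thS_fb k Φ ψ hΦ hψ β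
      refine E2_congr k (E2_Y k (FS k Φ ψ) hF j₀ (sV k * c)) fun j => ?_
      by_cases hj : j = j₀
      · have h1 : gY (ext Φ ψ) j₀ β j = fb (ext Φ ψ) β := if_pos hj
        rw [h1, if_pos hj, hmul, hsV]
        exact congrArg (fun x => sV k * x) hc
      · have h1 : gY (ext Φ ψ) j₀ β j = 0 := if_neg hj
        have h2 : thS k (r + 3) (gY (ext Φ ψ) j₀ β j) = 0 := by
          rw [h1]
          exact map_zero (thS k (r + 3))
        rw [h2, if_neg hj, mul_zero]
    · obtain ⟨c, hc⟩ := thS_fb k Φ ψ hΦ hψ β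
      have h2 : ∀ j, thS k (r + 3) (gU (ext Φ ψ) a β j) = thS k (r + 3) (fb (ext Φ ψ) β) *
          thS k (r + 3) (MvPolynomial.pderiv (iu a) (ext Φ ψ j)) := fun j => map_mul (thS k (r + 3)) _ _
      rcases Fin.eq_castSucc_or_eq_last a with ⟨a', rfl⟩ | rfl
      · refine E2_congr k (E2_U k (FS k Φ ψ) hF a' (sV k * c)) fun j => ?_
        have h1 : thS k (r + 3) (MvPolynomial.pderiv (iu a'.castSucc) (ext Φ ψ j)) =
            MvPowerSeries.pderiv (PowerSeries k) (iu a') (FS k Φ ψ j) := by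
          rw [← thS_ext]
          exact thS_pderiv k (r + 3) (iu a') (ext Φ ψ j)
        rw [h2, h1, hmul, hsV, mul_assoc]
        exact congrArg (fun x => sV k * (x * _)) hc
      · refine E2_congr k (E2_euler k (FS k Φ ψ) hF c) fun j => ?_
        have h1 : thS k (r + 3) (MvPolynomial.pderiv (iu (Fin.last r)) (ext Φ ψ j)) = toS k (ψ j) :=
          thS_last k Φ ψ j
        rw [h2, h1, ← euler k Φ ψ hΦ hψ j, mul_left_comm]
        exact congrArg (fun x => x * (sV k * toS k (ψ j))) hc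
  | zero =>
    refine E2_congr k (E2_zero k (FS k Φ ψ) hF) fun j => ?_
    have h1 : thS k (r + 3) ((0 : Fin 4 → P k (r + 1)) j) = 0 := map_zero (thS k (r + 3))
    rw [h1, mul_zero]
  | add v v' _ _ h1 h2 =>
    refine E2_congr k (redS_add k (FS k Φ ψ) hF h1 h2) fun j => ?_
    have h3 : thS k (r + 3) ((v + v') j) = thS k (r + 3) (v j) + thS k (r + 3) (v' j) := map_add (thS k (r + 3)) _ _
    rw [h3, mul_add]
    rfl
  | smul c v _ h1 =>
    refine E2_congr k (redS_smul k (FS k Φ ψ) hF h1 (MvPowerSeries.C (PowerSeries.C c))) fun j => ?_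
    have h3 : thS k (r + 3) ((c • v) j) = c • thS k (r + 3) (v j) := map_smul (thS k (r + 3)) _ _
    have h4 : c • thS k (r + 3) (v j) = MvPowerSeries.C (PowerSeries.C c) * thS k (r + 3) (v j) := by
      rw [Algebra.smul_def, MvPowerSeries.algebraMap_apply, PowerSeries.algebraMap_apply, Algebra.algebraMap_self,
        RingHom.id_apply]
    rw [h3, h4, MvPowerSeries.subst_C, mul_left_comm]

end Pool.Agent.LibGF7
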