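import Pool.Agent.LibGF7.Van
import Pool.Agent.LibGF7.Bridge

set_option autoImplicit false

/-! GF7 ExA (helper7): the example, `T1(f)` finite and `F` stable off `s = 0`, from the liftable fields and the memberships modulo `29`. -/

namespace Pool.Agent.LibGF7

open Pool.Agent.LibMX34

/-- the point `(Y, v)`, `v = T u` for the germ `f` -/
def ptA {R : Type} [CommRing R] (Y : Fin 4 → R) (u : Fin 6 → R) : Fin 13 → R :=
  ![Y 0, Y 1, Y 2, Y 3, -u 0, u 1, u 0, u 2, -u 1, 3 * u 2 + 2 * u 3, u 3, u 4, u 5]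

/-- the point `(Y, v)`, `v = T (u, s)`, `s = u 6` -/
def ptB {R : Type} [CommRing R] (Y : Fin 4 → R) (u : Fin 7 → R) : Fin 13 → R :=
  ![Y 0, Y 1, Y 2, Y 3, -u 0, u 1, u 0 + u 6, u 2, -u 1, 3 * u 2 + 2 * u 3 + u 6, u 3, u 4, u 5]

instance : Fact (Nat.Prime 29) := ⟨by norm_num⟩

/-- liftability of the field `η` (lift `ξ`) -/
def Lift (η : Fin 13 → MvPolynomial (Fin 13) ℤ) (ξ : Fin 3 → MvPolynomial (Fin 12) ℤ) : Prop :=
  ∀ j : Fin 4, FUs (η (ijO j)) = ∑ a : Fin 3, ξ a * MvPolynomial.pderiv (Fin.castLE (by omega) a : Fin 12) (FU j) +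
    ∑ t, FUs (η (ivO t)) * MvPolynomial.pderiv (ivB t) (FU j)

/-- memberships (M6) -/
def M6 {I : Type} (η : I → Fin 13 → MvPolynomial (Fin 13) ℤ) : Prop :=
  ∀ (R : Type) [CommRing R], (29 : R) = 0 → ∀ (Y : Fin 4 → R) (u : Fin 6 → R) (M : Type) [AddCommGroup M] [Module R M] (y : Fin 3 → M),
    (∀ i, (MvPolynomial.aeval (ptA Y u) (η i (ivO 0)) + MvPolynomial.aeval (ptA Y u) (η i (ivO 2))) • y 0 +
      (MvPolynomial.aeval (ptA Y u) (η i (ivO 1)) + MvPolynomial.aeval (ptA Y u) (η i (ivO 4))) • y 1 +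
      (MvPolynomial.aeval (ptA Y u) (η i (ivO 5)) - 3 * MvPolynomial.aeval (ptA Y u) (η i (ivO 3)) -
        2 * MvPolynomial.aeval (ptA Y u) (η i (ivO 6))) • y 2 = 0) →
    (∀ a g, u a ^ 8 • y g = 0) ∧
      ∀ S : Subring R, (∀ a, u a ∈ S) → ∀ j g, ∃ d : Fin 3 → R, (∀ g', d g' ∈ S) ∧ Y j • y g = ∑ g', d g' • y g'

/-- memberships (M7) -/
def M7 {I : Type} (η : I → Fin 13 → MvPolynomial (Fin 13) ℤ) : Prop :=
  ∀ (R : Type) [CommRing R], (29 : R) = 0 → ∀ (Y : Fin 4 → R) (u : Fin 7 → R) (M : Type) [AddCommGroup M] [Module R M] (y : Fin 2 → M),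
    (∀ i, (MvPolynomial.aeval (ptB Y u) (η i (ivO 0)) + MvPolynomial.aeval (ptB Y u) (η i (ivO 2)) -
        MvPolynomial.aeval (ptB Y u) (η i (ivO 5)) + 3 * MvPolynomial.aeval (ptB Y u) (η i (ivO 3)) +
        2 * MvPolynomial.aeval (ptB Y u) (η i (ivO 6))) • y 0 +
      (MvPolynomial.aeval (ptB Y u) (η i (ivO 1)) + MvPolynomial.aeval (ptB Y u) (η i (ivO 4))) • y 1 = 0) →
    (∀ a g, u a ^ 7 • y g = 0) ∧
      ∀ S : Subring R, (∀ a, u a ∈ S) → ∀ j g, ∃ d : Fin 2 → R, (∀ g', d g' ∈ S) ∧ Y j • y g = ∑ g', d g' • y g'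

/-- evaluation of `relO` -/
theorem aeval_relO {K : Type} [CommRing K] {r n : ℕ} (T : Fin 9 → Fin r → ℤ) (B : Fin 9 → Fin n → K)
    (η : Fin 13 → MvPolynomial (Fin 13) ℤ) (g : Fin n) {R : Type} [CommRing R] [Algebra K R] (x : Fin (r + 4) → R) :
    MvPolynomial.aeval x (relO K T B η g) = ∑ t, algebraMap K R (B t g) *
      MvPolynomial.aeval (fun s => MvPolynomial.aeval x (pOP K T s)) (η (ivO t)) := by
  rw [relO, map_sum]
  refine Finset.sum_congr rfl fun t _ => ?_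
  rw [map_mul, MvPolynomial.algHom_C]
  congr 1
  have e : ((MvPolynomial.aeval x : MvPolynomial (Fin (r + 4)) K →ₐ[K] R).toRingHom.comp (MvPolynomial.aeval (R := ℤ) (pOP K T)).toRingHom) =
      (MvPolynomial.aeval (R := ℤ) (fun s => MvPolynomial.aeval x (pOP K T s))).toRingHom := by
    apply MvPolynomial.ringHom_ext
    · intro n; simp
    · intro i; simp
  exact DFunLike.congr_fun e (η (ivO t))

theorem pt_eq {K : Type} [CommRing K] {r : ℕ} (T : Fin 9 → Fin r → ℤ) {R : Type} [CommRing R] [Algebra K R] (x : Fin (r + 4) → R) :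
    (fun s => MvPolynomial.aeval x (pOP K T s)) = ![x (jy 0), x (jy 1), x (jy 2), x (jy 3),
      ∑ a, (T 0 a : R) * x (ju a), ∑ a, (T 1 a : R) * x (ju a), ∑ a, (T 2 a : R) * x (ju a), ∑ a, (T 3 a : R) * x (ju a),
      ∑ a, (T 4 a : R) * x (ju a), ∑ a, (T 5 a : R) * x (ju a), ∑ a, (T 6 a : R) * x (ju a), ∑ a, (T 7 a : R) * x (ju a),
      ∑ a, (T 8 a : R) * x (ju a)] := by
  have hY : ∀ j : Fin 4, MvPolynomial.aeval x (pOP K T (ijO j)) = x (jy j) := fun j => by rw [pOP_Y, MvPolynomial.aeval_X]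
  have hv : ∀ t : Fin 9, MvPolynomial.aeval x (pOP K T (ivO t)) = ∑ a, (T t a : R) * x (ju a) := fun t => by rw [pOP_v, aeval_Lw]
  funext s
  fin_cases s
  · exact hY 0
  · exact hY 1
  · exact hY 2
  · exact hY 3
  · exact hv 0
  · exact hv 1
  · exact hv 2
  · exact hv 3
  · exact hv 4
  · exact hv 5
  · exact hv 6
  · exact hv 7
  · exact hv 8

/-- the tool to pass from subrings to polynomials in `u` -/
theorem poly_of_sub {K : Type} [CommRing K] {r n : ℕ} {R : Type} [CommRing R] [Algebra K R] (u : Fin r → R) {M : Type} [AddCommGroup M] [Module R M]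
    (y : Fin n → M) (z : M)
    (h : ∀ S : Subring R, (∀ a, u a ∈ S) → ∃ d : Fin n → R, (∀ g', d g' ∈ S) ∧ z = ∑ g', d g' • y g') :
    ∃ d : Fin n → MvPolynomial (Fin r) K, z = ∑ g', MvPolynomial.aeval u (d g') • y g' := by
  obtain ⟨d, hd, hz⟩ := h (MvPolynomial.aeval u : MvPolynomial (Fin r) K →ₐ[K] R).toRingHom.range fun a => ⟨MvPolynomial.X a, by simp⟩
  choose d' hd' using hd
  refine ⟨d', ?_⟩
  rw [hz]
  refine Finset.sum_congr rfl fun g' _ => ?_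
  rw [← hd' g']
  rfl

theorem z29 {R : Type} [CommRing R] [Algebra (ZMod 29) R] : (29 : R) = 0 := by
  have h := congrArg (algebraMap (ZMod 29) R) (show (29 : ZMod 29) = 0 by decide)
  rwa [map_ofNat, map_zero] at h

theorem ptA_eq {R : Type} [CommRing R] [Algebra (ZMod 29) R] (x : Fin (6 + 4) → R) :
    (fun s => MvPolynomial.aeval x (pOP (ZMod 29) TA s)) = ptA (fun j => x (jy j)) (fun a => x (ju a)) := by
  rw [pt_eq]
  funext s
  fin_cases s <;> simp [ptA, TA, Fin.sum_univ_six]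

theorem ptB_eq {R : Type} [CommRing R] [Algebra (ZMod 29) R] (x : Fin (7 + 4) → R) :
    (fun s => MvPolynomial.aeval x (pOP (ZMod 29) (TE TA sA) s)) = ptB (fun j => x (jy j)) (fun a => x (ju a)) := by
  rw [pt_eq]
  have h : ∀ t : Fin 9, ∑ a, ((TE TA sA t a : ℤ) : R) * x (ju a) = ∑ a : Fin 6, (TA t a : R) * x (ju a.castSucc) + (sA t : R) * x (ju (Fin.last 6)) := by
    intro t
    rw [Fin.sum_univ_castSucc]
    simp only [TE, Fin.snoc_castSucc, Fin.snoc_last]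
  simp only [h]
  funext s
  fin_cases s <;> simp [ptB, TA, sA, Fin.sum_univ_six] <;> rfl

theorem v6 {I : Type} (η : I → Fin 13 → MvPolynomial (Fin 13) ℤ) (ξ : I → Fin 3 → MvPolynomial (Fin 12) ℤ) (hlift : ∀ i, Lift (η i) (ξ i))
    (h6 : M6 η) (m : ℕ) (hm : 49 ≤ m) : VanAt (PhiP (ZMod 29) TA) m := by
  refine van_T (by decide) (by decide) (by omega) TA ![2, 4, 5]
    ![![-1, 0, 0, 0, 0, 0], ![0, 1, 0, 0, 0, 0], 0, ![0, 0, 1, 0, 0, 0], 0, 0, ![0, 0, 0, 1, 0, 0], ![0, 0, 0, 0, 1, 0], ![0, 0, 0, 0, 0, 1]]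
    ![![1, 0, 0], ![0, 1, 0], ![1, 0, 0], ![0, 0, -3], ![0, 1, 0], ![0, 0, 1], ![0, 0, -2], 0, 0] (by decide) η ξ hlift 8 ?_ m hm
  intro R _ _ x M _ _ y hy
  have e2 : algebraMap (ZMod 29) R 2 = 2 := map_ofNat _ 2
  have e3 : algebraMap (ZMod 29) R 3 = 3 := map_ofNat _ 3
  obtain ⟨k1, k2⟩ := h6 R z29 (fun j => x (jy j)) (fun a => x (ju a)) M y (fun i => by
    rw [← hy i, Fin.sum_univ_three]
    simp only [aeval_relO, ptA_eq]
    congr 1
    · congr 1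
      · congr 1
        simp [Fin.sum_univ_succ]
      · congr 1
        simp [Fin.sum_univ_succ]
    · congr 1
      simp [Fin.sum_univ_succ, e2, e3]
      ring)
  exact ⟨k1, fun j g => poly_of_sub (fun a => x (ju a)) y _ fun S hS => k2 S hS j g⟩

theorem v7 {I : Type} (η : I → Fin 13 → MvPolynomial (Fin 13) ℤ) (ξ : I → Fin 3 → MvPolynomial (Fin 12) ℤ) (hlift : ∀ i, Lift (η i) (ξ i))
    (h7 : M7 η) (m : ℕ) (hm : 50 ≤ m) : VanAt (PhiP (ZMod 29) (TE TA sA)) m := by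
  refine van_T (by decide) (by decide) (by omega) (TE TA sA) ![2, 4]
    ![![-1, 0, 0, 0, 0, 0, 0], ![0, 1, 0, 0, 0, 0, 0], 0, ![0, 0, 1, 0, 0, 0, -3], 0, ![0, 0, 0, 0, 0, 0, 1], ![0, 0, 0, 1, 0, 0, -2],
      ![0, 0, 0, 0, 1, 0, 0], ![0, 0, 0, 0, 0, 1, 0]]
    ![![1, 0], ![0, 1], ![1, 0], ![3, 0], ![0, 1], ![-1, 0], ![2, 0], 0, 0] (by decide) η ξ hlift 7 ?_ m hm
  intro R _ _ x M _ _ y hy
  have e2 : algebraMap (ZMod 29) R 2 = 2 := map_ofNat _ 2
  have e3 : algebraMap (ZMod 29) R 3 = 3 := map_ofNat _ 3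
  obtain ⟨k1, k2⟩ := h7 R z29 (fun j => x (jy j)) (fun a => x (ju a)) M y (fun i => by
    rw [← hy i, Fin.sum_univ_two]
    simp only [aeval_relO, ptB_eq]
    congr 1
    · congr 1
      simp [Fin.sum_univ_succ, e2, e3]
      ring
    · congr 1
      simp [Fin.sum_univ_succ])
  exact ⟨k1, fun j g => poly_of_sub (fun a => x (ju a)) y _ fun S hS => k2 S hS j g⟩

/-- `T1(f)` is finite -/
theorem fin_A {I : Type} (η : I → Fin 13 → MvPolynomial (Fin 13) ℤ) (ξ : I → Fin 3 → MvPolynomial (Fin 12) ℤ) (hlift : ∀ i, Lift (η i) (ξ i))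
    (h6 : M6 η) (k : Type) [Field k] [CharZero k] : Module.Finite k (T1 k (unf k (Phi0 k TA))) :=
  fin_T k TA 29 49 (v6 η ξ hlift h6)

/-- `F` is stable off `s = 0` -/
theorem stable_A {I : Type} (η : I → Fin 13 → MvPolynomial (Fin 13) ℤ) (ξ : I → Fin 3 → MvPolynomial (Fin 12) ℤ) (hlift : ∀ i, Lift (η i) (ξ i))
    (h7 : M7 η) (k : Type) [Field k] [CharZero k] :
    ∃ e : ℕ, ∀ z : T1 (PowerSeries k) (unf (PowerSeries k) (PhiS k TA sA)), (PowerSeries.X : PowerSeries k) ^ e • z = 0 :=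
  stable_T k TA sA 29 50 (v7 η ξ hlift h7)

end Pool.Agent.LibGF7
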