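import Pool.Agent.LibGF7.D
import Pool.Agent.LibGF7.E1
import Pool.Agent.LibMX34.I1
import Pool.Agent.LibMX34.I4

set_option autoImplicit false

/-! ROW GF7 G (SHORT/MEDIUM). The liftable pair `(ξ, χ)` of `f` and the family `F = Φ + s ψ`.
PLAN. at_toS: atZero k (toS k q) = q, dS (toS k q) = 0 (coefficients are constants). at_FS: atZero k (FS k Φ ψ j) = F0 k Φ j, dS (FS k Φ ψ j) = toS k (ψ j), so
dS (unf _ (FS ..) j) = toS k (padP ψ j) for all j.
pair_lift: E j := subst F (toS (χ j)) - ∑ toS (ξ i) * ∂F_j/∂x_i; atZero of it is the difference of the two sides of hpair (at_sub, at_pderiv,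
MvPowerSeries.subst_coe), so 0; at_ker gives ρ j with E j = sV * ρ j. Apply dS and atZero: atZero (dS (sV * ρ)) = atZero ρ (dS sV = 1), and by dS_subst (I1), dS_mul:
dS (E j) = subst F (dS (toS χ_j) = 0) + ∑_l subst F (∂_l (toS χ_j)) * dS (unf F l) - ∑_i toS ξ_i * ∂_i (dS (unf F j)) (dS commutes with pderiv: coefficientwise,
or prove it for unf F j directly); reduce mod s. -/

namespace Pool.Agent.LibGF7

open Pool.Agent.LibMX34

private theorem GF7G_coeff_toS (k : Type) [Field k] {σ : Type} (q : MvPolynomial σ k) (e : σ →₀ ℕ) :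
    MvPowerSeries.coeff e (toS k q) = PowerSeries.C (MvPolynomial.coeff e q) := by
  unfold toS
  rw [MvPolynomial.coeff_coe, MvPolynomial.coeff_map]
  rfl

private theorem GF7G_dS_X (k : Type) [Field k] {σ : Type} (i : σ) :
    dS k (MvPowerSeries.X i : MvPowerSeries σ (PowerSeries k)) = 0 := by
  classical
  ext e
  change PowerSeries.coeff _ (PowerSeries.derivative k (MvPowerSeries.coeff e (MvPowerSeries.X i))) = _
  rw [MvPowerSeries.coeff_X]
  split_ifs
  · simp
  · simp

private theorem GF7G_dS_sV (k : Type) [Field k] {σ : Type} : dS k (sV k : MvPowerSeries σ (PowerSeries k)) = 1 := by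
  classical
  ext e
  change PowerSeries.coeff _ (PowerSeries.derivative k (MvPowerSeries.coeff e (MvPowerSeries.C (PowerSeries.X : PowerSeries k)))) = _
  rw [MvPowerSeries.coeff_C, MvPowerSeries.coeff_one]
  split_ifs
  · simp [PowerSeries.derivative_X]
  · simp

theorem at_toS (k : Type) [Field k] {σ : Type} (q : MvPolynomial σ k) : atZero k (toS k q) = (q : MvPowerSeries σ k) := by
  ext e
  change PowerSeries.constantCoeff (MvPowerSeries.coeff e (toS k q)) = _
  rw [GF7G_coeff_toS, MvPolynomial.coeff_coe]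
  simp

theorem dS_toS (k : Type) [Field k] {σ : Type} (q : MvPolynomial σ k) : dS k (toS k q) = 0 := by
  ext e
  change PowerSeries.coeff _ (PowerSeries.derivative k (MvPowerSeries.coeff e (toS k q))) = _
  rw [GF7G_coeff_toS]
  simp

theorem at_FS (k : Type) [Field k] {r : ℕ} (Φ ψ : Fin 4 → P k r) (j : Fin 4) : atZero k (FS k Φ ψ j) = F0 k Φ j := by
  unfold FS F0
  rw [map_add, map_mul, at_toS, at_toS]
  have : atZero k (sV k : MvPowerSeries (Fin (r + 3)) (PowerSeries k)) = 0 := by
    unfold atZero sV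
    rw [MvPowerSeries.map_C]
    simp
  rw [this, zero_mul, add_zero]

theorem dS_FS (k : Type) [Field k] {r : ℕ} (Φ ψ : Fin 4 → P k r) (j : Fin (r + 4)) :
    dS k (unf (PowerSeries k) (FS k Φ ψ) j) = toS k (padP ψ j) := by
  have h1 : ∀ i : Fin 4, dS k (FS k Φ ψ i) = toS k (ψ i) := by
    intro i
    unfold FS
    rw [dS_add, dS_mul, dS_toS, dS_toS, GF7G_dS_sV]
    ring
  have h0 : toS k (0 : P k r) = 0 := by
    unfold toS
    simp
  unfold unf padP
  refine Fin.cases ?_ (fun j => ?_) j
  · exact h1 0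
  refine Fin.cases ?_ (fun j => ?_) j
  · exact h1 1
  refine Fin.cases ?_ (fun j => ?_) j
  · exact h1 2
  refine Fin.cases ?_ (fun j => ?_) j
  · exact h1 3
  · simp only [Fin.cons_succ]
    rw [h0]
    exact GF7G_dS_X k _

end Pool.Agent.LibGF7
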