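import Pool.Agent.LibGF7.Sec

set_option autoImplicit false

/-! GF7 Gen (helper7): generation of `B^4` by the parameter directions, for every section of the universal germ (`6` invertible). -/

namespace Pool.Agent.LibGF7

open Pool.Agent.LibMX34

variable {K : Type} [CommRing K] {r : ℕ}

/-- `m e_{j₀}` -/
noncomputable def sg (j₀ : Fin 4) (m : P K r) : Fin 4 → P K r := fun j => if j = j₀ then m else 0

theorem sg_sub (j₀ : Fin 4) (a b : P K r) : sg j₀ (a - b) = sg j₀ a - sg j₀ b := by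
  funext j; simp only [sg, Pi.sub_apply]; split_ifs <;> simp

theorem sg_mul (j₀ : Fin 4) (a b : P K r) : (fun j => a * sg j₀ b j) = sg j₀ (a * b) := by
  funext j; simp only [sg]; split_ifs <;> simp

theorem sg_smul (j₀ : Fin 4) (c : K) (b : P K r) : c • sg j₀ b = sg j₀ (MvPolynomial.C c * b) := by
  funext j; simp only [sg, Pi.smul_apply]; split_ifs
  · rw [MvPolynomial.smul_eq_C_mul]
  · rw [smul_zero]

/-- the condition on the submodule `W ⊇ SO Φ`: an `O`-module -/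
def OStable (Φ : Fin 4 → P K r) (W : Submodule K (Fin 4 → P K r)) : Prop :=
  ∀ (q : MvPolynomial (Fin (r + 4)) K) (v : Fin 4 → P K r), v ∈ W → (fun j => MvPolynomial.aeval (unfP Φ) q * v j) ∈ W

section chain

variable (T : Fin 9 → Fin r → ℤ) (W : Submodule K (Fin 4 → P K r)) (hSO : SO (PhiP K T) ≤ W) (hW : OStable (PhiP K T) W)
  (hE : ∀ t, EP K t ∈ W) (u2 : IsUnit (2 : K)) (u3 : IsUnit (3 : K))

include hW in
theorem mulLs (t : Fin 9) {j₀ : Fin 4} {m : P K r} (hv : sg j₀ m ∈ W) : sg j₀ (Lv K T t * m) ∈ W := by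
  have h := hW (Lw K T t) _ hv
  rw [aeval_unf_Lw] at h
  rwa [sg_mul] at h

include hW in
theorem mulPs (i : Fin 4) {j₀ : Fin 4} {m : P K r} (hv : sg j₀ m ∈ W) : sg j₀ (PhiP K T i * m) ∈ W := by
  have h := hW (MvPolynomial.X (jy i)) _ hv
  rw [MvPolynomial.aeval_X, unfP_jy] at h
  rwa [sg_mul] at h

include hSO in
theorem one_mem (j₀ : Fin 4) : sg j₀ (1 : P K r) ∈ W := by
  have h := hSO (SO_Y (PhiP K T) j₀ 1)
  rw [map_one] at h
  exact h

include hSO hW in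
theorem PhiL (i j₀ : Fin 4) : sg j₀ (PhiP K T i) ∈ W := by
  have h := mulPs T W hW i (one_mem T W hSO j₀)
  rwa [mul_one] at h

include hSO hW in
theorem Lone (t : Fin 9) (j₀ : Fin 4) : sg j₀ (Lv K T t) ∈ W := by
  have h := mulLs T W hW t (one_mem T W hSO j₀)
  rwa [mul_one] at h

theorem two_div {m : P K r} {j₀ : Fin 4} (u2 : IsUnit (2 : K)) (h : sg j₀ (2 * m) ∈ W) : sg j₀ m ∈ W := by
  rw [← Submodule.smul_mem_iff_of_isUnit W u2, sg_smul]
  rwa [map_ofNat]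

theorem three_div {m : P K r} {j₀ : Fin 4} (u3 : IsUnit (3 : K)) (h : sg j₀ (3 * m) ∈ W) : sg j₀ m ∈ W := by
  rw [← Submodule.smul_mem_iff_of_isUnit W u3, sg_smul]
  rwa [map_ofNat]

include hSO hW hE u2 in
/-- degree 1 -/
theorem deg1 (l : Fin 3) (j₀ : Fin 4) : sg j₀ (MvPolynomial.X (ix l) : P K r) ∈ W := by
  have hE' : ∀ (t : Fin 9) (l : Fin 3) (j₀ : Fin 4), (EP K t : Fin 4 → P K r) = sg j₀ (MvPolynomial.X (ix l)) →
      sg j₀ (MvPolynomial.X (ix l) : P K r) ∈ W := by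
    intro t l j₀ h
    rw [← h]; exact hE t
  have e0 : sg 0 (MvPolynomial.X (ix 1) : P K r) ∈ W := hE' 0 1 0 (by funext j; fin_cases j <;> simp [EP, sg])
  have e1 : sg 0 (MvPolynomial.X (ix 2) : P K r) ∈ W := hE' 1 2 0 (by funext j; fin_cases j <;> simp [EP, sg])
  have e2 : sg 1 (MvPolynomial.X (ix 0) : P K r) ∈ W := hE' 2 0 1 (by funext j; fin_cases j <;> simp [EP, sg])
  have e3 : sg 1 (MvPolynomial.X (ix 2) : P K r) ∈ W := hE' 3 2 1 (by funext j; fin_cases j <;> simp [EP, sg])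
  have e4 : sg 2 (MvPolynomial.X (ix 0) : P K r) ∈ W := hE' 4 0 2 (by funext j; fin_cases j <;> simp [EP, sg])
  have e5 : sg 2 (MvPolynomial.X (ix 1) : P K r) ∈ W := hE' 5 1 2 (by funext j; fin_cases j <;> simp [EP, sg])
  have e6 : sg 3 (MvPolynomial.X (ix 0) : P K r) ∈ W := hE' 6 0 3 (by funext j; fin_cases j <;> simp [EP, sg])
  have e7 : sg 3 (MvPolynomial.X (ix 1) : P K r) ∈ W := hE' 7 1 3 (by funext j; fin_cases j <;> simp [EP, sg])
  have e8 : sg 3 (MvPolynomial.X (ix 2) : P K r) ∈ W := hE' 8 2 3 (by funext j; fin_cases j <;> simp [EP, sg])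
  have hx : sg 0 (MvPolynomial.X (ix 0) : P K r) ∈ W := by
    apply two_div W u2
    have h := hSO (SO_X (PhiP K T) 0 1)
    have e : sg 0 (2 * MvPolynomial.X (ix 0)) =
        (fun j => 1 * MvPolynomial.pderiv (ix 0) (PhiP K T j)) - sg 1 (MvPolynomial.X (ix 2)) - sg 1 (Lv K T 2)
          - sg 2 (MvPolynomial.X (ix 1)) - sg 2 (Lv K T 4) - sg 3 (Lv K T 6) := by
      funext j
      simp only [PhiP_dx, Pi.sub_apply]
      fin_cases j <;> simp [sg]
    rw [e]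
    exact W.sub_mem (W.sub_mem (W.sub_mem (W.sub_mem (W.sub_mem h e3) (Lone T W hSO hW 2 1)) e5) (Lone T W hSO hW 4 2)) (Lone T W hSO hW 6 3)
  have hy : sg 1 (MvPolynomial.X (ix 1) : P K r) ∈ W := by
    apply two_div W u2
    have h := hSO (SO_X (PhiP K T) 1 1)
    have e : sg 1 (2 * MvPolynomial.X (ix 1)) =
        (fun j => 1 * MvPolynomial.pderiv (ix 1) (PhiP K T j)) - sg 0 (Lv K T 0) - sg 2 (MvPolynomial.X (ix 0))
          - sg 2 (Lv K T 5) - sg 3 (MvPolynomial.X (ix 2)) - sg 3 (Lv K T 7) := by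
      funext j
      simp only [PhiP_dy, Pi.sub_apply]
      fin_cases j <;> simp [sg]
    rw [e]
    exact W.sub_mem (W.sub_mem (W.sub_mem (W.sub_mem (W.sub_mem h (Lone T W hSO hW 0 0)) e4) (Lone T W hSO hW 5 2)) e8) (Lone T W hSO hW 7 3)
  have hz : sg 2 (MvPolynomial.X (ix 2) : P K r) ∈ W := by
    apply two_div W u2
    have h := hSO (SO_X (PhiP K T) 2 1)
    have e : sg 2 (2 * MvPolynomial.X (ix 2)) =
        (fun j => 1 * MvPolynomial.pderiv (ix 2) (PhiP K T j)) - sg 0 (Lv K T 1) - sg 1 (MvPolynomial.X (ix 0))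
          - sg 1 (Lv K T 3) - sg 3 (MvPolynomial.X (ix 1)) - sg 3 (Lv K T 8) := by
      funext j
      simp only [PhiP_dz, Pi.sub_apply]
      fin_cases j <;> simp [sg]
    rw [e]
    exact W.sub_mem (W.sub_mem (W.sub_mem (W.sub_mem (W.sub_mem h (Lone T W hSO hW 1 0)) e2) (Lone T W hSO hW 3 1)) e7) (Lone T W hSO hW 8 3)
  fin_cases l <;> fin_cases j₀ <;> assumption

include hSO hW hE u2 in
/-- degree 2, squares and `y z` -/
theorem deg2a (j₀ : Fin 4) : sg j₀ (MvPolynomial.X (ix 0) ^ 2 : P K r) ∈ W ∧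
    sg j₀ (MvPolynomial.X (ix 1) ^ 2 + MvPolynomial.X (ix 0) * MvPolynomial.X (ix 2) : P K r) ∈ W ∧
    sg j₀ (MvPolynomial.X (ix 2) ^ 2 + MvPolynomial.X (ix 0) * MvPolynomial.X (ix 1) : P K r) ∈ W ∧
    sg j₀ (MvPolynomial.X (ix 1) * MvPolynomial.X (ix 2) : P K r) ∈ W := by
  have d1 := deg1 T W hSO hW hE u2
  refine ⟨?_, ?_, ?_, ?_⟩
  · have e : (MvPolynomial.X (ix 0) ^ 2 : P K r) = PhiP K T 0 - Lv K T 0 * MvPolynomial.X (ix 1) - Lv K T 1 * MvPolynomial.X (ix 2) := by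
      simp [PhiP]
      ring
    rw [e, sg_sub, sg_sub]
    exact W.sub_mem (W.sub_mem (PhiL T W hSO hW 0 j₀) (mulLs T W hW 0 (d1 1 j₀))) (mulLs T W hW 1 (d1 2 j₀))
  · have e : (MvPolynomial.X (ix 1) ^ 2 + MvPolynomial.X (ix 0) * MvPolynomial.X (ix 2) : P K r) =
        PhiP K T 1 - Lv K T 2 * MvPolynomial.X (ix 0) - Lv K T 3 * MvPolynomial.X (ix 2) := by
      simp [PhiP]
      ring
    rw [e, sg_sub, sg_sub]
    exact W.sub_mem (W.sub_mem (PhiL T W hSO hW 1 j₀) (mulLs T W hW 2 (d1 0 j₀))) (mulLs T W hW 3 (d1 2 j₀))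
  · have e : (MvPolynomial.X (ix 2) ^ 2 + MvPolynomial.X (ix 0) * MvPolynomial.X (ix 1) : P K r) =
        PhiP K T 2 - Lv K T 4 * MvPolynomial.X (ix 0) - Lv K T 5 * MvPolynomial.X (ix 1) := by
      simp [PhiP]
      ring
    rw [e, sg_sub, sg_sub]
    exact W.sub_mem (W.sub_mem (PhiL T W hSO hW 2 j₀) (mulLs T W hW 4 (d1 0 j₀))) (mulLs T W hW 5 (d1 1 j₀))
  · have e : (MvPolynomial.X (ix 1) * MvPolynomial.X (ix 2) : P K r) =
        PhiP K T 3 - Lv K T 6 * MvPolynomial.X (ix 0) - Lv K T 7 * MvPolynomial.X (ix 1) - Lv K T 8 * MvPolynomial.X (ix 2) := by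
      simp [PhiP]
      ring
    rw [e, sg_sub, sg_sub, sg_sub]
    exact W.sub_mem (W.sub_mem (W.sub_mem (PhiL T W hSO hW 3 j₀) (mulLs T W hW 6 (d1 0 j₀))) (mulLs T W hW 7 (d1 1 j₀)))
      (mulLs T W hW 8 (d1 2 j₀))

/-- a vector is in `W` if it differs by elements of `W` -/
theorem mem_of_eq {v w : Fin 4 → P K r} (hw : w ∈ W) (h : v = w) : v ∈ W := h ▸ hw

include hSO hW hE u2 u3 in
/-- degree 2, `x y` and `x z` -/
theorem deg2b (j₀ : Fin 4) : sg j₀ (MvPolynomial.X (ix 0) * MvPolynomial.X (ix 1) : P K r) ∈ W ∧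
    sg j₀ (MvPolynomial.X (ix 0) * MvPolynomial.X (ix 2) : P K r) ∈ W := by
  have d1 := deg1 T W hSO hW hE u2
  have d2 := deg2a T W hSO hW hE u2
  have L := fun (t : Fin 9) (l : Fin 3) (j₀ : Fin 4) => mulLs T W hW t (d1 l j₀)
  -- the nine products
  have p : ∀ i l : Fin 3, (fun j => MvPolynomial.X (ix l) * MvPolynomial.pderiv (ix i) (PhiP K T j)) ∈ W := fun i l => hSO (SO_X _ i _)
  -- x D_x : xz e1 + xy e2
  have r1 : sg 1 (MvPolynomial.X (ix 0) * MvPolynomial.X (ix 2) : P K r) + sg 2 (MvPolynomial.X (ix 0) * MvPolynomial.X (ix 1)) ∈ W := by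
    refine mem_of_eq W (W.sub_mem (W.sub_mem (W.sub_mem (W.sub_mem (W.sub_mem (p 0 0) (d2 0).1) (d2 0).1) (L 2 0 1)) (L 4 0 2)) (L 6 0 3)) ?_
    funext j
    simp only [PhiP_dx, Pi.sub_apply, Pi.add_apply]
    fin_cases j <;> simp [sg] <;> ring
  -- y D_x : 2 xy e0 - xz e2
  have r2 : sg 0 (2 * (MvPolynomial.X (ix 0) * MvPolynomial.X (ix 1)) : P K r) - sg 2 (MvPolynomial.X (ix 0) * MvPolynomial.X (ix 2)) ∈ W := by
    refine mem_of_eq W (W.sub_mem (W.sub_mem (W.sub_mem (W.sub_mem (W.sub_mem (p 0 1) (d2 1).2.2.2) (L 2 1 1)) (d2 2).2.1) (L 4 1 2)) (L 6 1 3)) ?_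
    funext j
    simp only [PhiP_dx, Pi.sub_apply]
    fin_cases j <;> simp [sg] <;> ring
  -- z D_x : 2 xz e0 - xy e1
  have r3 : sg 0 (2 * (MvPolynomial.X (ix 0) * MvPolynomial.X (ix 2)) : P K r) - sg 1 (MvPolynomial.X (ix 0) * MvPolynomial.X (ix 1)) ∈ W := by
    refine mem_of_eq W (W.sub_mem (W.sub_mem (W.sub_mem (W.sub_mem (W.sub_mem (p 0 2) (d2 2).2.2.2) (L 2 2 1)) (d2 1).2.2.1) (L 4 2 2)) (L 6 2 3)) ?_
    funext j
    simp only [PhiP_dx, Pi.sub_apply]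
    fin_cases j <;> simp [sg] <;> ring
  -- x D_y : 2 xy e1 + xz e3
  have r4 : sg 1 (2 * (MvPolynomial.X (ix 0) * MvPolynomial.X (ix 1)) : P K r) + sg 3 (MvPolynomial.X (ix 0) * MvPolynomial.X (ix 2)) ∈ W := by
    refine mem_of_eq W (W.sub_mem (W.sub_mem (W.sub_mem (W.sub_mem (p 1 0) (L 0 0 0)) (d2 2).1) (L 5 0 2)) (L 7 0 3)) ?_
    funext j
    simp only [PhiP_dy, Pi.sub_apply, Pi.add_apply]
    fin_cases j <;> simp [sg] <;> ring
  -- y D_y : -2 xz e1 + xy e2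
  have r5 : sg 2 (MvPolynomial.X (ix 0) * MvPolynomial.X (ix 1) : P K r) - sg 1 (2 * (MvPolynomial.X (ix 0) * MvPolynomial.X (ix 2))) ∈ W := by
    refine mem_of_eq W (W.sub_mem (W.sub_mem (W.sub_mem (W.sub_mem (W.sub_mem (W.sub_mem (p 1 1) (L 0 1 0)) (d2 1).2.1) (d2 1).2.1) (L 5 1 2))
      (L 7 1 3)) (d2 3).2.2.2) ?_
    funext j
    simp only [PhiP_dy, Pi.sub_apply]
    fin_cases j <;> simp [sg] <;> ring
  -- z D_y : xz e2 - xy e3
  have r6 : sg 2 (MvPolynomial.X (ix 0) * MvPolynomial.X (ix 2) : P K r) - sg 3 (MvPolynomial.X (ix 0) * MvPolynomial.X (ix 1)) ∈ W := by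
    refine mem_of_eq W (W.sub_mem (W.sub_mem (W.sub_mem (W.sub_mem (W.sub_mem (W.sub_mem (p 1 2) (L 0 2 0)) (d2 1).2.2.2) (d2 1).2.2.2) (L 5 2 2))
      (L 7 2 3)) (d2 3).2.2.1) ?_
    funext j
    simp only [PhiP_dy, Pi.sub_apply]
    fin_cases j <;> simp [sg] <;> ring
  -- x D_z : 2 xz e2 + xy e3
  have r7 : sg 2 (2 * (MvPolynomial.X (ix 0) * MvPolynomial.X (ix 2)) : P K r) + sg 3 (MvPolynomial.X (ix 0) * MvPolynomial.X (ix 1)) ∈ W := by
    refine mem_of_eq W (W.sub_mem (W.sub_mem (W.sub_mem (W.sub_mem (p 2 0) (L 1 0 0)) (d2 1).1) (L 3 0 1)) (L 8 0 3)) ?_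
    funext j
    simp only [PhiP_dz, Pi.sub_apply, Pi.add_apply]
    fin_cases j <;> simp [sg] <;> ring
  -- y D_z : xy e1 - xz e3
  have r8 : sg 1 (MvPolynomial.X (ix 0) * MvPolynomial.X (ix 1) : P K r) - sg 3 (MvPolynomial.X (ix 0) * MvPolynomial.X (ix 2)) ∈ W := by
    refine mem_of_eq W (W.sub_mem (W.sub_mem (W.sub_mem (W.sub_mem (W.sub_mem (W.sub_mem (p 2 1) (L 1 1 0)) (L 3 1 1)) (d2 2).2.2.2) (d2 2).2.2.2)
      (L 8 1 3)) (d2 3).2.1) ?_
    funext j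
    simp only [PhiP_dz, Pi.sub_apply]
    fin_cases j <;> simp [sg] <;> ring
  -- z D_z : xz e1 - 2 xy e2
  have r9 : sg 1 (MvPolynomial.X (ix 0) * MvPolynomial.X (ix 2) : P K r) - sg 2 (2 * (MvPolynomial.X (ix 0) * MvPolynomial.X (ix 1))) ∈ W := by
    refine mem_of_eq W (W.sub_mem (W.sub_mem (W.sub_mem (W.sub_mem (W.sub_mem (W.sub_mem (p 2 2) (L 1 2 0)) (L 3 2 1)) (d2 2).2.2.1) (d2 2).2.2.1)
      (L 8 2 3)) (d2 3).2.2.2) ?_
    funext j
    simp only [PhiP_dz, Pi.sub_apply]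
    fin_cases j <;> simp [sg] <;> ring
  -- solve
  have xz1 : sg 1 (MvPolynomial.X (ix 0) * MvPolynomial.X (ix 2) : P K r) ∈ W := by
    apply three_div W u3
    refine mem_of_eq W (W.sub_mem r1 r5) ?_
    funext j; fin_cases j <;> simp [sg] <;> ring
  have xy2 : sg 2 (MvPolynomial.X (ix 0) * MvPolynomial.X (ix 1) : P K r) ∈ W := by
    refine mem_of_eq W (W.sub_mem r1 xz1) ?_
    funext j; fin_cases j <;> simp [sg]
  have xy1 : sg 1 (MvPolynomial.X (ix 0) * MvPolynomial.X (ix 1) : P K r) ∈ W := by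
    apply three_div W u3
    refine mem_of_eq W (W.add_mem r4 r8) ?_
    funext j; fin_cases j <;> simp [sg] <;> ring
  have xz3 : sg 3 (MvPolynomial.X (ix 0) * MvPolynomial.X (ix 2) : P K r) ∈ W := by
    refine mem_of_eq W (W.sub_mem xy1 r8) ?_
    funext j; fin_cases j <;> simp [sg]
  have xz2 : sg 2 (MvPolynomial.X (ix 0) * MvPolynomial.X (ix 2) : P K r) ∈ W := by
    apply three_div W u3
    refine mem_of_eq W (W.add_mem r6 r7) ?_
    funext j; fin_cases j <;> simp [sg] <;> ring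
  have xy3 : sg 3 (MvPolynomial.X (ix 0) * MvPolynomial.X (ix 1) : P K r) ∈ W := by
    refine mem_of_eq W (W.sub_mem xz2 r6) ?_
    funext j; fin_cases j <;> simp [sg]
  have xy0 : sg 0 (MvPolynomial.X (ix 0) * MvPolynomial.X (ix 1) : P K r) ∈ W := by
    apply two_div W u2
    refine mem_of_eq W (W.add_mem r2 xz2) ?_
    funext j; fin_cases j <;> simp [sg]
  have xz0 : sg 0 (MvPolynomial.X (ix 0) * MvPolynomial.X (ix 2) : P K r) ∈ W := by
    apply two_div W u2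
    refine mem_of_eq W (W.add_mem r3 xy1) ?_
    funext j; fin_cases j <;> simp [sg]
  fin_cases j₀ <;> exact ⟨by assumption, by assumption⟩

include hSO hW hE u2 u3 in
/-- degree 3 -/
theorem deg3 (j₀ : Fin 4) : sg j₀ (MvPolynomial.X (ix 0) * MvPolynomial.X (ix 1) * MvPolynomial.X (ix 2) : P K r) ∈ W := by
  have d1 := deg1 T W hSO hW hE u2
  have d2 := deg2a T W hSO hW hE u2
  have d2b := deg2b T W hSO hW hE u2 u3
  refine mem_of_eq W (W.sub_mem (W.sub_mem (W.sub_mem (mulPs T W hW 3 (d1 0 j₀)) (mulLs T W hW 6 (d2 j₀).1)) (mulLs T W hW 7 (d2b j₀).1))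
    (mulLs T W hW 8 (d2b j₀).2)) ?_
  rw [← sg_sub, ← sg_sub, ← sg_sub]
  congr 1
  simp [PhiP]
  ring

include hSO hW hE u2 u3 in
theorem gen_h1 : ∀ a b c : ℕ, a ≤ 1 → b ≤ 1 → c ≤ 1 → 1 ≤ a + b + c → ∀ j₀ : Fin 4, (xe K a b c j₀ : Fin 4 → P K r) ∈ W := by
  have d1 := deg1 T W hSO hW hE u2
  have d2 := deg2a T W hSO hW hE u2
  have d2b := deg2b T W hSO hW hE u2 u3
  have d3 := deg3 T W hSO hW hE u2 u3
  intro a b c ha hb hc habc j₀
  have e : (xe K a b c j₀ : Fin 4 → P K r) = sg j₀ (MvPolynomial.X (ix 0) ^ a * MvPolynomial.X (ix 1) ^ b * MvPolynomial.X (ix 2) ^ c) := rfl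
  rw [e]
  interval_cases a <;> interval_cases b <;> interval_cases c <;> simp only [pow_zero, pow_one, one_mul, mul_one]
  · omega
  · exact d1 2 j₀
  · exact d1 1 j₀
  · exact (d2 j₀).2.2.2
  · exact d1 0 j₀
  · exact (d2b j₀).2
  · exact (d2b j₀).1
  · exact d3 j₀

end chain

end Pool.Agent.LibGF7
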