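import Pool.Agent.LibGF7.Bridge

set_option autoImplicit false

/-! GF7 Hne (helper7): the hypothesis `hne` of `R_cert` from an integer functional. -/

namespace Pool.Agent.LibGF7

open Pool.Agent.LibMX34

/-- the germ `f` of the example, integer polynomials -/
theorem PhiP_TA : PhiP ℤ TA = ![(MvPolynomial.X 0 : MvPolynomial (Fin 9) ℤ) ^ 2 - MvPolynomial.X 3 * MvPolynomial.X 1 + MvPolynomial.X 4 * MvPolynomial.X 2,
    MvPolynomial.X 1 ^ 2 + MvPolynomial.X 0 * MvPolynomial.X 2 + MvPolynomial.X 3 * MvPolynomial.X 0 + MvPolynomial.X 5 * MvPolynomial.X 2,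
    MvPolynomial.X 2 ^ 2 + MvPolynomial.X 0 * MvPolynomial.X 1 - MvPolynomial.X 4 * MvPolynomial.X 0 +
      (3 * MvPolynomial.X 5 + 2 * MvPolynomial.X 6) * MvPolynomial.X 1,
    MvPolynomial.X 1 * MvPolynomial.X 2 + MvPolynomial.X 6 * MvPolynomial.X 0 + MvPolynomial.X 7 * MvPolynomial.X 1 + MvPolynomial.X 8 * MvPolynomial.X 2] := by
  have x0 : (ix 0 : Fin (6 + 3)) = 0 := rfl
  have x1 : (ix 1 : Fin (6 + 3)) = 1 := rfl
  have x2 : (ix 2 : Fin (6 + 3)) = 2 := rfl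
  have u0 : (iu 0 : Fin (6 + 3)) = 3 := rfl
  have u1 : (iu 1 : Fin (6 + 3)) = 4 := rfl
  have u2 : (iu 2 : Fin (6 + 3)) = 5 := rfl
  have u3 : (iu 3 : Fin (6 + 3)) = 6 := rfl
  have u4 : (iu 4 : Fin (6 + 3)) = 7 := rfl
  have u5 : (iu 5 : Fin (6 + 3)) = 8 := rfl
  funext j
  fin_cases j <;> simp [PhiP, Lv, TA, Fin.sum_univ_six, x0, x1, x2, u0, u1, u2, u3, u4, u5] <;> ring

/-- substitution of the unfolding in a polynomial -/
theorem subst_poly (k : Type) [Field k] (w : MvPolynomial (Fin 10) ℤ) :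
    MvPowerSeries.subst (unf k (Phi0 k TA)) ((MvPolynomial.map (algebraMap ℤ k) w : MvPolynomial (Fin 10) k) : MvPowerSeries (Fin 10) k) =
      ((MvPolynomial.map (algebraMap ℤ k) (MvPolynomial.aeval (unfP (PhiP ℤ TA)) w) : P k 6) : MvPowerSeries (Fin 9) k) := by
  rw [MvPowerSeries.subst_coe, map_aeval_unfP, cg_PhiP, coe_aeval]
  have e : (unf k (Phi0 k TA)) = fun j => ((unfP (PhiP k TA) j : P k 6) : MvPowerSeries (Fin (6 + 3)) k) := by
    rw [← show F0 k (PhiP k TA) = Phi0 k TA from funext (F0_PhiP k TA)]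
    funext j
    exact unf_eq k _ j
  rw [e]

/-- the vector of `R_cert` -/
noncomputable def vP (w₀ w₁ w₂ a : MvPolynomial (Fin 10) ℤ) : Fin 4 → P ℤ 6 :=
  ![0, MvPolynomial.aeval (unfP (PhiP ℤ TA)) (16 * w₀ - a) * MvPolynomial.X 0,
    MvPolynomial.aeval (unfP (PhiP ℤ TA)) (16 * w₁) * MvPolynomial.X 0 + MvPolynomial.aeval (unfP (PhiP ℤ TA)) (16 * w₂ - a) * MvPolynomial.X 1, 0]

/-- an integer polynomial as a power series over `k` -/
noncomputable def zS (k : Type) [Field k] {σ : Type} (w : MvPolynomial σ ℤ) : MvPowerSeries σ k :=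
  ((MvPolynomial.map (algebraMap ℤ k) w : MvPolynomial σ k) : MvPowerSeries σ k)

theorem zS_eq (k : Type) [Field k] {σ : Type} (w : MvPolynomial σ ℤ) :
    zS k w = (MvPolynomial.coeToMvPowerSeries.ringHom.comp (MvPolynomial.map (algebraMap ℤ k)) : MvPolynomial σ ℤ →+* MvPowerSeries σ k) w := rfl

theorem pad_vec (k : Type) [Field k] (p₀ p₁ p₂ : P ℤ 6) :
    (Fin.cons 0 (Fin.cons (zS k p₀ * MvPowerSeries.X 0) (Fin.cons (zS k p₁ * MvPowerSeries.X 0 + zS k p₂ * MvPowerSeries.X 1)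
      (Fin.cons 0 fun _ : Fin 6 => 0))) : Fin 10 → MvPowerSeries (Fin 9) k) =
    fun j => zS k (padP (![0, p₀ * MvPolynomial.X 0, p₁ * MvPolynomial.X 0 + p₂ * MvPolynomial.X 1, 0] : Fin 4 → P ℤ 6) j) := by
  have z : zS k (0 : P ℤ 6) = 0 := by rw [zS_eq, map_zero]
  have hX : ∀ i : Fin 9, zS k (MvPolynomial.X i : P ℤ 6) = MvPowerSeries.X i := fun i => by
    rw [zS, MvPolynomial.map_X, MvPolynomial.coe_X]
  have h1 : zS k (p₀ * MvPolynomial.X 0) = zS k p₀ * MvPowerSeries.X (0 : Fin 9) := by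
    rw [← hX 0, zS_eq, zS_eq, zS_eq, map_mul]
  have h2 : zS k (p₁ * MvPolynomial.X 0 + p₂ * MvPolynomial.X 1) = zS k p₁ * MvPowerSeries.X (0 : Fin 9) + zS k p₂ * MvPowerSeries.X (1 : Fin 9) := by
    rw [← hX 0, ← hX 1, zS_eq, zS_eq, zS_eq, zS_eq, zS_eq, map_add, map_mul, map_mul]
  funext j
  refine Fin.cases ?_ (fun j => ?_) j
  · exact z.symm
  refine Fin.cases ?_ (fun j => ?_) j
  · exact h1.symm
  refine Fin.cases ?_ (fun j => ?_) j
  · exact h2.symm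
  refine Fin.cases ?_ (fun j => ?_) j
  · exact z.symm
  · exact z.symm

theorem hne_of (w₀ w₁ w₂ a : MvPolynomial (Fin 10) ℤ)
    (m : ℕ) (S : Finset (Fin (6 + 3) →₀ ℕ)) (hS : ∀ e ∈ S, Finsupp.degree e = m) (lam : Fin 4 → (Fin (6 + 3) →₀ ℕ) → ℤ)
    (h1 : ∀ i α, Finsupp.degree α + 1 = m → Lf S lam (gX (PhiP ℤ TA) i α) = 0)
    (h2 : ∀ j₀ β, Finsupp.weight (wt 6) β = m → Lf S lam (gY (PhiP ℤ TA) j₀ β) = 0)
    (h3 : ∀ a β, Finsupp.weight (wt 6) β + 1 = m → Lf S lam (gU (PhiP ℤ TA) a β) = 0)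
    (h5 : Lf S lam (vP w₀ w₁ w₂ a) ≠ 0)
    (k : Type) [Field k] [CharZero k] :
    (Fin.cons 0 (Fin.cons (MvPowerSeries.subst (unf k (Phi0 k TA)) (16 * zS k w₀ - zS k a) * MvPowerSeries.X 0)
      (Fin.cons (MvPowerSeries.subst (unf k (Phi0 k TA)) (16 * zS k w₁) * MvPowerSeries.X 0 +
        MvPowerSeries.subst (unf k (Phi0 k TA)) (16 * zS k w₂ - zS k a) * MvPowerSeries.X 1)
      (Fin.cons 0 fun _ : Fin 6 => 0))) : Fin 10 → MvPowerSeries (Fin 9) k) ∉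
      tangentSource k (unf k (Phi0 k TA)) ⊔ tangentTarget k (unf k (Phi0 k TA)) := by
  have key := not_mem_t (PhiP ℤ TA) (PhiP_hom ℤ TA) m S hS lam h1 h2 h3 (padP (vP w₀ w₁ w₂ a)) (by
    have e : (fun j => padP (vP w₀ w₁ w₂ a) (jy j) - ∑ b, padP (vP w₀ w₁ w₂ a) (ju b) * MvPolynomial.pderiv (iu b) (PhiP ℤ TA j)) =
        vP w₀ w₁ w₂ a := by
      funext j
      simp only [padP_jy, padP_ju, zero_mul, Finset.sum_const_zero, sub_zero]
    rw [e]
    exact h5) k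
  rw [cg_PhiP, show F0 k (PhiP k TA) = Phi0 k TA from funext (F0_PhiP k TA)] at key
  have e16 : ∀ w : MvPolynomial (Fin 10) ℤ, (16 * zS k w : MvPowerSeries (Fin 10) k) = zS k (16 * w) := by
    intro w
    rw [zS_eq, zS_eq, map_mul, map_ofNat]
  have es : ∀ v w : MvPolynomial (Fin 10) ℤ, (zS k v - zS k w : MvPowerSeries (Fin 10) k) = zS k (v - w) := by
    intro v w
    rw [zS_eq, zS_eq, zS_eq, map_sub]
  have e1 : ∀ w : MvPolynomial (Fin 10) ℤ, MvPowerSeries.subst (unf k (Phi0 k TA)) (zS k w) =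
      ((MvPolynomial.map (algebraMap ℤ k) (MvPolynomial.aeval (unfP (PhiP ℤ TA)) w) : P k 6) : MvPowerSeries (Fin 9) k) := fun w => subst_poly k w
  have hfun : (Fin.cons 0 (Fin.cons (MvPowerSeries.subst (unf k (Phi0 k TA)) (16 * zS k w₀ - zS k a) * MvPowerSeries.X 0)
      (Fin.cons (MvPowerSeries.subst (unf k (Phi0 k TA)) (16 * zS k w₁) * MvPowerSeries.X 0 +
        MvPowerSeries.subst (unf k (Phi0 k TA)) (16 * zS k w₂ - zS k a) * MvPowerSeries.X 1)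
      (Fin.cons 0 fun _ : Fin 6 => 0))) : Fin 10 → MvPowerSeries (Fin 9) k) =
      fun j => ((MvPolynomial.map (algebraMap ℤ k) (padP (vP w₀ w₁ w₂ a) j) : P k 6) : MvPowerSeries (Fin 9) k) := by
    simp only [e16, es, e1]
    exact pad_vec k _ _ _
  intro hcon
  rw [hfun] at hcon
  exact key hcon

end Pool.Agent.LibGF7
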