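import Pool.Agent.LibGF7.A2b

set_option autoImplicit false

/-! GF7 Mod (helper7): the reduced tangent space `SO Φ` as a module over `O = K[Y, u]`, and the finite certificate in terms of `SO`. -/

namespace Pool.Agent.LibGF7

variable {K : Type} [CommRing K] {r : ℕ}

/-- the reduced tangent space `B ∂Φ/∂x_i + O e_j + O ∂Φ/∂u_a` -/
noncomputable def SO (Φ : Fin 4 → P K r) : Submodule K (Fin 4 → P K r) := ⨆ n, SR Φ n

theorem SR_le_SO (Φ : Fin 4 → P K r) (m : ℕ) : SR Φ m ≤ SO Φ := le_iSup (SR Φ) m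

theorem gX_mem (Φ : Fin 4 → P K r) (i : Fin 3) (α : Fin (r + 3) →₀ ℕ) : gX Φ i α ∈ SO Φ :=
  SR_le_SO Φ (Finsupp.degree α + 1) (Submodule.subset_span (Or.inl (Or.inl ⟨i, α, rfl, rfl⟩)))

theorem gY_mem (Φ : Fin 4 → P K r) (j₀ : Fin 4) (β : Fin (r + 4) →₀ ℕ) : gY Φ j₀ β ∈ SO Φ :=
  SR_le_SO Φ (Finsupp.weight (wt r) β) (Submodule.subset_span (Or.inl (Or.inr ⟨j₀, β, rfl, rfl⟩)))

theorem gU_mem (Φ : Fin 4 → P K r) (a : Fin r) (β : Fin (r + 4) →₀ ℕ) : gU Φ a β ∈ SO Φ :=
  SR_le_SO Φ (Finsupp.weight (wt r) β + 1) (Submodule.subset_span (Or.inr ⟨a, β, rfl, rfl⟩))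

theorem aeval_mon (Φ : Fin 4 → P K r) (β : Fin (r + 4) →₀ ℕ) (c : K) :
    MvPolynomial.aeval (unfP Φ) (MvPolynomial.monomial β c) = c • fb Φ β := by
  rw [MvPolynomial.aeval_monomial, MvPolynomial.algebraMap_eq, ← MvPolynomial.smul_eq_C_mul]
  rfl

theorem SO_X (Φ : Fin 4 → P K r) (i : Fin 3) (b : P K r) : (fun j => b * MvPolynomial.pderiv (ix i) (Φ j)) ∈ SO Φ := by
  induction b using MvPolynomial.induction_on' with
  | monomial u a =>
    have e : (fun j => MvPolynomial.monomial u a * MvPolynomial.pderiv (ix i) (Φ j)) = a • gX Φ i u := by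
      funext j
      rw [Pi.smul_apply, gX, ← smul_mul_assoc, MvPolynomial.smul_monomial, smul_eq_mul, mul_one]
    rw [e]
    exact Submodule.smul_mem _ _ (gX_mem Φ i u)
  | add p q hp hq =>
    have e : (fun j => (p + q) * MvPolynomial.pderiv (ix i) (Φ j)) =
        (fun j => p * MvPolynomial.pderiv (ix i) (Φ j)) + fun j => q * MvPolynomial.pderiv (ix i) (Φ j) := by
      funext j
      rw [Pi.add_apply, add_mul]
    rw [e]
    exact Submodule.add_mem _ hp hq

theorem SO_Y (Φ : Fin 4 → P K r) (j₀ : Fin 4) (q : MvPolynomial (Fin (r + 4)) K) :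
    (fun j => if j = j₀ then MvPolynomial.aeval (unfP Φ) q else 0) ∈ SO Φ := by
  induction q using MvPolynomial.induction_on' with
  | monomial u a =>
    have e : (fun j => if j = j₀ then MvPolynomial.aeval (unfP Φ) (MvPolynomial.monomial u a) else 0) = a • gY Φ j₀ u := by
      funext j
      rw [Pi.smul_apply, gY, aeval_mon]
      split_ifs <;> simp
    rw [e]
    exact Submodule.smul_mem _ _ (gY_mem Φ j₀ u)
  | add p q hp hq =>
    have e : (fun j => if j = j₀ then MvPolynomial.aeval (unfP Φ) (p + q) else 0) =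
        (fun j => if j = j₀ then MvPolynomial.aeval (unfP Φ) p else 0) + fun j => if j = j₀ then MvPolynomial.aeval (unfP Φ) q else 0 := by
      funext j
      rw [Pi.add_apply, map_add]
      split_ifs <;> simp
    rw [e]
    exact Submodule.add_mem _ hp hq

theorem SO_U (Φ : Fin 4 → P K r) (a : Fin r) (q : MvPolynomial (Fin (r + 4)) K) :
    (fun j => MvPolynomial.aeval (unfP Φ) q * MvPolynomial.pderiv (iu a) (Φ j)) ∈ SO Φ := by
  induction q using MvPolynomial.induction_on' with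
  | monomial u c =>
    have e : (fun j => MvPolynomial.aeval (unfP Φ) (MvPolynomial.monomial u c) * MvPolynomial.pderiv (iu a) (Φ j)) = c • gU Φ a u := by
      funext j
      rw [Pi.smul_apply, gU, aeval_mon, smul_mul_assoc]
    rw [e]
    exact Submodule.smul_mem _ _ (gU_mem Φ a u)
  | add p q hp hq =>
    have e : (fun j => MvPolynomial.aeval (unfP Φ) (p + q) * MvPolynomial.pderiv (iu a) (Φ j)) =
        (fun j => MvPolynomial.aeval (unfP Φ) p * MvPolynomial.pderiv (iu a) (Φ j)) +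
          fun j => MvPolynomial.aeval (unfP Φ) q * MvPolynomial.pderiv (iu a) (Φ j) := by
      funext j
      rw [Pi.add_apply, map_add, add_mul]
    rw [e]
    exact Submodule.add_mem _ hp hq

private theorem unfP_cases (j : Fin (r + 4)) : (∃ i : Fin 4, j = jy i) ∨ ∃ a : Fin r, j = ju a := by
  refine Fin.cases ?_ (fun j => ?_) j
  · exact Or.inl ⟨0, rfl⟩
  refine Fin.cases ?_ (fun j => ?_) j
  · exact Or.inl ⟨1, rfl⟩
  refine Fin.cases ?_ (fun j => ?_) j
  · exact Or.inl ⟨2, rfl⟩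
  refine Fin.cases ?_ (fun j => ?_) j
  · exact Or.inl ⟨3, rfl⟩
  · exact Or.inr ⟨j, rfl⟩

theorem SO_unfP (Φ : Fin 4 → P K r) (hΦ : ∀ j, (Φ j).IsHomogeneous 2) {v : Fin 4 → P K r} (hv : v ∈ SO Φ) (i : Fin (r + 4)) :
    (fun j => unfP Φ i * v j) ∈ SO Φ := by
  refine Submodule.iSup_induction (SR Φ) (motive := fun w => (fun j => unfP Φ i * w j) ∈ SO Φ) hv ?_ ?_ ?_
  · intro n w hw
    rcases unfP_cases i with ⟨i, rfl⟩ | ⟨a, rfl⟩
    · rw [unfP_jy]
      exact SR_le_SO Φ _ (SR_Y Φ hΦ hw i)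
    · rw [unfP_ju]
      exact SR_le_SO Φ _ (SR_u Φ hw a)
  · have e : (fun j => unfP Φ i * (0 : Fin 4 → P K r) j) = 0 := by funext j; simp
    rw [e]; exact Submodule.zero_mem _
  · intro x y hx hy
    have e : (fun j => unfP Φ i * (x + y) j) = (fun j => unfP Φ i * x j) + fun j => unfP Φ i * y j := by
      funext j; simp [mul_add]
    rw [e]; exact Submodule.add_mem _ hx hy

theorem SO_smul (Φ : Fin 4 → P K r) (hΦ : ∀ j, (Φ j).IsHomogeneous 2) (q : MvPolynomial (Fin (r + 4)) K) {v : Fin 4 → P K r}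
    (hv : v ∈ SO Φ) : (fun j => MvPolynomial.aeval (unfP Φ) q * v j) ∈ SO Φ := by
  induction q using MvPolynomial.induction_on generalizing v with
  | C a =>
    have e : (fun j => MvPolynomial.aeval (unfP Φ) (MvPolynomial.C a) * v j) = a • v := by
      funext j
      rw [MvPolynomial.algHom_C, MvPolynomial.algebraMap_eq, Pi.smul_apply, MvPolynomial.smul_eq_C_mul]
    rw [e]; exact Submodule.smul_mem _ _ hv
  | add p q hp hq =>
    have e : (fun j => MvPolynomial.aeval (unfP Φ) (p + q) * v j) =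
        (fun j => MvPolynomial.aeval (unfP Φ) p * v j) + fun j => MvPolynomial.aeval (unfP Φ) q * v j := by
      funext j; rw [Pi.add_apply, map_add, add_mul]
    rw [e]; exact Submodule.add_mem _ (hp hv) (hq hv)
  | mul_X p i hp =>
    have e : (fun j => MvPolynomial.aeval (unfP Φ) (p * MvPolynomial.X i) * v j) =
        fun j => MvPolynomial.aeval (unfP Φ) p * (unfP Φ i * v j) := by
      funext j; rw [map_mul, MvPolynomial.aeval_X, mul_assoc]
    rw [e]
    exact hp (SO_unfP Φ hΦ hv i)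

/-- the image of `O` in `B` -/
noncomputable def OO (Φ : Fin 4 → P K r) : Subalgebra K (P K r) := (MvPolynomial.aeval (unfP Φ)).range

/-- `SO Φ` is an `O`-module -/
noncomputable def SOm (Φ : Fin 4 → P K r) (hΦ : ∀ j, (Φ j).IsHomogeneous 2) : Submodule (OO Φ) (Fin 4 → P K r) where
  carrier := SO Φ
  add_mem' := fun ha hb => (SO Φ).add_mem ha hb
  zero_mem' := (SO Φ).zero_mem
  smul_mem' := by
    rintro ⟨c, q, rfl⟩ v hv
    exact SO_smul Φ hΦ q hv

theorem mk_eq_zero_iff (Φ : Fin 4 → P K r) (hΦ : ∀ j, (Φ j).IsHomogeneous 2) (v : Fin 4 → P K r) :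
    (Submodule.Quotient.mk v : (Fin 4 → P K r) ⧸ SOm Φ hΦ) = 0 ↔ v ∈ SO Φ :=
  Submodule.Quotient.mk_eq_zero _

/-- the points of `O` -/
noncomputable def xO (Φ : Fin 4 → P K r) (i : Fin (r + 4)) : OO Φ := ⟨unfP Φ i, MvPolynomial.X i, by
  simp⟩

theorem coe_aeval_xO (Φ : Fin 4 → P K r) (q : MvPolynomial (Fin (r + 4)) K) :
    ((MvPolynomial.aeval (xO Φ) q : OO Φ) : P K r) = MvPolynomial.aeval (unfP Φ) q := by
  have h : (OO Φ).val.comp (MvPolynomial.aeval (xO Φ)) = MvPolynomial.aeval (unfP Φ) := by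
    apply MvPolynomial.algHom_ext
    intro i
    simp [xO]
  exact DFunLike.congr_fun h q

/-- the transfer from statements on modules over `O` to memberships in `SO` -/
theorem of_mod (Φ : Fin 4 → P K r) (hΦ : ∀ j, (Φ j).IsHomogeneous 2) {n : ℕ} (l : Fin n → Fin 4 → P K r) {I J : Type}
    (rel : I → Fin n → MvPolynomial (Fin (r + 4)) K) (tgt : J → Fin n → MvPolynomial (Fin (r + 4)) K)
    (hrel : ∀ i, (fun j => ∑ g, MvPolynomial.aeval (unfP Φ) (rel i g) * l g j) ∈ SO Φ)
    (habs : ∀ (A : Type) [CommRing A] [Algebra K A] (x : Fin (r + 4) → A) (M : Type) [AddCommGroup M] [Module A M] (y : Fin n → M),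
      (∀ i, ∑ g, MvPolynomial.aeval x (rel i g) • y g = 0) → ∀ t, ∑ g, MvPolynomial.aeval x (tgt t g) • y g = 0) (t : J) :
    (fun j => ∑ g, MvPolynomial.aeval (unfP Φ) (tgt t g) * l g j) ∈ SO Φ := by
  have key : ∀ c : Fin n → MvPolynomial (Fin (r + 4)) K,
      ∑ g, MvPolynomial.aeval (xO Φ) (c g) • (Submodule.Quotient.mk (l g) : (Fin 4 → P K r) ⧸ SOm Φ hΦ) =
        Submodule.Quotient.mk (fun j => ∑ g, MvPolynomial.aeval (unfP Φ) (c g) * l g j) := by
    intro c
    have e : (fun j => ∑ g, MvPolynomial.aeval (unfP Φ) (c g) * l g j) = ∑ g, MvPolynomial.aeval (xO Φ) (c g) • l g := by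
      funext j
      rw [Finset.sum_apply]
      refine Finset.sum_congr rfl fun g _ => ?_
      rw [Pi.smul_apply, Subalgebra.smul_def, coe_aeval_xO, smul_eq_mul]
    rw [e, ← Submodule.mkQ_apply, map_sum]
    rfl
  have h := habs (OO Φ) (xO Φ) ((Fin 4 → P K r) ⧸ SOm Φ hΦ) (fun g => Submodule.Quotient.mk (l g)) (fun i => by
    rw [key, mk_eq_zero_iff]; exact hrel i) t
  rw [key, mk_eq_zero_iff] at h
  exact h

/-- the span of all `u^γ l_g` -/
noncomputable def VLs {ι : Type} (l : ι → Fin 4 → P K r) : Submodule K (Fin 4 → P K r) :=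
  Submodule.span K {v | ∃ (g : ι) (γ : Fin r →₀ ℕ), v = fun j => umon K γ * l g j}

theorem umon_hom (γ : Fin r →₀ ℕ) : (umon K γ).IsHomogeneous (Finsupp.degree γ) := by
  unfold umon
  refine MvPolynomial.isHomogeneous_monomial _ ?_
  rw [Finsupp.degree_eq_weight_one, Finsupp.weight_apply, Finsupp.sum_mapDomain_index (by simp) (by intros; simp),
    Finsupp.degree_eq_weight_one, Finsupp.weight_apply]

theorem gr2 (Φ : Fin 4 → P K r) (hΦ : ∀ j, (Φ j).IsHomogeneous 2) {ι : Type} (l : ι → Fin 4 → P K r) (δ : ι → ℕ)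
    (hl : ∀ g j, (l g j).IsHomogeneous (δ g)) (m : ℕ) (v : Fin 4 → P K r) (hv : ∀ j, (v j).IsHomogeneous m)
    (h : v ∈ VLs l ⊔ SO Φ) : v ∈ VL l δ m ⊔ SR Φ m := by
  set H : (Fin 4 → P K r) →ₗ[K] (Fin 4 → P K r) :=
    LinearMap.pi fun j => (MvPolynomial.homogeneousComponent m).comp (LinearMap.proj j) with hH
  have hHa : ∀ w j, H w j = MvPolynomial.homogeneousComponent m (w j) := fun w j => rfl
  have key1 : ∀ w ∈ VLs l, H w ∈ VL l δ m := by
    intro w hw
    refine Submodule.span_induction (p := fun w _ => H w ∈ VL l δ m) ?_ ?_ ?_ ?_ hw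
    · rintro w ⟨g, γ, rfl⟩
      have hh : ∀ j, (umon K γ * l g j).IsHomogeneous (Finsupp.degree γ + δ g) := fun j => (umon_hom γ).mul (hl g j)
      by_cases hd : m = Finsupp.degree γ + δ g
      · have : H (fun j => umon K γ * l g j) = fun j => umon K γ * l g j := by
          funext j
          rw [hHa, MvPolynomial.homogeneousComponent_of_mem (hh j), if_pos hd]
        rw [this]
        exact Submodule.subset_span ⟨g, γ, hd.symm, rfl⟩
      · have : H (fun j => umon K γ * l g j) = 0 := by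
          funext j
          rw [hHa, MvPolynomial.homogeneousComponent_of_mem (hh j), if_neg hd]
          rfl
        rw [this]
        exact Submodule.zero_mem _
    · rw [map_zero]; exact Submodule.zero_mem _
    · intro x y _ _ hx hy
      rw [map_add]; exact Submodule.add_mem _ hx hy
    · intro a x _ hx
      rw [map_smul]; exact Submodule.smul_mem _ _ hx
  have key2 : ∀ w, w ∈ SO Φ → H w ∈ SR Φ m := by
    intro w hw
    refine Submodule.iSup_induction (SR Φ) (motive := fun w => H w ∈ SR Φ m) hw ?_ ?_ ?_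
    · intro n w hw
      by_cases hnm : m = n
      · subst hnm
        have : H w = w := by
          funext j
          rw [hHa, MvPolynomial.homogeneousComponent_of_mem (SR_hom Φ hΦ hw j), if_pos rfl]
        rw [this]; exact hw
      · have : H w = 0 := by
          funext j
          rw [hHa, MvPolynomial.homogeneousComponent_of_mem (SR_hom Φ hΦ hw j), if_neg hnm]
          rfl
        rw [this]; exact Submodule.zero_mem _
    · rw [map_zero]; exact Submodule.zero_mem _
    · intro x y hx hy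
      rw [map_add]; exact Submodule.add_mem _ hx hy
  obtain ⟨a, ha, b, hb, rfl⟩ := Submodule.mem_sup.1 h
  have hv' : H (a + b) = a + b := by
    funext j
    rw [hHa, MvPolynomial.homogeneousComponent_of_mem (hv j), if_pos rfl]
  rw [← hv', map_add]
  exact Submodule.add_mem_sup (key1 a ha) (key2 b hb)

theorem xe_hom (a b c : ℕ) (j₀ j : Fin 4) : (xe K a b c j₀ j : P K r).IsHomogeneous (a + b + c) := by
  unfold xe
  split_ifs
  · have h := ((MvPolynomial.isHomogeneous_X K (ix 0 : Fin (r + 3))).pow a).mul ((MvPolynomial.isHomogeneous_X K (ix 1 : Fin (r + 3))).pow b)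
    have h' := h.mul ((MvPolynomial.isHomogeneous_X K (ix 2 : Fin (r + 3))).pow c)
    simpa using h'
  · exact MvPolynomial.isHomogeneous_zero _ _ _

/-- the finite certificate -/
theorem van_of_cert (Φ : Fin 4 → P K r) (hΦ : ∀ j, (Φ j).IsHomogeneous 2)
    (c : Fin 3 → Fin r → Fin 3 → K) (q : Fin 3 → Fin 2 → K) (hq : ∀ t, q 0 t = 0)
    (hc : ∀ i : Fin 3, Φ i.castSucc = MvPolynomial.X (ix i) ^ 2 +
      MvPolynomial.X (ix 0) * (MvPolynomial.C (q i 0) * MvPolynomial.X (ix 1) + MvPolynomial.C (q i 1) * MvPolynomial.X (ix 2)) +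
      ∑ a, ∑ l, MvPolynomial.C (c i a l) * MvPolynomial.X (iu a) * MvPolynomial.X (ix l))
    {ι : Type} (l : ι → Fin 4 → P K r) (hl : ∀ g j, (l g j).IsHomogeneous 1)
    (h1 : ∀ a b c : ℕ, a ≤ 1 → b ≤ 1 → c ≤ 1 → 1 ≤ a + b + c → ∀ j₀ : Fin 4, xe K a b c j₀ ∈ VLs l ⊔ SO Φ)
    (h2 : ∀ (i : Fin 3) (g : ι), (fun j => Φ i.castSucc * l g j) ∈ VLs l ⊔ SO Φ)
    (N : ℕ) (h3 : ∀ (g : ι) (a : Fin r), (fun j => MvPolynomial.X (iu a) ^ N * l g j) ∈ SO Φ)
    (m : ℕ) (hm : r * N + 1 ≤ m) (hN : 0 < r) : VanAt Φ m := by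
  refine van_of_nil Φ hΦ c q hq hc l (fun _ => 1) ?_ ?_ (r * N + 1) ?_ m hm
  · intro a b c' ha hb hc' habc j₀
    exact gr2 Φ hΦ l (fun _ => 1) hl _ _ (fun j => xe_hom a b c' j₀ j) (h1 a b c' ha hb hc' habc j₀)
  · intro i g
    refine gr2 Φ hΦ l (fun _ => 1) hl _ _ (fun j => ?_) (h2 i g)
    exact (hΦ i.castSucc).mul (hl g j)
  · intro g γ hγ
    have hγ' : r * N ≤ Finsupp.degree γ := by omega
    obtain ⟨a, ha⟩ : ∃ a, N ≤ γ a := by
      by_contra hcon
      push Not at hcon
      have h1 : Finsupp.degree γ < r * N := by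
        rw [Finsupp.degree_eq_sum]
        calc ∑ i, γ i < ∑ _i : Fin r, N := by
              refine Finset.sum_lt_sum_of_nonempty ?_ fun i _ => hcon i
              exact ⟨⟨0, hN⟩, Finset.mem_univ _⟩
          _ = r * N := by simp
      omega
    refine gr Φ hΦ _ _ (fun j => (umon_hom γ).mul (hl g j)) ?_
    have e1 : umon K γ = MvPolynomial.aeval (unfP Φ)
        (MvPolynomial.monomial ((γ - Finsupp.single a N).mapDomain ju) (1 : K) : MvPolynomial (Fin (r + 4)) K) * MvPolynomial.X (iu a) ^ N := by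
      rw [MvPolynomial.aeval_monomial, map_one, one_mul, Finsupp.prod_mapDomain_index (by simp) (by intros; rw [pow_add])]
      simp only [unfP_ju]
      conv_lhs => rw [umon, ← tsub_add_cancel_of_le (Finsupp.single_le_iff.2 ha : Finsupp.single a N ≤ γ), Finsupp.mapDomain_add,
        Finsupp.mapDomain_single]
      rw [MvPolynomial.monomial_add_single]
      congr 1
      rw [MvPolynomial.monomial_eq, map_one, one_mul, Finsupp.prod_mapDomain_index (by simp) (by intros; rw [pow_add])]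
    have e2 : (fun j => umon K γ * l g j) = fun j => MvPolynomial.aeval (unfP Φ)
        (MvPolynomial.monomial ((γ - Finsupp.single a N).mapDomain ju) (1 : K) : MvPolynomial (Fin (r + 4)) K) *
          ((fun j => MvPolynomial.X (iu a) ^ N * l g j) j) := by
      funext j
      rw [e1, mul_assoc]
    rw [e2]
    exact SO_smul Φ hΦ _ (h3 g a)

end Pool.Agent.LibGF7
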