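import Pool.Agent.LibGF7.Mod
import Pool.Agent.LibMX34.RDefs2

set_option autoImplicit false

/-! GF7 Sec (helper7): sections `v = T u` of the universal germ as polynomials. -/

namespace Pool.Agent.LibGF7

open Pool.Agent.LibMX34

/-- the linear form `v_t`, source -/
noncomputable def Lv (K : Type) [CommRing K] {r : ℕ} (T : Fin 9 → Fin r → ℤ) (t : Fin 9) : P K r :=
  ∑ a, MvPolynomial.C (T t a : K) * MvPolynomial.X (iu a)

/-- the linear form `v_t`, target -/
noncomputable def Lw (K : Type) [CommRing K] {r : ℕ} (T : Fin 9 → Fin r → ℤ) (t : Fin 9) : MvPolynomial (Fin (r + 4)) K :=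
  ∑ a, MvPolynomial.C (T t a : K) * MvPolynomial.X (ju a)

/-- the section `v = T u` of the universal germ -/
noncomputable def PhiP (K : Type) [CommRing K] {r : ℕ} (T : Fin 9 → Fin r → ℤ) : Fin 4 → P K r :=
  ![MvPolynomial.X (ix 0) ^ 2 + Lv K T 0 * MvPolynomial.X (ix 1) + Lv K T 1 * MvPolynomial.X (ix 2),
    MvPolynomial.X (ix 1) ^ 2 + MvPolynomial.X (ix 0) * MvPolynomial.X (ix 2) + Lv K T 2 * MvPolynomial.X (ix 0) + Lv K T 3 * MvPolynomial.X (ix 2),
    MvPolynomial.X (ix 2) ^ 2 + MvPolynomial.X (ix 0) * MvPolynomial.X (ix 1) + Lv K T 4 * MvPolynomial.X (ix 0) + Lv K T 5 * MvPolynomial.X (ix 1),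
    MvPolynomial.X (ix 1) * MvPolynomial.X (ix 2) + Lv K T 6 * MvPolynomial.X (ix 0) + Lv K T 7 * MvPolynomial.X (ix 1) + Lv K T 8 * MvPolynomial.X (ix 2)]

/-- `∂/∂v_t` of the universal germ, `x_l e_j` -/
noncomputable def EP (K : Type) [CommRing K] {r : ℕ} (t : Fin 9) : Fin 4 → P K r :=
  ![![MvPolynomial.X (ix 1), 0, 0, 0], ![MvPolynomial.X (ix 2), 0, 0, 0],
    ![0, MvPolynomial.X (ix 0), 0, 0], ![0, MvPolynomial.X (ix 2), 0, 0],
    ![0, 0, MvPolynomial.X (ix 0), 0], ![0, 0, MvPolynomial.X (ix 1), 0],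
    ![0, 0, 0, MvPolynomial.X (ix 0)], ![0, 0, 0, MvPolynomial.X (ix 1)], ![0, 0, 0, MvPolynomial.X (ix 2)]] t

/-- the point `(x, y, z, T u)` -/
noncomputable def pBP (K : Type) [CommRing K] {r : ℕ} (T : Fin 9 → Fin r → ℤ) : Fin 12 → P K r :=
  (Fin.append (fun i : Fin 3 => MvPolynomial.X (ix i)) (Lv K T) : Fin (3 + 9) → _)

/-- the point `(Y, T u)` -/
noncomputable def pOP (K : Type) [CommRing K] {r : ℕ} (T : Fin 9 → Fin r → ℤ) : Fin 13 → MvPolynomial (Fin (r + 4)) K :=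
  (Fin.append (fun j : Fin 4 => MvPolynomial.X (jy j)) (Lw K T) : Fin (4 + 9) → _)

section

variable (K : Type) [CommRing K] {r : ℕ} (T : Fin 9 → Fin r → ℤ)

theorem Lv_hom (t : Fin 9) : (Lv K T t).IsHomogeneous 1 := by
  refine MvPolynomial.IsHomogeneous.sum _ _ _ fun a _ => ?_
  have h := (MvPolynomial.isHomogeneous_C (Fin (r + 3)) (T t a : K)).mul (MvPolynomial.isHomogeneous_X K (iu a))
  simpa using h

theorem PhiP_hom (j : Fin 4) : (PhiP K T j).IsHomogeneous 2 := by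
  have hX : ∀ i j : Fin 3, (MvPolynomial.X (ix i) * MvPolynomial.X (ix j) : P K r).IsHomogeneous 2 := fun i j =>
    (MvPolynomial.isHomogeneous_X K _).mul (MvPolynomial.isHomogeneous_X K _)
  have hX2 : ∀ i : Fin 3, (MvPolynomial.X (ix i) ^ 2 : P K r).IsHomogeneous 2 := fun i => by
    rw [pow_two]; exact hX i i
  have hL : ∀ (t : Fin 9) (i : Fin 3), (Lv K T t * MvPolynomial.X (ix i) : P K r).IsHomogeneous 2 := fun t i =>
    (Lv_hom K T t).mul (MvPolynomial.isHomogeneous_X K _)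
  fin_cases j
  · exact ((hX2 0).add (hL 0 1)).add (hL 1 2)
  · exact (((hX2 1).add (hX 0 2)).add (hL 2 0)).add (hL 3 2)
  · exact (((hX2 2).add (hX 0 1)).add (hL 4 0)).add (hL 5 1)
  · exact (((hX 1 2).add (hL 6 0)).add (hL 7 1)).add (hL 8 2)

theorem EP_hom (t : Fin 9) (j : Fin 4) : (EP K t j : P K r).IsHomogeneous 1 := by
  fin_cases t <;> fin_cases j <;>
    first
    | exact MvPolynomial.isHomogeneous_X K _
    | exact MvPolynomial.isHomogeneous_zero _ _ _

theorem pBP_x (i : Fin 3) : pBP K T (Fin.castLE (by omega) i) = MvPolynomial.X (ix i) := by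
  have : (Fin.castLE (by omega) i : Fin 12) = (Fin.castAdd 9 i : Fin (3 + 9)) := rfl
  rw [this]
  exact Fin.append_left _ _ i

theorem pBP_v (t : Fin 9) : pBP K T (ivB t) = Lv K T t := by
  exact Fin.append_right _ _ t

theorem pOP_Y (j : Fin 4) : pOP K T (ijO j) = MvPolynomial.X (jy j) := by
  have : (ijO j : Fin 13) = (Fin.castAdd 9 j : Fin (4 + 9)) := rfl
  rw [this]
  exact Fin.append_left _ _ j

theorem pOP_v (t : Fin 9) : pOP K T (ivO t) = Lw K T t := by
  exact Fin.append_right _ _ t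

theorem FU_ev {S : Type} [CommRing S] [Algebra ℤ S] (p : Fin 12 → S) (j : Fin 4) :
    MvPolynomial.aeval p (FU j) = (![p 0 ^ 2 + p (ivB 0) * p 1 + p (ivB 1) * p 2,
      p 1 ^ 2 + p 0 * p 2 + p (ivB 2) * p 0 + p (ivB 3) * p 2,
      p 2 ^ 2 + p 0 * p 1 + p (ivB 4) * p 0 + p (ivB 5) * p 1,
      p 1 * p 2 + p (ivB 6) * p 0 + p (ivB 7) * p 1 + p (ivB 8) * p 2] : Fin 4 → S) j := by
  fin_cases j <;> simp [FU] <;> rfl

theorem pBP_FU (j : Fin 4) : MvPolynomial.aeval (pBP K T) (FU j) = PhiP K T j := by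
  have h0 : pBP K T 0 = MvPolynomial.X (ix 0) := pBP_x K T 0
  have h1 : pBP K T 1 = MvPolynomial.X (ix 1) := pBP_x K T 1
  have h2 : pBP K T 2 = MvPolynomial.X (ix 2) := pBP_x K T 2
  rw [FU_ev]
  simp only [pBP_v, h0, h1, h2]
  rfl

theorem aeval_Lw {S : Type} [CommRing S] [Algebra K S] (x : Fin (r + 4) → S) (t : Fin 9) :
    MvPolynomial.aeval x (Lw K T t) = ∑ a, (T t a : S) * x (ju a) := by
  simp [Lw]

theorem aeval_unf_Lw (t : Fin 9) : MvPolynomial.aeval (unfP (PhiP K T)) (Lw K T t) = Lv K T t := by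
  rw [aeval_Lw, Lv]
  refine Finset.sum_congr rfl fun a _ => ?_
  rw [unfP_ju]
  simp

theorem ev_FUs (h : MvPolynomial (Fin 13) ℤ) :
    MvPolynomial.aeval (unfP (PhiP K T)) (MvPolynomial.aeval (pOP K T) h : MvPolynomial (Fin (r + 4)) K) =
      MvPolynomial.aeval (pBP K T) (FUs h) := by
  have e : ((MvPolynomial.aeval (unfP (PhiP K T))).toRingHom.comp (MvPolynomial.aeval (R := ℤ) (pOP K T)).toRingHom) =
      (MvPolynomial.aeval (R := ℤ) (pBP K T)).toRingHom.comp FUs.toRingHom := by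
    apply MvPolynomial.ringHom_ext
    · intro n; simp
    · intro i
      have hi : (∃ j : Fin 4, i = ijO j) ∨ ∃ t : Fin 9, i = ivO t := by
        refine Fin.addCases (m := 4) (n := 9) (motive := fun i : Fin (4 + 9) => (∃ j : Fin 4, (i : Fin 13) = ijO j) ∨ ∃ t : Fin 9, (i : Fin 13) = ivO t)
          (fun j => Or.inl ⟨j, rfl⟩) (fun t => Or.inr ⟨t, rfl⟩) i
      have hF : ∀ j : Fin 4, FUs (MvPolynomial.X (ijO j)) = FU j := by
        intro j
        rw [FUs, MvPolynomial.aeval_X]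
        have : (ijO j : Fin 13) = (Fin.castAdd 9 j : Fin (4 + 9)) := rfl
        rw [this]
        exact Fin.append_left _ _ j
      have hFv : ∀ t : Fin 9, FUs (MvPolynomial.X (ivO t)) = MvPolynomial.X (ivB t) := by
        intro t
        rw [FUs, MvPolynomial.aeval_X]
        exact Fin.append_right _ _ t
      rcases hi with ⟨j, rfl⟩ | ⟨t, rfl⟩
      · show MvPolynomial.aeval (unfP (PhiP K T)) (MvPolynomial.aeval (pOP K T) (MvPolynomial.X (ijO j))) =
          MvPolynomial.aeval (pBP K T) (FUs (MvPolynomial.X (ijO j)))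
        rw [hF, MvPolynomial.aeval_X, pOP_Y, MvPolynomial.aeval_X, unfP_jy, pBP_FU]
      · show MvPolynomial.aeval (unfP (PhiP K T)) (MvPolynomial.aeval (pOP K T) (MvPolynomial.X (ivO t))) =
          MvPolynomial.aeval (pBP K T) (FUs (MvPolynomial.X (ivO t)))
        rw [hFv, MvPolynomial.aeval_X, pOP_v, aeval_unf_Lw, MvPolynomial.aeval_X, pBP_v]
  exact DFunLike.congr_fun e h

theorem pderiv_Lv_x (i : Fin 3) (t : Fin 9) : MvPolynomial.pderiv (ix i) (Lv K T t) = 0 := by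
  have hne : ∀ a : Fin r, (iu a : Fin (r + 3)) ≠ ix i := by
    intro a h
    have := congrArg Fin.val h
    simp [iu, ix] at this
    omega
  simp [Lv, hne]

theorem pderiv_Lv_u (a : Fin r) (t : Fin 9) : MvPolynomial.pderiv (iu a) (Lv K T t) = MvPolynomial.C (T t a : K) := by
  have hinj : ∀ b : Fin r, b ≠ a → (iu b : Fin (r + 3)) ≠ iu a := by
    intro b hb h
    apply hb
    exact Fin.succ_injective _ (Fin.succ_injective _ (Fin.succ_injective _ h))
  rw [Lv, map_sum, Finset.sum_eq_single a]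
  · rw [MvPolynomial.pderiv_C_mul, MvPolynomial.pderiv_X_self, mul_one]
  · intro b _ hb
    rw [MvPolynomial.pderiv_C_mul, MvPolynomial.pderiv_X_of_ne (hinj b hb), mul_zero]
  · intro h; exact absurd (Finset.mem_univ a) h

theorem pderiv_X_ix (i j : Fin 3) : MvPolynomial.pderiv (ix i : Fin (r + 3)) (MvPolynomial.X (ix j) : P K r) = if i = j then 1 else 0 := by
  split_ifs with h
  · rw [h, MvPolynomial.pderiv_X_self]
  · refine MvPolynomial.pderiv_X_of_ne ?_
    intro h'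
    apply h
    have := congrArg Fin.val h'
    exact Fin.ext (by simpa [ix] using this.symm)

theorem pderiv_u_X (a : Fin r) (j : Fin 3) : MvPolynomial.pderiv (iu a : Fin (r + 3)) (MvPolynomial.X (ix j) : P K r) = 0 := by
  refine MvPolynomial.pderiv_X_of_ne ?_
  intro h
  have := congrArg Fin.val h
  simp [iu, ix] at this
  omega

theorem PhiP_dx (j : Fin 4) : MvPolynomial.pderiv (ix 0) (PhiP K T j) =
    (![2 * MvPolynomial.X (ix 0), MvPolynomial.X (ix 2) + Lv K T 2, MvPolynomial.X (ix 1) + Lv K T 4, Lv K T 6] : Fin 4 → P K r) j := by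
  fin_cases j <;> simp [PhiP, pderiv_Lv_x, pderiv_X_ix, pow_two, -MvPolynomial.pderiv_X] <;> ring

theorem PhiP_dy (j : Fin 4) : MvPolynomial.pderiv (ix 1) (PhiP K T j) =
    (![Lv K T 0, 2 * MvPolynomial.X (ix 1), MvPolynomial.X (ix 0) + Lv K T 5, MvPolynomial.X (ix 2) + Lv K T 7] : Fin 4 → P K r) j := by
  fin_cases j <;> simp [PhiP, pderiv_Lv_x, pderiv_X_ix, pow_two, -MvPolynomial.pderiv_X] <;> ring

theorem PhiP_dz (j : Fin 4) : MvPolynomial.pderiv (ix 2) (PhiP K T j) =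
    (![Lv K T 1, MvPolynomial.X (ix 0) + Lv K T 3, 2 * MvPolynomial.X (ix 2), MvPolynomial.X (ix 1) + Lv K T 8] : Fin 4 → P K r) j := by
  fin_cases j <;> simp [PhiP, pderiv_Lv_x, pderiv_X_ix, pow_two, -MvPolynomial.pderiv_X] <;> ring

theorem PhiP_du (a : Fin r) (j : Fin 4) : MvPolynomial.pderiv (iu a) (PhiP K T j) =
    ∑ t, MvPolynomial.C (T t a : K) * EP K t j := by
  fin_cases j <;> simp [PhiP, EP, pderiv_Lv_u, pderiv_u_X, pow_two, Fin.sum_univ_succ, -MvPolynomial.pderiv_X] <;> ring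

end

end Pool.Agent.LibGF7
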