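import Pool.Agent.LibGF7.Gen

set_option autoImplicit false

/-! GF7 Van (helper7): from the liftable fields of the universal germ and memberships over `O` to `VanAt` for a section `v = T u`. -/

namespace Pool.Agent.LibGF7

open Pool.Agent.LibMX34

section

variable (K : Type) [CommRing K] {r : ℕ} (T : Fin 9 → Fin r → ℤ)

theorem ev_dFU (a : Fin 3) (j : Fin 4) :
    MvPolynomial.aeval (pBP K T) (MvPolynomial.pderiv (Fin.castLE (by omega) a : Fin 12) (FU j)) = MvPolynomial.pderiv (ix a) (PhiP K T j) := by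
  have h0 : pBP K T 0 = MvPolynomial.X (ix 0) := pBP_x K T 0
  have h1 : pBP K T 1 = MvPolynomial.X (ix 1) := pBP_x K T 1
  have h2 : pBP K T 2 = MvPolynomial.X (ix 2) := pBP_x K T 2
  have v0 : pBP K T 3 = Lv K T 0 := pBP_v K T 0
  have v1 : pBP K T 4 = Lv K T 1 := pBP_v K T 1
  have v2 : pBP K T 5 = Lv K T 2 := pBP_v K T 2
  have v3 : pBP K T 6 = Lv K T 3 := pBP_v K T 3
  have v4 : pBP K T 7 = Lv K T 4 := pBP_v K T 4
  have v5 : pBP K T 8 = Lv K T 5 := pBP_v K T 5
  have v6 : pBP K T 9 = Lv K T 6 := pBP_v K T 6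
  have v7 : pBP K T 10 = Lv K T 7 := pBP_v K T 7
  have v8 : pBP K T 11 = Lv K T 8 := pBP_v K T 8
  fin_cases a
  · show MvPolynomial.aeval (pBP K T) (MvPolynomial.pderiv (0 : Fin 12) (FU j)) = MvPolynomial.pderiv (ix 0) (PhiP K T j)
    rw [PhiP_dx]
    fin_cases j <;> simp [FU, h0, h1, h2, v2, v4, v6, pow_two, two_mul]
  · show MvPolynomial.aeval (pBP K T) (MvPolynomial.pderiv (1 : Fin 12) (FU j)) = MvPolynomial.pderiv (ix 1) (PhiP K T j)
    rw [PhiP_dy]
    fin_cases j <;> simp [FU, h0, h1, h2, v0, v5, v7, pow_two, two_mul]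
  · show MvPolynomial.aeval (pBP K T) (MvPolynomial.pderiv (2 : Fin 12) (FU j)) = MvPolynomial.pderiv (ix 2) (PhiP K T j)
    rw [PhiP_dz]
    fin_cases j <;> simp [FU, h0, h1, h2, v1, v3, v8, pow_two, two_mul]

theorem ev_vFU (t : Fin 9) (j : Fin 4) :
    MvPolynomial.aeval (pBP K T) (MvPolynomial.pderiv (ivB t) (FU j)) = EP K t j := by
  have h0 : pBP K T 0 = MvPolynomial.X (ix 0) := pBP_x K T 0
  have h1 : pBP K T 1 = MvPolynomial.X (ix 1) := pBP_x K T 1
  have h2 : pBP K T 2 = MvPolynomial.X (ix 2) := pBP_x K T 2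
  have hi : ∀ t : Fin 9, (ivB t : Fin 12) = ![3, 4, 5, 6, 7, 8, 9, 10, 11] t := by decide
  rw [hi]
  fin_cases t <;> fin_cases j <;> simp [FU, EP, h0, h1, h2]

/-- a liftable field of the universal germ gives a relation in `T1` of the section -/
theorem rel_mem (η : Fin 13 → MvPolynomial (Fin 13) ℤ) (ξ : Fin 3 → MvPolynomial (Fin 12) ℤ)
    (hlift : ∀ j : Fin 4, FUs (η (ijO j)) = ∑ a : Fin 3, ξ a * MvPolynomial.pderiv (Fin.castLE (by omega) a : Fin 12) (FU j) +
      ∑ t, FUs (η (ivO t)) * MvPolynomial.pderiv (ivB t) (FU j)) :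
    (fun j => ∑ t, MvPolynomial.aeval (unfP (PhiP K T)) (MvPolynomial.aeval (pOP K T) (η (ivO t)) : MvPolynomial (Fin (r + 4)) K) *
      EP K t j) ∈ SO (PhiP K T) := by
  have e : (fun j => ∑ t, MvPolynomial.aeval (unfP (PhiP K T)) (MvPolynomial.aeval (pOP K T) (η (ivO t)) : MvPolynomial (Fin (r + 4)) K) *
      EP K t j) = (∑ j₀ : Fin 4, fun j => if j = j₀ then MvPolynomial.aeval (unfP (PhiP K T))
        (MvPolynomial.aeval (pOP K T) (η (ijO j₀)) : MvPolynomial (Fin (r + 4)) K) else 0) -
      ∑ a : Fin 3, fun j => MvPolynomial.aeval (pBP K T) (ξ a) * MvPolynomial.pderiv (ix a) (PhiP K T j) := by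
    funext j
    rw [Pi.sub_apply, Finset.sum_apply, Finset.sum_apply]
    have h := congrArg (MvPolynomial.aeval (pBP K T)) (hlift j)
    rw [map_add, map_sum, map_sum] at h
    simp only [map_mul, ev_dFU, ev_vFU, ← ev_FUs] at h
    rw [Finset.sum_ite_eq Finset.univ j, if_pos (Finset.mem_univ j), h]
    ring
  rw [e]
  refine Submodule.sub_mem _ (Submodule.sum_mem _ fun j₀ _ => SO_Y _ j₀ _) (Submodule.sum_mem _ fun a _ => SO_X _ a _)

end

/-- the relation of a field in the generators `l_g = E_(τ g)`, where `E_t = ∑ A_ta ∂Φ/∂u_a + ∑ B_tg l_g` -/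
noncomputable def relO (K : Type) [CommRing K] {r n : ℕ} (T : Fin 9 → Fin r → ℤ) (B : Fin 9 → Fin n → K)
    (η : Fin 13 → MvPolynomial (Fin 13) ℤ) (g : Fin n) : MvPolynomial (Fin (r + 4)) K :=
  ∑ t, MvPolynomial.C (B t g) * MvPolynomial.aeval (pOP K T) (η (ivO t))

/-- `VanAt` for a section of the universal germ, from module statements over `O` -/
theorem van_T {K : Type} [CommRing K] (u2 : IsUnit (2 : K)) (u3 : IsUnit (3 : K)) {r n : ℕ} (hr : 0 < r) (T : Fin 9 → Fin r → ℤ)
    -- the generators
    (τ : Fin n → Fin 9) (A : Fin 9 → Fin r → K) (B : Fin 9 → Fin n → K)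
    (hAB : ∀ t t', (if t = t' then (1 : K) else 0) = ∑ a, A t a * (T t' a : K) + ∑ g, B t g * if τ g = t' then 1 else 0)
    -- the fields
    {I : Type} (η : I → Fin 13 → MvPolynomial (Fin 13) ℤ) (ξ : I → Fin 3 → MvPolynomial (Fin 12) ℤ)
    (hlift : ∀ i, ∀ j : Fin 4, FUs (η i (ijO j)) = ∑ a : Fin 3, ξ i a * MvPolynomial.pderiv (Fin.castLE (by omega) a : Fin 12) (FU j) +
      ∑ t, FUs (η i (ivO t)) * MvPolynomial.pderiv (ivB t) (FU j))
    -- the memberships
    (N : ℕ) (habs : ∀ (R : Type) [CommRing R] [Algebra K R] (x : Fin (r + 4) → R) (M : Type) [AddCommGroup M] [Module R M] (y : Fin n → M),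
      (∀ i, ∑ g, MvPolynomial.aeval x (relO K T B (η i) g) • y g = 0) →
        (∀ a g, x (ju a) ^ N • y g = 0) ∧
        ∀ j g, ∃ d : Fin n → MvPolynomial (Fin r) K, x (jy j) • y g = ∑ g', MvPolynomial.aeval (fun a => x (ju a)) (d g') • y g')
    (m : ℕ) (hm : r * N + 1 ≤ m) : VanAt (PhiP K T) m := by
  classical
  set Φ := PhiP K T with hΦdef
  have hΦ : ∀ j, (Φ j).IsHomogeneous 2 := PhiP_hom K T
  set l : Fin n → Fin 4 → P K r := fun g => EP K (τ g) with hl
  -- `E_t` in terms of the generators
  have hEt : ∀ t, (EP K t : Fin 4 → P K r) = (∑ a, A t a • fun j => MvPolynomial.pderiv (iu a) (Φ j)) + ∑ g, B t g • l g := by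
    intro t
    funext j
    rw [Pi.add_apply, Finset.sum_apply, Finset.sum_apply]
    simp only [Pi.smul_apply, hΦdef, PhiP_du, hl]
    have h1 : ∀ a, A t a • ∑ t', MvPolynomial.C (T t' a : K) * (EP K t' j : P K r) = ∑ t', (A t a * (T t' a : K)) • (EP K t' j : P K r) := by
      intro a
      rw [Finset.smul_sum]
      refine Finset.sum_congr rfl fun t' _ => ?_
      rw [← MvPolynomial.smul_eq_C_mul, smul_smul]
    simp only [h1]
    rw [Finset.sum_comm]
    have h2 : ∑ g, B t g • (EP K (τ g) j : P K r) = ∑ t', (∑ g, B t g * if τ g = t' then 1 else 0) • (EP K t' j : P K r) := by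
      simp only [Finset.sum_smul]
      rw [Finset.sum_comm]
      refine Finset.sum_congr rfl fun g _ => ?_
      rw [Finset.sum_eq_single (τ g)]
      · simp
      · intro t' _ ht'
        rw [if_neg (Ne.symm ht'), mul_zero, zero_smul]
      · intro h; exact absurd (Finset.mem_univ _) h
    rw [h2, ← Finset.sum_add_distrib]
    have h3 : ∀ t', ∑ a, (A t a * (T t' a : K)) • (EP K t' j : P K r) + (∑ g, B t g * if τ g = t' then 1 else 0) • (EP K t' j : P K r) =
        (if t = t' then (1 : K) else 0) • (EP K t' j : P K r) := by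
      intro t'
      rw [hAB t t']
      simp only [add_smul, Finset.sum_smul]
    simp only [h3]
    rw [Finset.sum_eq_single t]
    · simp
    · intro t' _ ht'
      rw [if_neg (Ne.symm ht'), zero_smul]
    · intro h; exact absurd (Finset.mem_univ _) h
  -- relations
  have hrel : ∀ i, (fun j => ∑ g, MvPolynomial.aeval (unfP Φ) (relO K T B (η i) g) * l g j) ∈ SO Φ := by
    intro i
    have h := rel_mem K T (η i) (ξ i) (hlift i)
    set c : Fin 9 → P K r := fun t => MvPolynomial.aeval (unfP (PhiP K T)) (MvPolynomial.aeval (pOP K T) (η i (ivO t)) : MvPolynomial (Fin (r + 4)) K) with hc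
    have e : (fun j => ∑ g, MvPolynomial.aeval (unfP Φ) (relO K T B (η i) g) * l g j) =
        (fun j => ∑ t, c t * EP K t j) -
          ∑ a, fun j => MvPolynomial.aeval (unfP Φ) (∑ t, MvPolynomial.C (A t a) * (MvPolynomial.aeval (pOP K T) (η i (ivO t)) : MvPolynomial (Fin (r + 4)) K)) *
            MvPolynomial.pderiv (iu a) (Φ j) := by
      funext j
      rw [Pi.sub_apply, Finset.sum_apply]
      have h1 : ∀ t, (EP K t j : P K r) = ∑ a, A t a • MvPolynomial.pderiv (iu a) (Φ j) + ∑ g, B t g • l g j := by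
        intro t
        have := congrFun (hEt t) j
        rw [Pi.add_apply, Finset.sum_apply, Finset.sum_apply] at this
        exact this
      simp only [relO, map_sum, map_mul, MvPolynomial.algHom_C, MvPolynomial.algebraMap_eq]
      have h2 : ∑ t, c t * EP K t j = ∑ t, ∑ a, c t * (A t a • MvPolynomial.pderiv (iu a) (Φ j)) + ∑ t, ∑ g, c t * (B t g • l g j) := by
        rw [← Finset.sum_add_distrib]
        refine Finset.sum_congr rfl fun t _ => ?_
        rw [h1 t, mul_add, Finset.mul_sum, Finset.mul_sum]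
      rw [h2, Finset.sum_comm (f := fun t a => c t * (A t a • MvPolynomial.pderiv (iu a) (Φ j))), Finset.sum_comm (f := fun t g => c t * (B t g • l g j))]
      have h3 : ∀ a, ∑ t, c t * (A t a • MvPolynomial.pderiv (iu a) (Φ j)) =
          (∑ t, MvPolynomial.C (A t a) * MvPolynomial.aeval (unfP Φ) (MvPolynomial.aeval (pOP K T) (η i (ivO t)) : MvPolynomial (Fin (r + 4)) K)) *
            MvPolynomial.pderiv (iu a) (Φ j) := by
        intro a
        rw [Finset.sum_mul]
        refine Finset.sum_congr rfl fun t _ => ?_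
        rw [MvPolynomial.smul_eq_C_mul]
        simp only [hc, hΦdef]
        ring
      have h4 : ∀ g, ∑ t, c t * (B t g • l g j) =
          (∑ t, MvPolynomial.C (B t g) * MvPolynomial.aeval (unfP Φ) (MvPolynomial.aeval (pOP K T) (η i (ivO t)) : MvPolynomial (Fin (r + 4)) K)) * l g j := by
        intro g
        rw [Finset.sum_mul]
        refine Finset.sum_congr rfl fun t _ => ?_
        rw [MvPolynomial.smul_eq_C_mul]
        simp only [hc, hΦdef]
        ring
      simp only [h3, h4]
      ring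
    rw [e]
    exact Submodule.sub_mem _ h (Submodule.sum_mem _ fun a _ => SO_U _ a _)
  -- the module statements for `SO`
  have key : ∀ c : Fin n → MvPolynomial (Fin (r + 4)) K,
      ∑ g, MvPolynomial.aeval (xO Φ) (c g) • (Submodule.Quotient.mk (l g) : (Fin 4 → P K r) ⧸ SOm Φ hΦ) =
        Submodule.Quotient.mk (fun j => ∑ g, MvPolynomial.aeval (unfP Φ) (c g) * l g j) := by
    intro c
    have e : (fun j => ∑ g, MvPolynomial.aeval (unfP Φ) (c g) * l g j) = ∑ g, MvPolynomial.aeval (xO Φ) (c g) • l g := by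
      funext j
      rw [Finset.sum_apply]
      refine Finset.sum_congr rfl fun g _ => ?_
      rw [Pi.smul_apply, Subalgebra.smul_def, coe_aeval_xO, smul_eq_mul]
    rw [e, ← Submodule.mkQ_apply, map_sum]
    rfl
  have hmod := habs (OO Φ) (xO Φ) ((Fin 4 → P K r) ⧸ SOm Φ hΦ) (fun g => Submodule.Quotient.mk (l g)) (fun i => by
    rw [key, mk_eq_zero_iff]; exact hrel i)
  have hpow : ∀ a g, (fun j => MvPolynomial.X (iu a) ^ N * l g j) ∈ SO Φ := by
    intro a g
    rw [← mk_eq_zero_iff Φ hΦ]
    rw [← hmod.1 a g]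
    have e : (fun j => MvPolynomial.X (iu a) ^ N * l g j) = (xO Φ (ju a) ^ N) • l g := by
      funext j
      rw [Pi.smul_apply, Subalgebra.smul_def, smul_eq_mul]
      congr 1
    rw [e]
    rfl
  -- `W = VLs l ⊔ SO Φ`
  set W : Submodule K (Fin 4 → P K r) := VLs l ⊔ SO Φ with hW
  have hu : ∀ (a : Fin r) (v : Fin 4 → P K r), v ∈ W → (fun j => MvPolynomial.X (iu a) * v j) ∈ W := by
    intro a v hv
    obtain ⟨p, hp, q, hq, rfl⟩ := Submodule.mem_sup.1 hv
    have e : (fun j => MvPolynomial.X (iu a) * (p + q) j) = (fun j => MvPolynomial.X (iu a) * p j) + fun j => MvPolynomial.X (iu a) * q j := by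
      funext j; rw [Pi.add_apply, mul_add]; rfl
    rw [e]
    refine Submodule.add_mem_sup ?_ ?_
    · refine Submodule.span_induction (p := fun w _ => (fun j => MvPolynomial.X (iu a) * w j) ∈ VLs l) ?_ ?_ ?_ ?_ hp
      · rintro w ⟨g, γ, rfl⟩
        refine Submodule.subset_span ⟨g, γ + Finsupp.single a 1, ?_⟩
        funext j
        have e1 : umon K (γ + Finsupp.single a 1) = MvPolynomial.X (iu a) * umon K γ := by
          rw [umon, umon, Finsupp.mapDomain_add, Finsupp.mapDomain_single, MvPolynomial.X, MvPolynomial.monomial_mul, one_mul,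
            add_comm (Finsupp.single (iu a) 1)]
        rw [e1, mul_assoc]
      · have : (fun j => MvPolynomial.X (iu a) * (0 : Fin 4 → P K r) j) = 0 := by funext j; simp
        rw [this]; exact Submodule.zero_mem _
      · intro x y _ _ hx hy
        have : (fun j => MvPolynomial.X (iu a) * (x + y) j) = (fun j => MvPolynomial.X (iu a) * x j) + fun j => MvPolynomial.X (iu a) * y j := by
          funext j; rw [Pi.add_apply, mul_add]; rfl
        rw [this]; exact Submodule.add_mem _ hx hy
      · intro c x _ hx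
        have : (fun j => MvPolynomial.X (iu a) * (c • x) j) = c • fun j => MvPolynomial.X (iu a) * x j := by
          funext j; rw [Pi.smul_apply, Pi.smul_apply, mul_smul_comm]
        rw [this]; exact Submodule.smul_mem _ _ hx
    · have h := SO_unfP Φ hΦ hq (ju a)
      rwa [unfP_ju] at h
  -- polynomials in `u`
  have hup : ∀ (d : MvPolynomial (Fin r) K) (v : Fin 4 → P K r), v ∈ W →
      (fun j => MvPolynomial.aeval (fun a => (MvPolynomial.X (iu a) : P K r)) d * v j) ∈ W := by
    intro d
    induction d using MvPolynomial.induction_on with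
    | C c =>
      intro v hv
      have e : (fun j => MvPolynomial.aeval (fun a => (MvPolynomial.X (iu a) : P K r)) (MvPolynomial.C c : MvPolynomial (Fin r) K) * v j) = c • v := by
        funext j
        rw [MvPolynomial.algHom_C, MvPolynomial.algebraMap_eq, Pi.smul_apply, MvPolynomial.smul_eq_C_mul]
      rw [e]; exact Submodule.smul_mem _ _ hv
    | add p q hp hq =>
      intro v hv
      have e : (fun j => MvPolynomial.aeval (fun a => (MvPolynomial.X (iu a) : P K r)) (p + q) * v j) =
          (fun j => MvPolynomial.aeval (fun a => (MvPolynomial.X (iu a) : P K r)) p * v j) +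
            fun j => MvPolynomial.aeval (fun a => (MvPolynomial.X (iu a) : P K r)) q * v j := by
        funext j; rw [Pi.add_apply, map_add, add_mul]
      rw [e]; exact Submodule.add_mem _ (hp v hv) (hq v hv)
    | mul_X p i hp =>
      intro v hv
      have e : (fun j => MvPolynomial.aeval (fun a => (MvPolynomial.X (iu a) : P K r)) (p * MvPolynomial.X i) * v j) =
          fun j => MvPolynomial.aeval (fun a => (MvPolynomial.X (iu a) : P K r)) p * ((fun j => MvPolynomial.X (iu i) * v j) j) := by
        funext j; rw [map_mul, MvPolynomial.aeval_X, mul_assoc]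
      rw [e]; exact hp _ (hu i v hv)
  have hlW : ∀ g, l g ∈ W := by
    intro g
    refine Submodule.mem_sup_left (Submodule.subset_span ⟨g, 0, ?_⟩)
    funext j
    have : umon K (0 : Fin r →₀ ℕ) = 1 := by rw [umon, Finsupp.mapDomain_zero]; rfl
    rw [this, one_mul]
  -- `Y_j l_g`
  have hYl : ∀ (j₀ : Fin 4) (g : Fin n), (fun j => Φ j₀ * l g j) ∈ W := by
    intro j₀ g
    obtain ⟨d, hd⟩ := hmod.2 j₀ g
    have e1 : ∀ g', MvPolynomial.aeval (fun a => xO Φ (ju a)) (d g') = MvPolynomial.aeval (xO Φ) (MvPolynomial.rename ju (d g')) := by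
      intro g'
      rw [MvPolynomial.aeval_rename]
      rfl
    have e2 : (fun j => Φ j₀ * l g j) - (fun j => ∑ g', MvPolynomial.aeval (unfP Φ) (MvPolynomial.rename ju (d g')) * l g' j) ∈ SO Φ := by
      rw [← mk_eq_zero_iff Φ hΦ, Submodule.Quotient.mk_sub, ← key]
      have e3 : (fun j => Φ j₀ * l g j) = (xO Φ (jy j₀)) • l g := by
        funext j
        rw [Pi.smul_apply, Subalgebra.smul_def, smul_eq_mul]
        congr 1
        show Φ j₀ = unfP Φ (jy j₀)
        rw [unfP_jy]
      rw [e3, Submodule.Quotient.mk_smul, hd, sub_eq_zero]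
      refine Finset.sum_congr rfl fun g' _ => ?_
      rw [e1]
    have e4 : (fun j => ∑ g', MvPolynomial.aeval (unfP Φ) (MvPolynomial.rename ju (d g')) * l g' j) ∈ W := by
      have e5 : (fun j => ∑ g', MvPolynomial.aeval (unfP Φ) (MvPolynomial.rename ju (d g')) * l g' j) =
          ∑ g', fun j => MvPolynomial.aeval (fun a => (MvPolynomial.X (iu a) : P K r)) (d g') * l g' j := by
        funext j
        rw [Finset.sum_apply]
        refine Finset.sum_congr rfl fun g' _ => ?_
        rw [MvPolynomial.aeval_rename]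
        rfl
      rw [e5]
      exact Submodule.sum_mem _ fun g' _ => hup _ _ (hlW g')
    have e6 := Submodule.add_mem W (Submodule.mem_sup_right e2) e4
    rwa [sub_add_cancel] at e6
  -- `W` is an `O`-module
  have hY : ∀ (j₀ : Fin 4) (v : Fin 4 → P K r), v ∈ W → (fun j => Φ j₀ * v j) ∈ W := by
    intro j₀ v hv
    obtain ⟨p, hp, q, hq, rfl⟩ := Submodule.mem_sup.1 hv
    have e : (fun j => Φ j₀ * (p + q) j) = (fun j => Φ j₀ * p j) + fun j => Φ j₀ * q j := by
      funext j; rw [Pi.add_apply, mul_add]; rfl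
    rw [e]
    refine Submodule.add_mem _ ?_ ?_
    · refine Submodule.span_induction (p := fun w _ => (fun j => Φ j₀ * w j) ∈ W) ?_ ?_ ?_ ?_ hp
      · rintro w ⟨g, γ, rfl⟩
        have h := hup (MvPolynomial.monomial γ 1) _ (hYl j₀ g)
        have e1 : MvPolynomial.aeval (fun a => (MvPolynomial.X (iu a) : P K r)) (MvPolynomial.monomial γ (1 : K)) = umon K γ := by
          rw [MvPolynomial.aeval_monomial, map_one, one_mul, umon, MvPolynomial.monomial_eq, map_one, one_mul,
            Finsupp.prod_mapDomain_index (by simp) (by intros; rw [pow_add])]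
        rw [e1] at h
        have e2 : (fun j => Φ j₀ * (umon K γ * l g j)) = fun j => umon K γ * (Φ j₀ * l g j) := by funext j; ring
        rw [e2]
        exact h
      · have : (fun j => Φ j₀ * (0 : Fin 4 → P K r) j) = 0 := by funext j; simp
        rw [this]; exact Submodule.zero_mem _
      · intro x y _ _ hx hy
        have : (fun j => Φ j₀ * (x + y) j) = (fun j => Φ j₀ * x j) + fun j => Φ j₀ * y j := by
          funext j; rw [Pi.add_apply, mul_add]; rfl
        rw [this]; exact Submodule.add_mem _ hx hy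
      · intro c x _ hx
        have : (fun j => Φ j₀ * (c • x) j) = c • fun j => Φ j₀ * x j := by
          funext j; rw [Pi.smul_apply, Pi.smul_apply, mul_smul_comm]
        rw [this]; exact Submodule.smul_mem _ _ hx
    · have h := SO_unfP Φ hΦ hq (jy j₀)
      rw [unfP_jy] at h
      exact Submodule.mem_sup_right h
  have hOS : OStable Φ W := by
    intro q
    induction q using MvPolynomial.induction_on with
    | C c =>
      intro v hv
      have e : (fun j => MvPolynomial.aeval (unfP Φ) (MvPolynomial.C c) * v j) = c • v := by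
        funext j
        rw [MvPolynomial.algHom_C, MvPolynomial.algebraMap_eq, Pi.smul_apply, MvPolynomial.smul_eq_C_mul]
      rw [e]; exact Submodule.smul_mem _ _ hv
    | add p q hp hq =>
      intro v hv
      have e : (fun j => MvPolynomial.aeval (unfP Φ) (p + q) * v j) =
          (fun j => MvPolynomial.aeval (unfP Φ) p * v j) + fun j => MvPolynomial.aeval (unfP Φ) q * v j := by
        funext j; rw [Pi.add_apply, map_add, add_mul]
      rw [e]; exact Submodule.add_mem _ (hp v hv) (hq v hv)
    | mul_X p i hp =>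
      intro v hv
      have e : (fun j => MvPolynomial.aeval (unfP Φ) (p * MvPolynomial.X i) * v j) =
          fun j => MvPolynomial.aeval (unfP Φ) p * ((fun j => unfP Φ i * v j) j) := by
        funext j; rw [map_mul, MvPolynomial.aeval_X, mul_assoc]
      rw [e]
      refine hp _ ?_
      have hi : (∃ j : Fin 4, i = jy j) ∨ ∃ a : Fin r, i = ju a := by
        refine Fin.cases ?_ (fun j => ?_) i
        · exact Or.inl ⟨0, rfl⟩
        refine Fin.cases ?_ (fun j => ?_) j
        · exact Or.inl ⟨1, rfl⟩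
        refine Fin.cases ?_ (fun j => ?_) j
        · exact Or.inl ⟨2, rfl⟩
        refine Fin.cases ?_ (fun j => ?_) j
        · exact Or.inl ⟨3, rfl⟩
        · exact Or.inr ⟨j, rfl⟩
      rcases hi with ⟨j₀, rfl⟩ | ⟨a, rfl⟩
      · rw [unfP_jy]; exact hY j₀ v hv
      · rw [unfP_ju]; exact hu a v hv
  have hEW : ∀ t, (EP K t : Fin 4 → P K r) ∈ W := by
    intro t
    rw [hEt t]
    refine Submodule.add_mem _ (Submodule.sum_mem _ fun a _ => Submodule.smul_mem _ _ (Submodule.mem_sup_right ?_))
      (Submodule.sum_mem _ fun g _ => Submodule.smul_mem _ _ (hlW g))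
    have h := SO_U Φ a 1
    simpa only [map_one, one_mul] using h
  have h1 := gen_h1 T W le_sup_right hOS hEW u2 u3
  -- the shape of `Φ`
  let c : Fin 3 → Fin r → Fin 3 → K := fun i a l =>
    ![![0, (T 0 a : K), (T 1 a : K)], ![(T 2 a : K), 0, (T 3 a : K)], ![(T 4 a : K), (T 5 a : K), 0]] i l
  let q : Fin 3 → Fin 2 → K := ![![0, 0], ![0, 1], ![1, 0]]
  have hq : ∀ t, q 0 t = 0 := by intro t; fin_cases t <;> rfl
  have hc : ∀ i : Fin 3, Φ i.castSucc = MvPolynomial.X (ix i) ^ 2 +
      MvPolynomial.X (ix 0) * (MvPolynomial.C (q i 0) * MvPolynomial.X (ix 1) + MvPolynomial.C (q i 1) * MvPolynomial.X (ix 2)) +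
      ∑ a, ∑ l, MvPolynomial.C (c i a l) * MvPolynomial.X (iu a) * MvPolynomial.X (ix l) := by
    intro i
    have e : ∑ a, ∑ l, MvPolynomial.C (c i a l) * MvPolynomial.X (iu a) * MvPolynomial.X (ix l) =
        ∑ l, (∑ a, MvPolynomial.C (c i a l) * MvPolynomial.X (iu a)) * (MvPolynomial.X (ix l) : P K r) := by
      rw [Finset.sum_comm]
      refine Finset.sum_congr rfl fun l _ => ?_
      rw [Finset.sum_mul]
    rw [e, Fin.sum_univ_three]
    fin_cases i
    · simp [hΦdef, PhiP, Lv, c, q]
      ring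
    · simp [hΦdef, PhiP, Lv, c, q]
      ring
    · simp [hΦdef, PhiP, Lv, c, q]
      ring
  exact van_of_cert Φ hΦ c q hq hc l (fun g j => EP_hom K (τ g) j) h1 (fun i g => hYl i.castSucc g) N (fun g a => hpow a g) m hm hr

end Pool.Agent.LibGF7
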